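import Pool.Agent.SpecRad.StructureDefs

/-!
# Structure of bijections preserving rank-one idempotents and the trace form
-/

open ContinuousLinearMap Filter Topology

namespace Pool.Agent.SpecRad

section Algebra

variable {Y : Type*} [NormedAddCommGroup Y] [NormedSpace ℂ Y]

lemma exists_eq_one {y : Y} (hy : y ≠ 0) : ∃ f : Y →L[ℂ] ℂ, f y = 1 := by
  obtain ⟨f, hf⟩ := SeparatingDual.exists_ne_zero (R := ℂ) hy
  exact ⟨(f y)⁻¹ • f, by simp [hf]⟩

lemma rk_add_right (h : Y →L[ℂ] ℂ) (y y' : Y) : rk h (y + y') = rk h y + rk h y' := by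
  ext v; simp [smul_add]

lemma rk_sub_right (h : Y →L[ℂ] ℂ) (y y' : Y) : rk h (y - y') = rk h y - rk h y' := by
  ext v; simp [smul_sub]

lemma rk_add_left (h h' : Y →L[ℂ] ℂ) (y : Y) : rk (h + h') y = rk h y + rk h' y := by
  ext v; simp [add_smul]

lemma rk_sub_left (h h' : Y →L[ℂ] ℂ) (y : Y) : rk (h - h') y = rk h y - rk h' y := by
  ext v; simp [sub_smul]

lemma rk_smul_right (c : ℂ) (h : Y →L[ℂ] ℂ) (y : Y) : rk h (c • y) = c • rk h y := by
  ext v; simp [smul_smul, mul_comm]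

lemma rk_smul_left (c : ℂ) (h : Y →L[ℂ] ℂ) (y : Y) : rk (c • h) y = c • rk h y := by
  ext v; simp [smul_smul]

/-- The trace of `S ∘ (h ⊗ y)` depends only on the operator `h ⊗ y`. -/
lemma trace_eq {h h' : Y →L[ℂ] ℂ} {y y' : Y} (e : rk h y = rk h' y') (S : Y →L[ℂ] Y) :
    h (S y) = h' (S y') := by
  have e1 : ∀ v, h v • y = h' v • y' := fun v => congrArg (fun T : Y →L[ℂ] Y => T v) e
  by_cases hy : y = 0
  · subst hy
    have h2 := e1 (S y')
    rw [smul_zero] at h2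
    rcases smul_eq_zero.1 h2.symm with h3 | h3
    · rw [h3, map_zero, map_zero]
    · rw [h3, map_zero, map_zero, map_zero]
  · obtain ⟨φ, hφ⟩ := exists_eq_one hy
    have e2 : ∀ v, h v = h' v * φ y' := by
      intro v
      have := congrArg φ (e1 v)
      simpa [hφ] using this
    by_cases hh : h' = 0
    · rw [e2, hh]; simp
    · obtain ⟨v, hv⟩ : ∃ v, h' v ≠ 0 := by
        by_contra hcon
        push Not at hcon
        exact hh (ContinuousLinearMap.ext hcon)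
      have e3 : y' = φ y' • y := by
        have h4 := e1 v
        rw [e2, mul_smul] at h4
        exact (smul_right_injective Y hv h4).symm
      rw [e2, e3]
      simp only [map_smul, smul_eq_mul, hφ, mul_one]
      ring

/-- A line of idempotents through a rank-one idempotent. -/
lemma rk_idem_cases {h : Y →L[ℂ] ℂ} {y : Y} (hy : h y = 1) {N : Y →L[ℂ] Y}
    (hN : ∀ t : ℂ, (rk h y + t • N) * (rk h y + t • N) = rk h y + t • N) :
    (∃ w, N = rk h w) ∨ ∃ k, N = rk k y := by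
  have hy0 : y ≠ 0 := by
    rintro rfl
    simp at hy
  have hP : rk h y * rk h y = rk h y := by
    have := hN 0
    simpa using this
  have e1 := hN 1
  have e2 := hN (-1)
  have e3 : N * N = 0 := by
    have h1 : rk h y * N + N * rk h y + N * N = N := by
      have h5 : (rk h y + (1 : ℂ) • N) * (rk h y + (1 : ℂ) • N)
          = rk h y * rk h y + (rk h y * N + N * rk h y + N * N) := by
        rw [one_smul]; noncomm_ring
      rw [h5, hP, one_smul] at e1
      exact add_left_cancel e1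
    have h2 : -(rk h y * N) - N * rk h y + N * N = -N := by
      have h5 : (rk h y + (-1 : ℂ) • N) * (rk h y + (-1 : ℂ) • N)
          = rk h y * rk h y + (-(rk h y * N) - N * rk h y + N * N) := by
        rw [neg_smul, one_smul]; noncomm_ring
      rw [h5, hP, neg_smul, one_smul] at e2
      exact add_left_cancel e2
    have h3 : (2 : ℂ) • (N * N) = 0 := by
      calc (2 : ℂ) • (N * N) = (rk h y * N + N * rk h y + N * N)
            + (-(rk h y * N) - N * rk h y + N * N) := by rw [two_smul]; abel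
        _ = 0 := by rw [h1, h2]; abel
    exact (smul_eq_zero.1 h3).resolve_left two_ne_zero
  have e4 : rk h y * N + N * rk h y = N := by
    have h5 : (rk h y + (1 : ℂ) • N) * (rk h y + (1 : ℂ) • N)
        = rk h y * rk h y + (rk h y * N + N * rk h y + N * N) := by
      rw [one_smul]; noncomm_ring
    rw [h5, hP, one_smul, e3, add_zero] at e1
    exact add_left_cancel e1
  have E1 : ∀ v, h (N v) • y + h v • N y = N v := by
    intro v
    have := congrArg (fun T : Y →L[ℂ] Y => T v) e4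
    simpa using this
  have E2 : ∀ v, N (N v) = 0 := by
    intro v
    exact congrArg (fun T : Y →L[ℂ] Y => T v) e3
  have E3 : ∀ v, h (N v) • N y = 0 := by
    intro v
    have h1 := congrArg N (E1 v)
    rw [map_add, map_smul, map_smul, E2, E2, smul_zero, add_zero] at h1
    exact h1
  by_cases hw : N y = 0
  · right
    refine ⟨h.comp N, ?_⟩
    ext v
    have := E1 v
    rw [hw, smul_zero, add_zero] at this
    simp [this]
  · left
    refine ⟨N y, ?_⟩
    ext v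
    have h1 : h (N v) = 0 := (smul_eq_zero.1 (E3 v)).resolve_right hw
    have := E1 v
    rw [h1, zero_smul, zero_add] at this
    simp [this]

end Algebra

section Main

variable {X Y : Type*} [NormedAddCommGroup X] [NormedSpace ℂ X]
  [NormedAddCommGroup Y] [NormedSpace ℂ Y] {τ : ℂ →+* ℂ}
  {Φ : (X →L[ℂ] X) → (Y →L[ℂ] Y)}

/-- Additive, `τ`-linear, mapping rank-one idempotents to rank-one idempotents. -/
structure Good (τ : ℂ →+* ℂ) (Φ : (X →L[ℂ] X) → (Y →L[ℂ] Y)) : Prop where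
  add : ∀ S T, Φ (S + T) = Φ S + Φ T
  smul : ∀ (c : ℂ) T, Φ (c • T) = τ c • Φ T
  corr : ∀ x f, f x = 1 → ∃ y h, Corr τ Φ x f y h

lemma Good.zero (hΦ : Good τ Φ) : Φ 0 = 0 := by
  have := hΦ.smul 0 0
  simpa using this

lemma Good.sub (hΦ : Good τ Φ) (S T : X →L[ℂ] X) : Φ (S - T) = Φ S - Φ T := by
  have h1 := hΦ.add (S - T) T
  rw [sub_add_cancel] at h1
  rw [h1, add_sub_cancel_right]

lemma Good.idem (hΦ : Good τ Φ) {x : X} {f : X →L[ℂ] ℂ} (hfx : f x = 1) :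
    Φ (rk f x) * Φ (rk f x) = Φ (rk f x) := by
  obtain ⟨y, h, hc⟩ := hΦ.corr x f hfx
  rw [hc.map]
  ext v
  simp [hc.one]

variable [RingHomInvPair τ τ]

lemma tau_tau (c : ℂ) : τ (τ c) = c := by
  simp

lemma Good.casesL0 (hΦ : Good τ Φ) {x : X} {f : X →L[ℂ] ℂ} {y : Y} {h : Y →L[ℂ] ℂ}
    (hfx : f x = 1) (hy : h y = 1) (hm : Φ (rk f x) = rk h y) {z : X} (hz : f z = 0) :
    (∃ w, Φ (rk f z) = rk h w) ∨ ∃ k, Φ (rk f z) = rk k y := by
  apply rk_idem_cases hy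
  intro t
  have h1 : rk h y + t • Φ (rk f z) = Φ (rk f (x + τ t • z)) := by
    rw [rk_add_right, rk_smul_right, hΦ.add, hΦ.smul, tau_tau, hm]
  rw [h1]
  apply hΦ.idem
  simp [hfx, hz]

lemma Good.casesR0 (hΦ : Good τ Φ) {x : X} {f : X →L[ℂ] ℂ} {y : Y} {h : Y →L[ℂ] ℂ}
    (hfx : f x = 1) (hy : h y = 1) (hm : Φ (rk f x) = rk h y) {g : X →L[ℂ] ℂ} (hg : g x = 0) :
    (∃ w, Φ (rk g x) = rk h w) ∨ ∃ k, Φ (rk g x) = rk k y := by
  apply rk_idem_cases hy
  intro t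
  have h1 : rk h y + t • Φ (rk g x) = Φ (rk (f + τ t • g) x) := by
    rw [rk_add_left, rk_smul_left, hΦ.add, hΦ.smul, tau_tau, hm]
  rw [h1]
  apply hΦ.idem
  simp [hfx, hg]

lemma Good.casesL (hΦ : Good τ Φ) {x : X} {f : X →L[ℂ] ℂ} {y : Y} {h : Y →L[ℂ] ℂ}
    (hfx : f x = 1) (hy : h y = 1) (hm : Φ (rk f x) = rk h y) (z : X) :
    (∃ w, Φ (rk f z) = rk h w) ∨ ∃ k, Φ (rk f z) = rk k y := by
  have h1 : rk f z = f z • rk f x + rk f (z - f z • x) := by
    rw [rk_sub_right, rk_smul_right]; abel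
  have h2 : f (z - f z • x) = 0 := by simp [hfx]
  rw [h1, hΦ.add, hΦ.smul, hm]
  rcases hΦ.casesL0 hfx hy hm h2 with ⟨w, hw⟩ | ⟨k, hk⟩
  · left
    exact ⟨τ (f z) • y + w, by rw [hw, rk_add_right, rk_smul_right]⟩
  · right
    exact ⟨τ (f z) • h + k, by rw [hk, rk_add_left, rk_smul_left]⟩

lemma Good.casesR (hΦ : Good τ Φ) {x : X} {f : X →L[ℂ] ℂ} {y : Y} {h : Y →L[ℂ] ℂ}
    (hfx : f x = 1) (hy : h y = 1) (hm : Φ (rk f x) = rk h y) (g : X →L[ℂ] ℂ) :
    (∃ w, Φ (rk g x) = rk h w) ∨ ∃ k, Φ (rk g x) = rk k y := by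
  have h1 : rk g x = g x • rk f x + rk (g - g x • f) x := by
    rw [rk_sub_left, rk_smul_left]; abel
  have h2 : (g - g x • f) x = 0 := by simp [hfx]
  rw [h1, hΦ.add, hΦ.smul, hm]
  rcases hΦ.casesR0 hfx hy hm h2 with ⟨w, hw⟩ | ⟨k, hk⟩
  · left
    exact ⟨τ (g x) • y + w, by rw [hw, rk_add_right, rk_smul_right]⟩
  · right
    exact ⟨τ (g x) • h + k, by rw [hk, rk_add_left, rk_smul_left]⟩

/-- The dichotomy for `{f ⊗ z : z}`. -/
lemma Good.dichL (hΦ : Good τ Φ) {x : X} {f : X →L[ℂ] ℂ} {y : Y} {h : Y →L[ℂ] ℂ}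
    (hfx : f x = 1) (hy : h y = 1) (hm : Φ (rk f x) = rk h y) :
    (∀ z, ∃ w, Φ (rk f z) = rk h w) ∨ ∀ z, ∃ k, Φ (rk f z) = rk k y := by
  by_contra hcon
  push Not at hcon
  obtain ⟨⟨z1, h1⟩, z2, h2⟩ := hcon
  obtain ⟨k1, hk1⟩ := (hΦ.casesL hfx hy hm z1).resolve_left (fun ⟨w, hw⟩ => h1 w hw)
  obtain ⟨w2, hw2⟩ := (hΦ.casesL hfx hy hm z2).resolve_right (fun ⟨w, hw⟩ => h2 w hw)
  rcases hΦ.casesL hfx hy hm (z1 + z2) with ⟨w, hw⟩ | ⟨k, hk⟩
  · apply h1 (w - w2)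
    rw [rk_sub_right, ← hw, ← hw2, ← hΦ.sub, ← rk_sub_right, add_sub_cancel_right]
  · apply h2 (k - k1)
    rw [rk_sub_left, ← hk, ← hk1, ← hΦ.sub, ← rk_sub_right, add_sub_cancel_left]

/-- The dichotomy for `{g ⊗ x : g}`. -/
lemma Good.dichR (hΦ : Good τ Φ) {x : X} {f : X →L[ℂ] ℂ} {y : Y} {h : Y →L[ℂ] ℂ}
    (hfx : f x = 1) (hy : h y = 1) (hm : Φ (rk f x) = rk h y) :
    (∀ g, ∃ w, Φ (rk g x) = rk h w) ∨ ∀ g, ∃ k, Φ (rk g x) = rk k y := by
  by_contra hcon
  push Not at hcon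
  obtain ⟨⟨z1, h1⟩, z2, h2⟩ := hcon
  obtain ⟨k1, hk1⟩ := (hΦ.casesR hfx hy hm z1).resolve_left (fun ⟨w, hw⟩ => h1 w hw)
  obtain ⟨w2, hw2⟩ := (hΦ.casesR hfx hy hm z2).resolve_right (fun ⟨w, hw⟩ => h2 w hw)
  rcases hΦ.casesR hfx hy hm (z1 + z2) with ⟨w, hw⟩ | ⟨k, hk⟩
  · apply h1 (w - w2)
    rw [rk_sub_right, ← hw, ← hw2, ← hΦ.sub, ← rk_sub_left, add_sub_cancel_right]
  · apply h2 (k - k1)
    rw [rk_sub_left, ← hk, ← hk1, ← hΦ.sub, ← rk_sub_left, add_sub_cancel_left]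

/-- Every rank-one operator is mapped to a rank-one operator, compatibly with the trace form. -/
lemma Good.exists_rk (hΦ : Good τ Φ) (f : X →L[ℂ] ℂ) (x : X) :
    ∃ h y, Φ (rk f x) = rk h y ∧ ∀ T, h (Φ T y) = τ (f (T x)) := by
  by_cases hfx : f x = 0
  · by_cases hf : f = 0
    · refine ⟨0, 0, ?_, ?_⟩
      · have h1 : rk f x = 0 := by ext v; simp [hf]
        have h2 : rk (0 : Y →L[ℂ] ℂ) 0 = 0 := by ext v; simp
        rw [h1, h2, hΦ.zero]
      · intro T; simp [hf]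
    · obtain ⟨z, hz⟩ : ∃ z, f z = 1 := by
        obtain ⟨v, hv⟩ : ∃ v, f v ≠ 0 := by
          by_contra hcon
          push Not at hcon
          exact hf (ContinuousLinearMap.ext hcon)
        exact ⟨(f v)⁻¹ • v, by simp [hv]⟩
      obtain ⟨y2, h2, hc2⟩ := hΦ.corr z f hz
      obtain ⟨y1, h1, hc1⟩ := hΦ.corr (x + z) f (by simp [hfx, hz])
      have hsum : Φ (rk f x) + rk h2 y2 = rk h1 y1 := by
        rw [← hc1.map, ← hc2.map, ← hΦ.add, ← rk_add_right]
      rcases hΦ.casesL0 hz hc2.one hc2.map hfx with ⟨w, hw⟩ | ⟨k, hk⟩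
      · refine ⟨h2, w, hw, fun T => ?_⟩
        rw [hw, ← rk_add_right] at hsum
        have h3 := trace_eq hsum (Φ T)
        rw [hc1.pair, map_add, map_add, hc2.pair, map_add, map_add, map_add] at h3
        exact add_right_cancel h3
      · refine ⟨k, y2, hk, fun T => ?_⟩
        rw [hk, ← rk_add_left] at hsum
        have h3 := trace_eq hsum (Φ T)
        rw [hc1.pair, add_apply, hc2.pair, map_add, map_add, map_add] at h3
        exact add_right_cancel h3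
  · obtain ⟨y, h, hc⟩ := hΦ.corr ((f x)⁻¹ • x) f (by simp [hfx])
    refine ⟨h, τ (f x) • y, ?_, fun T => ?_⟩
    · rw [rk_smul_right, ← hc.map, ← hΦ.smul, ← rk_smul_right, smul_smul, mul_inv_cancel₀ hfx,
        one_smul]
    · rw [map_smul, map_smul, hc.pair, map_smul, map_smul, smul_eq_mul, smul_eq_mul, ← map_mul,
        ← mul_assoc, mul_inv_cancel₀ hfx, one_mul]

lemma Good.pair_all (hΦ : Good τ Φ) {f : X →L[ℂ] ℂ} {x : X} {h : Y →L[ℂ] ℂ} {y : Y}
    (hm : Φ (rk f x) = rk h y) (T : X →L[ℂ] X) : h (Φ T y) = τ (f (T x)) := by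
  obtain ⟨h', y', h1, h2⟩ := hΦ.exists_rk f x
  rw [← h2 T]
  exact trace_eq (hm.symm.trans h1) (Φ T)

/-- Rank-one operators satisfy `h₀(W y₀) W v = h₀(W v) W y₀`. -/
lemma rk_swap (h : Y →L[ℂ] ℂ) (y : Y) (h0 : Y →L[ℂ] ℂ) (y0 v : Y) :
    h0 (rk h y y0) • rk h y v = h0 (rk h y v) • rk h y y0 := by
  simp only [rk_apply, map_smul, smul_smul, smul_eq_mul]
  congr 1; ring

variable {Ψ : (Y →L[ℂ] Y) → (X →L[ℂ] X)}

/-- The inverse of a good bijection is good. -/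
lemma Good.inv (hΦ : Good τ Φ) (hl : Function.LeftInverse Ψ Φ) (hr : Function.RightInverse Ψ Φ)
    (h2 : ∀ y h, h y = 1 → ∃ x f, f x = 1 ∧ Corr τ Φ x f y h) : Good τ Ψ := by
  refine ⟨fun S T => ?_, fun c T => ?_, fun y h hy => ?_⟩
  · rw [← hl (Ψ S + Ψ T), hΦ.add, hr, hr]
  · rw [← hl (τ c • Ψ T), hΦ.smul, hr, tau_tau]
  · obtain ⟨x, f, hfx, hc⟩ := h2 y h hy
    refine ⟨x, f, hfx, ?_, fun S => ?_⟩
    · rw [← hc.map, hl]
    · have h3 := hc.pair (Ψ S)
      rw [hr] at h3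
      rw [h3, tau_tau]

end Main

section Closed

variable {E Y : Type*} [NormedAddCommGroup E] [NormedSpace ℂ E] [CompleteSpace E]
  [NormedAddCommGroup Y] [NormedSpace ℂ Y] [CompleteSpace Y] {τ : ℂ →+* ℂ}
  [RingHomInvPair τ τ] [RingHomIsometric τ]

omit [RingHomInvPair τ τ] in
lemma tau_continuous : Continuous (τ : ℂ → ℂ) :=
  (AddMonoidHomClass.isometry_of_norm τ (fun _ => RingHomIsometric.norm_map)).continuous

omit [RingHomInvPair τ τ] in
lemma tau_real (r : ℝ) : τ (r : ℂ) = r := by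
  have hcont : Continuous (τ : ℂ → ℂ) := tau_continuous
  let g : ℝ →+ ℂ := τ.toAddMonoidHom.comp (Complex.ofRealHom.toAddMonoidHom)
  have hg : Continuous g := hcont.comp Complex.continuous_ofReal
  have h1 := map_real_smul g hg r 1
  have h2 : g 1 = 1 := by simp [g]
  have h3 : g (r • (1 : ℝ)) = τ (r : ℂ) := by simp [g]
  rw [h3, h2] at h1
  rw [h1]; simp

/-- A bijective semilinear map which is continuous after composing with functionals is a
homeomorphism. -/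
lemma equiv_of_sep (A : E →ₛₗ[τ] Y) (hA : Function.Bijective A)
    (hsep : ∀ k : Y →L[ℂ] ℂ, Continuous fun z => k (A z)) :
    ∃ A' : E ≃SL[τ] Y, ∀ z, A' z = A z := by
  let AR : E →ₗ[ℝ] Y :=
    { toFun := A
      map_add' := A.map_add
      map_smul' := fun r x => by
        rw [RCLike.real_smul_eq_coe_smul (K := ℂ), A.map_smulₛₗ, RingHom.id_apply,
          RCLike.real_smul_eq_coe_smul (K := ℂ) r (A x)]
        congr 1
        exact tau_real r }
  have hcont : Continuous AR := by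
    apply LinearMap.continuous_of_seq_closed_graph
    intro u x y hu hAu
    rw [SeparatingDual.eq_iff_forall_dual_eq (R := ℂ)]
    intro k
    have h1 : Tendsto (fun n => k (A (u n))) atTop (𝓝 (k (A x))) :=
      ((hsep k).tendsto x).comp hu
    have h2 : Tendsto (fun n => k (A (u n))) atTop (𝓝 (k y)) :=
      (k.continuous.tendsto y).comp hAu
    exact tendsto_nhds_unique h2 h1
  have hcont' : Continuous A := hcont
  exact ⟨(LinearEquiv.ofBijective A hA).toContinuousLinearEquivOfContinuous hcont', fun z => rfl⟩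

end Closed

section Structure

variable {X Y : Type*} [NormedAddCommGroup X] [NormedSpace ℂ X]
  [NormedAddCommGroup Y] [NormedSpace ℂ Y] {τ : ℂ →+* ℂ}
  {Φ : (X →L[ℂ] X) → (Y →L[ℂ] Y)} {Ψ : (Y →L[ℂ] Y) → (X →L[ℂ] X)}

lemma rk_core {h c h0 : Y →L[ℂ] ℂ} {y a y0 : Y} {W : Y →L[ℂ] Y} {α β : ℂ} (hW : W = rk h y)
    (h1 : W y0 = α • a) (h2 : ∀ v, h0 (W v) = β * c v) (h3 : h0 a = β) (hα : α ≠ 0)
    (hβ : β ≠ 0) : W = rk c a := by
  ext v
  have h4 : h0 (W y0) • W v = h0 (W v) • W y0 := by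
    rw [hW]; exact rk_swap h y h0 y0 v
  rw [h1, h2, map_smul, h3, smul_eq_mul, smul_smul] at h4
  have h5 : (α * β) • W v = (α * β) • (c v • a) := by
    rw [h4, smul_smul]; congr 1; ring
  exact smul_right_injective Y (mul_ne_zero hα hβ) h5

lemma biadd_ext {U V Z : Type*} [AddCommGroup U] [AddCommGroup V] [AddCommGroup Z]
    {F G : U → V → Z} (hF1 : ∀ u u' v, F (u + u') v = F u v + F u' v)
    (hF2 : ∀ u v v', F u (v + v') = F u v + F u v')
    (hG1 : ∀ u u' v, G (u + u') v = G u v + G u' v)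
    (hG2 : ∀ u v v', G u (v + v') = G u v + G u v') {p : U → ℂ} {q : V → ℂ}
    (hp : ∀ u u', p (u + u') = p u + p u') (hq : ∀ v v', q (v + v') = q v + q v')
    {u0 : U} {v0 : V} (hu0 : p u0 = 1) (hv0 : q v0 = 1)
    (h : ∀ u v, p u ≠ 0 → q v ≠ 0 → F u v = G u v) (u : U) (v : V) : F u v = G u v := by
  have h1 : ∀ u, p u ≠ 0 → ∀ v, F u v = G u v := by
    intro u hu v
    by_cases hv : q v = 0
    · have e1 := h u (v + v0) hu (by rw [hq, hv, hv0]; simp)
      have e2 := h u v0 hu (by rw [hv0]; simp)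
      rw [hF2, hG2, e2] at e1
      exact add_right_cancel e1
    · exact h u v hu hv
  by_cases hu : p u = 0
  · have e1 := h1 (u + u0) (by rw [hp, hu, hu0]; simp) v
    have e2 := h1 u0 (by rw [hu0]; simp) v
    rw [hF1, hG1, e2] at e1
    exact add_right_cancel e1
  · exact h1 u hu v

variable [RingHomInvPair τ τ]

/-- The two possible shapes. -/
lemma Good.shape (hΦ : Good τ Φ) (hΨ : Good τ Ψ) (hl : Function.LeftInverse Ψ Φ)
    (hr : Function.RightInverse Ψ Φ) {x0 : X} {f0 : X →L[ℂ] ℂ} {y0 : Y} {h0 : Y →L[ℂ] ℂ}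
    (hfx : f0 x0 = 1) (hy : h0 y0 = 1) (hm : Φ (rk f0 x0) = rk h0 y0) :
    ((∀ z, ∃ w, Φ (rk f0 z) = rk h0 w) ∧ (∀ g, ∃ k, Φ (rk g x0) = rk k y0) ∧
      (∀ w, ∃ z, Ψ (rk h0 w) = rk f0 z) ∧ (∀ k, ∃ g, Ψ (rk k y0) = rk g x0)) ∨
    ((∀ z, ∃ k, Φ (rk f0 z) = rk k y0) ∧ (∀ g, ∃ w, Φ (rk g x0) = rk h0 w) ∧
      (∀ k, ∃ z, Ψ (rk k y0) = rk f0 z) ∧ (∀ w, ∃ g, Ψ (rk h0 w) = rk g x0)) := by
  have hm' : Ψ (rk h0 y0) = rk f0 x0 := by rw [← hm, hl]
  by_cases hdim : ∀ z, z = f0 z • x0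
  · left
    have hX : ∀ T : X →L[ℂ] X, T = f0 (T x0) • rk f0 x0 := by
      intro T
      ext v
      conv_lhs => rw [hdim v, map_smul, hdim (T x0)]
      simp only [smul_apply, rk_apply, smul_smul]
      rw [mul_comm]
    have hY : ∀ M : Y →L[ℂ] Y, ∃ c : ℂ, M = c • rk h0 y0 := by
      intro M
      refine ⟨τ (f0 (Ψ M x0)), ?_⟩
      rw [← hm, ← hΦ.smul, ← hX, hr]
    refine ⟨fun z => ?_, fun g => ?_, fun w => ?_, fun k => ?_⟩
    · obtain ⟨c, hc⟩ := hY (Φ (rk f0 z))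
      exact ⟨c • y0, by rw [hc, rk_smul_right]⟩
    · obtain ⟨c, hc⟩ := hY (Φ (rk g x0))
      exact ⟨c • h0, by rw [hc, rk_smul_left]⟩
    · exact ⟨_, by rw [rk_smul_right]; exact hX _⟩
    · exact ⟨_, by rw [rk_smul_left]; exact hX _⟩
  · push Not at hdim
    obtain ⟨z1, hz1⟩ := hdim
    have hx0 : x0 ≠ 0 := by
      rintro rfl
      simp at hfx
    have n1 : ∀ g, rk f0 z1 ≠ rk g x0 := by
      intro g hg
      have e1 : f0 x0 • z1 = g x0 • x0 := congrArg (fun T : X →L[ℂ] X => T x0) hg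
      rw [hfx, one_smul] at e1
      apply hz1
      have e2 := congrArg f0 e1
      rw [map_smul, hfx, smul_eq_mul, mul_one] at e2
      rw [e2, ← e1]
    obtain ⟨g1, n2⟩ : ∃ g1, ∀ w, rk g1 x0 ≠ rk f0 w := by
      obtain ⟨g, hg⟩ := exists_eq_one (sub_ne_zero.2 hz1)
      refine ⟨g, fun w hw => ?_⟩
      have e1 : g (z1 - f0 z1 • x0) • x0 = f0 (z1 - f0 z1 • x0) • w :=
        congrArg (fun T : X →L[ℂ] X => T (z1 - f0 z1 • x0)) hw
      rw [hg, one_smul] at e1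
      have e2 : f0 (z1 - f0 z1 • x0) = 0 := by simp [hfx]
      rw [e2, zero_smul] at e1
      exact hx0 e1
    rcases hΦ.dichL hfx hy hm with hL | hL
    · left
      have hL' : ∀ w, ∃ z, Ψ (rk h0 w) = rk f0 z := by
        refine (hΨ.dichL hy hfx hm').resolve_right fun hcon => ?_
        obtain ⟨w, hw⟩ := hL z1
        obtain ⟨g, hg⟩ := hcon w
        rw [← hw, hl] at hg
        exact n1 g hg
      have hR : ∀ g, ∃ k, Φ (rk g x0) = rk k y0 := by
        refine (hΦ.dichR hfx hy hm).resolve_left fun hcon => ?_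
        obtain ⟨w, hw⟩ := hcon g1
        obtain ⟨z, hz⟩ := hL' w
        rw [← hw, hl] at hz
        exact n2 z hz
      have hR' : ∀ k, ∃ g, Ψ (rk k y0) = rk g x0 := by
        refine (hΨ.dichR hy hfx hm').resolve_left fun hcon => ?_
        obtain ⟨k, hk⟩ := hR g1
        obtain ⟨z, hz⟩ := hcon k
        rw [← hk, hl] at hz
        exact n2 z hz
      exact ⟨hL, hR, hL', hR'⟩
    · right
      have hR' : ∀ k, ∃ z, Ψ (rk k y0) = rk f0 z := by
        refine (hΨ.dichR hy hfx hm').resolve_right fun hcon => ?_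
        obtain ⟨k, hk⟩ := hL z1
        obtain ⟨g, hg⟩ := hcon k
        rw [← hk, hl] at hg
        exact n1 g hg
      have hR : ∀ g, ∃ w, Φ (rk g x0) = rk h0 w := by
        refine (hΦ.dichR hfx hy hm).resolve_right fun hcon => ?_
        obtain ⟨k, hk⟩ := hcon g1
        obtain ⟨z, hz⟩ := hR' k
        rw [← hk, hl] at hz
        exact n2 z hz
      have hL' : ∀ w, ∃ g, Ψ (rk h0 w) = rk g x0 := by
        refine (hΨ.dichL hy hfx hm').resolve_left fun hcon => ?_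
        obtain ⟨w, hw⟩ := hR g1
        obtain ⟨z, hz⟩ := hcon w
        rw [← hw, hl] at hz
        exact n2 z hz
      exact ⟨hL, hR, hR', hL'⟩

lemma tau_ne_zero {c : ℂ} (hc : c ≠ 0) : τ c ≠ 0 := by
  intro h
  apply hc
  rw [← tau_tau (τ := τ) c, h, map_zero]

variable [CompleteSpace X] [CompleteSpace Y] [RingHomIsometric τ]

/-- Case I. -/
lemma Good.caseI (hΦ : Good τ Φ) (hr : Function.RightInverse Ψ Φ) {x0 : X} {f0 : X →L[ℂ] ℂ}
    {y0 : Y} {h0 : Y →L[ℂ] ℂ} (hfx : f0 x0 = 1) (hy : h0 y0 = 1) (hm : Φ (rk f0 x0) = rk h0 y0)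
    (hL : ∀ z, ∃ w, Φ (rk f0 z) = rk h0 w) (hR : ∀ g, ∃ k, Φ (rk g x0) = rk k y0)
    (hL' : ∀ w, ∃ z, Ψ (rk h0 w) = rk f0 z) (hR' : ∀ k, ∃ g, Ψ (rk k y0) = rk g x0) :
    ∃ A : X ≃SL[τ] Y, ∀ T x, Φ T (A x) = A (T x) := by
  let A : X →ₛₗ[τ] Y :=
    { toFun := fun x => Φ (rk f0 x) y0
      map_add' := fun x x' => by rw [rk_add_right, hΦ.add, add_apply]
      map_smul' := fun c x => by rw [rk_smul_right, hΦ.smul, smul_apply] }
  let C : (X →L[ℂ] ℂ) → (Y →L[ℂ] ℂ) := fun g => h0.comp (Φ (rk g x0))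
  have hA : ∀ x, Φ (rk f0 x) = rk h0 (A x) := by
    intro x
    obtain ⟨w, hw⟩ := hL x
    have h1 : A x = w := by
      change Φ (rk f0 x) y0 = w
      rw [hw, rk_apply, hy, one_smul]
    rw [hw, h1]
  have hC : ∀ g, Φ (rk g x0) = rk (C g) y0 := by
    intro g
    obtain ⟨k, hk⟩ := hR g
    have h1 : C g = k := by
      ext v
      change h0 (Φ (rk g x0) v) = k v
      rw [hk, rk_apply, map_smul, hy, smul_eq_mul, mul_one]
    rw [hk, h1]
  have hAs : Function.Surjective A := by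
    intro w
    obtain ⟨z, hz⟩ := hL' w
    refine ⟨z, ?_⟩
    change Φ (rk f0 z) y0 = w
    rw [← hz, hr, rk_apply, hy, one_smul]
  have hCs : Function.Surjective C := by
    intro k
    obtain ⟨g, hg⟩ := hR' k
    refine ⟨g, ?_⟩
    ext v
    change h0 (Φ (rk g x0) v) = k v
    rw [← hg, hr, rk_apply, map_smul, hy, smul_eq_mul, mul_one]
  have P3 : ∀ k z, C k (A z) = τ (k z) := by
    intro k z
    have h1 := hΦ.pair_all (hA z) (rk k x0)
    rw [rk_apply, map_smul, hfx, smul_eq_mul, mul_one] at h1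
    exact h1
  have hsep : ∀ {a b : Y}, (∀ k, C k a = C k b) → a = b := by
    intro a b hab
    rw [SeparatingDual.eq_iff_forall_dual_eq (R := ℂ)]
    intro k
    obtain ⟨g, rfl⟩ := hCs k
    exact hab g
  have h0A : ∀ z, h0 (A z) = τ (f0 z) := by
    intro z
    have h1 := hΦ.pair_all (hA z) (rk f0 x0)
    rw [hm] at h1
    simp only [rk_apply, map_smul, smul_eq_mul, hy, mul_one, hfx] at h1
    exact h1
  have hW : ∀ k z, Φ (rk k z) = rk (C k) (A z) := by
    refine biadd_ext (p := fun k : X →L[ℂ] ℂ => k x0) (q := fun z : X => f0 z) (u0 := f0)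
      (v0 := x0) ?_ ?_ ?_ ?_ ?_ ?_ hfx hfx ?_
    · intro u u' v; rw [rk_add_left, hΦ.add]
    · intro u v v'; rw [rk_add_right, hΦ.add]
    · intro u u' v
      have : C (u + u') = C u + C u' := by
        ext v
        change h0 (Φ (rk (u + u') x0) v) = h0 (Φ (rk u x0) v) + h0 (Φ (rk u' x0) v)
        rw [rk_add_left, hΦ.add, add_apply, map_add]
      rw [this, rk_add_left]
    · intro u v v'; rw [map_add, rk_add_right]
    · intro u u'; rfl
    · intro v v'; exact map_add _ _ _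
    · intro k z hk hz
      obtain ⟨h, y, hhy, -⟩ := hΦ.exists_rk k z
      refine rk_core hhy (y0 := y0) (α := τ (k x0)) (β := τ (f0 z)) (h0 := h0) ?_ ?_ (h0A z)
        (tau_ne_zero hk) (tau_ne_zero hz)
      · apply hsep
        intro k'
        rw [hΦ.pair_all (hC k') (rk k z), rk_apply, map_smul, smul_eq_mul,
          map_mul, map_smul, P3, smul_eq_mul]
      · intro v
        obtain ⟨z', rfl⟩ := hAs v
        rw [hΦ.pair_all (hA z') (rk k z), rk_apply, map_smul, smul_eq_mul, map_mul, P3, mul_comm]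
  have hfin : ∀ T z, Φ T (A z) = A (T z) := by
    intro T z
    apply hsep
    intro k
    rw [hΦ.pair_all (hW k z) T, P3]
  have hAi : Function.Injective A := by
    intro z z' hzz
    rw [SeparatingDual.eq_iff_forall_dual_eq (R := ℂ)]
    intro k
    have h1 : τ (k z) = τ (k z') := by rw [← P3, ← P3, hzz]
    rw [← tau_tau (τ := τ) (k z), h1, tau_tau]
  obtain ⟨A', hA'⟩ := equiv_of_sep A ⟨hAi, hAs⟩ (by
    intro k
    obtain ⟨g, rfl⟩ := hCs k
    have : (fun z => C g (A z)) = fun z => τ (g z) := funext fun z => P3 g z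
    rw [this]
    exact tau_continuous.comp g.continuous)
  exact ⟨A', fun T x => by rw [hA', hA', hfin]⟩

/-- Case II. -/
lemma Good.caseII (hΦ : Good τ Φ) (hr : Function.RightInverse Ψ Φ) {x0 : X} {f0 : X →L[ℂ] ℂ}
    {y0 : Y} {h0 : Y →L[ℂ] ℂ} (hfx : f0 x0 = 1) (hy : h0 y0 = 1) (hm : Φ (rk f0 x0) = rk h0 y0)
    (hL : ∀ z, ∃ k, Φ (rk f0 z) = rk k y0) (hR : ∀ g, ∃ w, Φ (rk g x0) = rk h0 w)
    (hL' : ∀ k, ∃ z, Ψ (rk k y0) = rk f0 z) (hR' : ∀ w, ∃ g, Ψ (rk h0 w) = rk g x0) :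
    ∃ A : (X →L[ℂ] ℂ) ≃SL[τ] Y, ∀ T (f : X →L[ℂ] ℂ), Φ T (A f) = A (f.comp T) := by
  let C : (X →L[ℂ] ℂ) →ₛₗ[τ] Y :=
    { toFun := fun f => Φ (rk f x0) y0
      map_add' := fun x x' => by rw [rk_add_left, hΦ.add, add_apply]
      map_smul' := fun c x => by rw [rk_smul_left, hΦ.smul, smul_apply] }
  let A : X → (Y →L[ℂ] ℂ) := fun x => h0.comp (Φ (rk f0 x))
  have hC : ∀ f, Φ (rk f x0) = rk h0 (C f) := by
    intro f
    obtain ⟨w, hw⟩ := hR f
    have h1 : C f = w := by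
      change Φ (rk f x0) y0 = w
      rw [hw, rk_apply, hy, one_smul]
    rw [hw, h1]
  have hA : ∀ x, Φ (rk f0 x) = rk (A x) y0 := by
    intro x
    obtain ⟨k, hk⟩ := hL x
    have h1 : A x = k := by
      ext v
      change h0 (Φ (rk f0 x) v) = k v
      rw [hk, rk_apply, map_smul, hy, smul_eq_mul, mul_one]
    rw [hk, h1]
  have hCs : Function.Surjective C := by
    intro w
    obtain ⟨g, hg⟩ := hR' w
    refine ⟨g, ?_⟩
    change Φ (rk g x0) y0 = w
    rw [← hg, hr, rk_apply, hy, one_smul]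
  have hAs : Function.Surjective A := by
    intro k
    obtain ⟨z, hz⟩ := hL' k
    refine ⟨z, ?_⟩
    ext v
    change h0 (Φ (rk f0 z) v) = k v
    rw [← hz, hr, rk_apply, map_smul, hy, smul_eq_mul, mul_one]
  have P3 : ∀ x f, A x (C f) = τ (f x) := by
    intro x f
    have h1 := hΦ.pair_all (hA x) (rk f x0)
    rw [rk_apply, map_smul, hfx, smul_eq_mul, mul_one] at h1
    exact h1
  have hsep : ∀ {a b : Y}, (∀ x, A x a = A x b) → a = b := by
    intro a b hab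
    rw [SeparatingDual.eq_iff_forall_dual_eq (R := ℂ)]
    intro k
    obtain ⟨g, rfl⟩ := hAs k
    exact hab g
  have h0C : ∀ f, h0 (C f) = τ (f x0) := by
    intro f
    have h1 := hΦ.pair_all (hC f) (rk f0 x0)
    rw [hm] at h1
    simp only [rk_apply, map_smul, smul_eq_mul, hy, mul_one, hfx, one_mul] at h1
    exact h1
  have hW : ∀ f x, Φ (rk f x) = rk (A x) (C f) := by
    refine biadd_ext (p := fun k : X →L[ℂ] ℂ => k x0) (q := fun z : X => f0 z) (u0 := f0)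
      (v0 := x0) ?_ ?_ ?_ ?_ ?_ ?_ hfx hfx ?_
    · intro u u' v; rw [rk_add_left, hΦ.add]
    · intro u v v'; rw [rk_add_right, hΦ.add]
    · intro u u' v; rw [map_add, rk_add_right]
    · intro v u u'
      have : A (u + u') = A u + A u' := by
        ext v
        change h0 (Φ (rk f0 (u + u')) v) = h0 (Φ (rk f0 u) v) + h0 (Φ (rk f0 u') v)
        rw [rk_add_right, hΦ.add, add_apply, map_add]
      rw [this, rk_add_left]
    · intro u u'; rfl
    · intro v v'; exact map_add _ _ _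
    · intro f x hf hx
      obtain ⟨h, y, hhy, -⟩ := hΦ.exists_rk f x
      refine rk_core hhy (y0 := y0) (α := τ (f0 x)) (β := τ (f x0)) (h0 := h0) ?_ ?_ (h0C f)
        (tau_ne_zero hx) (tau_ne_zero hf)
      · apply hsep
        intro z
        rw [hΦ.pair_all (hA z) (rk f x), rk_apply, map_smul, smul_eq_mul,
          map_mul, map_smul, P3, smul_eq_mul, mul_comm]
      · intro v
        obtain ⟨g, rfl⟩ := hCs v
        rw [hΦ.pair_all (hC g) (rk f x), rk_apply, map_smul, smul_eq_mul, map_mul, P3]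
  have hfin : ∀ T (f : X →L[ℂ] ℂ), Φ T (C f) = C (f.comp T) := by
    intro T f
    apply hsep
    intro x
    rw [hΦ.pair_all (hW f x) T, P3]
    rfl
  have hCi : Function.Injective C := by
    intro f f' hff
    ext x
    have h1 : τ (f x) = τ (f' x) := by rw [← P3, ← P3, hff]
    rw [← tau_tau (τ := τ) (f x), h1, tau_tau]
  obtain ⟨C', hC'⟩ := equiv_of_sep C ⟨hCi, hCs⟩ (by
    intro k
    obtain ⟨x, rfl⟩ := hAs k
    have : (fun f => A x (C f)) = fun f : X →L[ℂ] ℂ => τ (f x) := funext fun f => P3 x f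
    rw [this]
    exact tau_continuous.comp (ContinuousLinearMap.apply ℂ ℂ x).continuous)
  exact ⟨C', fun T x => by rw [hC', hC', hfin]⟩

/-- The structure theorem. -/
theorem structure_theorem [Nontrivial X] (τ : ℂ →+* ℂ) [RingHomInvPair τ τ] [RingHomIsometric τ]
    {Φ : (X →L[ℂ] X) → (Y →L[ℂ] Y)} (hbij : Function.Bijective Φ)
    (hadd : ∀ S T, Φ (S + T) = Φ S + Φ T) (hsmul : ∀ (c : ℂ) T, Φ (c • T) = τ c • Φ T)
    (h1 : ∀ x f, f x = 1 → ∃ y h, Corr τ Φ x f y h)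
    (h2 : ∀ y h, h y = 1 → ∃ x f, f x = 1 ∧ Corr τ Φ x f y h) :
    (∃ A : X ≃SL[τ] Y, ∀ T x, Φ T (A x) = A (T x)) ∨
    (∃ A : (X →L[ℂ] ℂ) ≃SL[τ] Y, ∀ T f, Φ T (A f) = A (f.comp T)) := by
  obtain ⟨Ψ, hl, hr⟩ := Function.bijective_iff_has_inverse.1 hbij
  have hΦ : Good τ Φ := ⟨hadd, hsmul, h1⟩
  have hΨ : Good τ Ψ := hΦ.inv hl hr h2
  obtain ⟨x0, hx0⟩ := exists_ne (0 : X)
  obtain ⟨f0, hf0⟩ := exists_eq_one hx0
  obtain ⟨y0, h0, hc⟩ := h1 x0 f0 hf0
  rcases hΦ.shape hΨ hl hr hf0 hc.one hc.map with ⟨a, b, c, d⟩ | ⟨a, b, c, d⟩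
  · left
    exact hΦ.caseI hr hf0 hc.one hc.map a b c d
  · right
    exact hΦ.caseII hr hf0 hc.one hc.map a b c d

end Structure

end Pool.Agent.SpecRad
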