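import Pool.Agent.SpecRad.Dims
import Pool.Agent.SpecRad.Structure

/-!
# Assembly
-/

open Filter Topology ContinuousLinearMap
open scoped ComplexConjugate

namespace Pool.Agent.SpecRad

variable {X : Type*} [NormedAddCommGroup X] [NormedSpace ℂ X] [CompleteSpace X]
variable {Y : Type*} [NormedAddCommGroup Y] [NormedSpace ℂ Y] [CompleteSpace Y]

omit [CompleteSpace Y] in
lemma eq_zero_of_pairs [Nontrivial Y] {E : Y →L[ℂ] Y}
    (h : ∀ (y : Y) (k : Y →L[ℂ] ℂ), k y = 1 → k (E y) = 0) : E = 0 := by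
  by_cases hs : ∃ c : ℂ, E = c • 1
  · obtain ⟨c, hc⟩ := hs
    obtain ⟨y, hy⟩ := exists_ne (0 : Y)
    obtain ⟨k, hk⟩ := SeparatingDual.exists_eq_one (R := ℂ) hy
    have h1 := h y k hk
    rw [hc] at h1
    change k (c • y) = 0 at h1
    rw [map_smul, hk, smul_eq_mul, mul_one] at h1
    rw [hc, h1, zero_smul]
  · push Not at hs
    obtain ⟨y, hy⟩ := exists_pair_of_nonscalar hs
    obtain ⟨k, hk⟩ := exists_functional hy ![1, 1]
    have h0 : k y = 1 := by simpa using hk 0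
    have h1 : k (E y) = 1 := by simpa using hk 1
    have h2 := h y k h0
    rw [h1] at h2
    exact absurd h2 one_ne_zero

/-- The structure of the map once the correspondences are known. -/
lemma structure_of_corr [Nontrivial X] [Nontrivial Y] {τ : ℂ →+* ℂ} [RingHomInvPair τ τ]
    [RingHomIsometric τ] {φ ψ : (X →L[ℂ] X) ≃ (Y →L[ℂ] Y)} (hp : NPair τ φ ψ) {ε : ℂ}
    (hψ : ∀ S, ψ S = ε • φ (ε • S))
    (c1 : ∀ x f, f x = 1 → ∃ y h, Corr τ (fun T => φ T - φ 0) x f y h)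
    (c2 : ∀ y h, h y = 1 → ∃ x f, f x = 1 ∧ Corr τ (fun T => φ T - φ 0) x f y h) :
    ((∃ A : X ≃SL[τ] Y, ∀ T x, (φ T - φ 0) (A x) = A (T x)) ∨
    (∃ A : (X →L[ℂ] ℂ) ≃SL[τ] Y, ∀ T f, (φ T - φ 0) (A f) = A (f.comp T))) ∧
    (ε = -1 → φ 0 = 0) := by
  set Φ : (X →L[ℂ] X) → (Y →L[ℂ] Y) := fun T => φ T - φ 0 with hΦ
  have hbij : Function.Bijective Φ := by
    constructor
    · intro S T hST
      exact φ.injective (sub_left_injective hST)
    · intro T
      obtain ⟨S, hS⟩ := φ.surjective (T + φ 0)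
      exact ⟨S, by simp only [hΦ]; rw [hS]; abel⟩
  have hadd : ∀ S T, Φ (S + T) = Φ S + Φ T := by
    intro S T
    have : Φ (S + T) - (Φ S + Φ T) = 0 := by
      apply eq_zero_of_pairs
      intro y k hk
      obtain ⟨x, f, hfx, hc⟩ := c2 y k hk
      change k (Φ (S + T) y - (Φ S y + Φ T y)) = 0
      rw [map_sub, map_add, hc.pair, hc.pair, hc.pair]
      change τ (f (S x + T x)) - (τ (f (S x)) + τ (f (T x))) = 0
      rw [map_add, map_add, sub_self]
    exact sub_eq_zero.1 this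
  have hsmul : ∀ (c : ℂ) T, Φ (c • T) = τ c • Φ T := by
    intro c T
    have : Φ (c • T) - τ c • Φ T = 0 := by
      apply eq_zero_of_pairs
      intro y k hk
      obtain ⟨x, f, hfx, hc⟩ := c2 y k hk
      change k (Φ (c • T) y - τ c • (Φ T y)) = 0
      rw [map_sub, map_smul, hc.pair, hc.pair]
      change τ (f (c • (T x))) - τ c • τ (f (T x)) = 0
      rw [map_smul, smul_eq_mul, smul_eq_mul, map_mul, sub_self]
    exact sub_eq_zero.1 this
  refine ⟨structure_theorem τ hbij hadd hsmul c1 c2, ?_⟩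
  intro hε
  have hneg : ∀ T, Φ (-T) = -Φ T := by
    intro T
    have := hsmul (-1) T
    rw [map_neg, map_one, neg_smul, one_smul, neg_smul, one_smul] at this
    exact this
  have h1 : ∀ V, rr (Φ V + (2 : ℂ) • φ 0) = rr V := by
    intro V
    have h2 := hp.eq V 0
    rw [hψ, hε, sub_zero, smul_zero] at h2
    have e : φ V - (-1 : ℂ) • φ 0 = Φ V + (2 : ℂ) • φ 0 := by
      simp only [hΦ]; module
    rw [e] at h2
    exact h2
  have h2 : ∀ V, rr (Φ V - (2 : ℂ) • φ 0) = rr V := by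
    intro V
    have h3 := h1 (-V)
    rw [hneg, rr_neg, ← rr_neg] at h3
    have e : -(-Φ V + (2 : ℂ) • φ 0) = Φ V - (2 : ℂ) • φ 0 := by abel
    rwa [e] at h3
  have h3 : (4 : ℂ) • φ 0 = 0 := by
    apply eq_zero_of_rr
    intro N
    obtain ⟨V, hV⟩ := hbij.2 (N + (2 : ℂ) • φ 0)
    have e1 : (4 : ℂ) • φ 0 + N = Φ V + (2 : ℂ) • φ 0 := by
      rw [hV]; module
    have e2 : N = Φ V - (2 : ℂ) • φ 0 := by rw [hV]; abel
    rw [e1, h1]
    rw [show rr N = rr (Φ V - (2 : ℂ) • φ 0) by rw [← e2], h2]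
  exact (smul_eq_zero.1 h3).resolve_left (by norm_num)

omit [CompleteSpace X] in
/-- Rank-one idempotents are the identity when all operators are scalar. -/
lemma rk_eq_one_of_scalar (hZ : ∀ T : X →L[ℂ] X, ∃ c : ℂ, T = c • 1) {z : X} {f : X →L[ℂ] ℂ}
    (hfz : f z = 1) : rk f z = 1 := by
  obtain ⟨c, hc⟩ := hZ (rk f z)
  have hz : z ≠ 0 := by
    intro h0; rw [h0, map_zero] at hfz; exact zero_ne_one hfz
  have h1 : f z • z = c • z := congrArg (fun B : X →L[ℂ] X => B z) hc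
  have h2 : f z = c := smul_left_injective ℂ hz h1
  rw [hc, ← h2, hfz, one_smul]

/-- Correspondences when all operators are scalar. -/
lemma corr_of_scalar [Nontrivial X] [Nontrivial Y] {τ : ℂ →+* ℂ} [RingHomInvPair τ τ]
    {φ ψ : (X →L[ℂ] X) ≃ (Y →L[ℂ] Y)} (hp : NPair τ φ ψ)
    (hX : ∀ T : X →L[ℂ] X, ∃ c : ℂ, T = c • 1) :
    (∀ x f, f x = 1 → ∃ y h, Corr τ (fun T => φ T - φ 0) x f y h) ∧
    (∀ y h, h y = 1 → ∃ x f, f x = 1 ∧ Corr τ (fun T => φ T - φ 0) x f y h) := by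
  have hΦ : ∀ c : ℂ, φ (c • 1) - φ 0 = τ c • 1 := by
    intro c
    have := hp.shift₁ 0 c
    rw [zero_add] at this
    rw [this]; abel
  have hY : ∀ T : Y →L[ℂ] Y, ∃ c : ℂ, T = c • 1 := by
    intro T
    obtain ⟨S, hS⟩ := φ.surjective (T + φ 0)
    obtain ⟨c, rfl⟩ := hX S
    refine ⟨τ c, ?_⟩
    rw [← hΦ, hS]; abel
  have mk : ∀ (x : X) (f : X →L[ℂ] ℂ) (y : Y) (h : Y →L[ℂ] ℂ), f x = 1 → h y = 1 →
      Corr τ (fun T => φ T - φ 0) x f y h := by
    intro x f y h hfx hhy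
    refine ⟨hhy, ?_, ?_⟩
    · change φ (rk f x) - φ 0 = rk h y
      rw [rk_eq_one_of_scalar hX hfx, rk_eq_one_of_scalar hY hhy]
      have := hΦ 1
      rwa [one_smul, map_one τ, one_smul] at this
    · intro T
      obtain ⟨c, rfl⟩ := hX T
      change h ((φ (c • 1) - φ 0) y) = τ (f (c • x))
      rw [hΦ]
      change h (τ c • y) = τ (f (c • x))
      rw [map_smul, map_smul, hhy, hfx]; simp
  obtain ⟨x₀, hx₀⟩ := exists_ne (0 : X)
  obtain ⟨f₀, hf₀⟩ := SeparatingDual.exists_eq_one (R := ℂ) hx₀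
  obtain ⟨y₀, hy₀⟩ := exists_ne (0 : Y)
  obtain ⟨h₀, hh₀⟩ := SeparatingDual.exists_eq_one (R := ℂ) hy₀
  exact ⟨fun x f hfx => ⟨y₀, h₀, mk x f y₀ h₀ hfx hh₀⟩,
    fun y h hhy => ⟨x₀, f₀, hf₀, mk x₀ f₀ y h hf₀ hhy⟩⟩

end Pool.Agent.SpecRad
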