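import Mathlib

/-!
# Spectral radius of operators on a complex Banach space: basic tools
-/

open Filter Topology ContinuousLinearMap
open scoped ENNReal NNReal

namespace Pool.Agent.SpecRad

variable {X : Type*} [NormedAddCommGroup X] [NormedSpace ℂ X] [CompleteSpace X]

/-- The spectral radius as a real number. -/
noncomputable def rr (T : X →L[ℂ] X) : ℝ := (spectralRadius ℂ T).toReal

/-- The rank-one operator `v ↦ f(v) x`. -/
noncomputable def rk (f : X →L[ℂ] ℂ) (x : X) : X →L[ℂ] X := f.smulRight x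

omit [CompleteSpace X] in
@[simp] lemma rk_apply (f : X →L[ℂ] ℂ) (x v : X) : rk f x v = f v • x := rfl

lemma sr_ne_top (T : X →L[ℂ] X) : spectralRadius ℂ T ≠ ∞ := by
  have h := spectrum.spectralRadius_le_pow_nnnorm_pow_one_div ℂ T 0
  refine ne_top_of_le_ne_top ?_ h
  simp only [zero_add, pow_one, CharP.cast_eq_zero, ne_eq, one_ne_zero, not_false_eq_true, div_self,
    ENNReal.rpow_one]
  exact ENNReal.mul_ne_top ENNReal.coe_ne_top ENNReal.coe_ne_top

lemma ofReal_rr (T : X →L[ℂ] X) : ENNReal.ofReal (rr T) = spectralRadius ℂ T :=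
  ENNReal.ofReal_toReal (sr_ne_top T)

omit [CompleteSpace X] in
lemma rr_nonneg (T : X →L[ℂ] X) : 0 ≤ rr T := ENNReal.toReal_nonneg

lemma rr_eq_iff (T : X →L[ℂ] X) {Y : Type*} [NormedAddCommGroup Y] [NormedSpace ℂ Y]
    [CompleteSpace Y] (S : Y →L[ℂ] Y) : rr T = rr S ↔ spectralRadius ℂ T = spectralRadius ℂ S := by
  unfold rr
  exact ENNReal.toReal_eq_toReal_iff' (sr_ne_top T) (sr_ne_top S)

lemma norm_le_rr {T : X →L[ℂ] X} {z : ℂ} (hz : z ∈ spectrum ℂ T) : ‖z‖ ≤ rr T := by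
  have h : (‖z‖₊ : ℝ≥0∞) ≤ spectralRadius ℂ T := by
    unfold spectralRadius
    exact le_iSup₂ (f := fun (k : ℂ) (_ : k ∈ spectrum ℂ T) => (‖k‖₊ : ℝ≥0∞)) z hz
  have h2 := ENNReal.toReal_mono (sr_ne_top T) h
  unfold rr
  simpa using h2

lemma exists_mem_rr [Nontrivial X] (T : X →L[ℂ] X) : ∃ z ∈ spectrum ℂ T, ‖z‖ = rr T := by
  obtain ⟨z, hz, hz2⟩ := spectrum.exists_nnnorm_eq_spectralRadius T
  refine ⟨z, hz, ?_⟩
  unfold rr
  rw [← hz2]
  simp

lemma rr_le_iff [Nontrivial X] (T : X →L[ℂ] X) {ρ : ℝ} : rr T ≤ ρ ↔ ∀ z ∈ spectrum ℂ T, ‖z‖ ≤ ρ := by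
  constructor
  · intro h z hz
    exact (norm_le_rr hz).trans h
  · intro h
    obtain ⟨z, hz, hz2⟩ := exists_mem_rr T
    rw [← hz2]
    exact h z hz

omit [CompleteSpace X] in
lemma mem_spectrum_iff (T : X →L[ℂ] X) (z : ℂ) :
    z ∈ spectrum ℂ T ↔ ¬ IsUnit (z • (1 : X →L[ℂ] X) - T) := by
  rw [spectrum.mem_iff, Algebra.algebraMap_eq_smul_one]

omit [CompleteSpace X] in
/-- Shifting by a scalar. -/
lemma mem_spectrum_add (T : X →L[ℂ] X) (z c : ℂ) :
    z + c ∈ spectrum ℂ (T + c • 1) ↔ z ∈ spectrum ℂ T := by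
  rw [mem_spectrum_iff, mem_spectrum_iff]
  have : (z + c) • (1 : X →L[ℂ] X) - (T + c • 1) = z • 1 - T := by
    rw [add_smul]; abel
  rw [this]

lemma rr_add_le [Nontrivial X] (T : X →L[ℂ] X) (c : ℂ) : rr (T + c • 1) ≤ rr T + ‖c‖ := by
  rw [rr_le_iff]
  intro z hz
  have h1 : z - c ∈ spectrum ℂ T := by
    rw [← mem_spectrum_add T (z - c) c, sub_add_cancel]
    exact hz
  have h2 := norm_le_rr h1
  calc ‖z‖ = ‖(z - c) + c‖ := by rw [sub_add_cancel]
    _ ≤ ‖z - c‖ + ‖c‖ := norm_add_le _ _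
    _ ≤ rr T + ‖c‖ := by gcongr

lemma rr_add_ge [Nontrivial X] (T : X →L[ℂ] X) (c : ℂ) : ‖c‖ - rr T ≤ rr (T + c • 1) := by
  obtain ⟨z, hz, hz2⟩ := exists_mem_rr T
  have h1 := norm_le_rr ((mem_spectrum_add T z c).2 hz)
  have h2 : ‖c‖ - ‖z‖ ≤ ‖z + c‖ := by
    have := norm_sub_norm_le c (-z)
    rw [norm_neg, sub_neg_eq_add, add_comm c z] at this
    exact this
  linarith

omit [CompleteSpace X] in
/-- Eigenvalues are in the spectrum. -/
lemma mem_spectrum_of_eigen {T : X →L[ℂ] X} {z : ℂ} {v : X} (hv : v ≠ 0) (h : T v = z • v) :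
    z ∈ spectrum ℂ T := by
  rw [mem_spectrum_iff]
  rintro ⟨u, hu⟩
  have h1 : (z • (1 : X →L[ℂ] X) - T) v = 0 := by
    change z • v - T v = 0
    rw [h, sub_self]
  rw [← hu] at h1
  have h2 : ((u⁻¹ : (X →L[ℂ] X)ˣ) : X →L[ℂ] X) ((u : X →L[ℂ] X) v) = v :=
    congrArg (fun B : X →L[ℂ] X => B v) u.inv_mul
  rw [h1, map_zero] at h2
  exact hv h2.symm

lemma le_rr_of_eigen {T : X →L[ℂ] X} {z : ℂ} {v : X} (hv : v ≠ 0) (h : T v = z • v) :
    ‖z‖ ≤ rr T := norm_le_rr (mem_spectrum_of_eigen hv h)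

/-- Scalars. -/
lemma rr_smul_one [Nontrivial X] (c : ℂ) : rr (c • (1 : X →L[ℂ] X)) = ‖c‖ := by
  obtain ⟨v, hv⟩ := exists_ne (0 : X)
  apply le_antisymm
  · rw [rr_le_iff]
    intro z hz
    rw [mem_spectrum_iff] at hz
    by_contra hcon
    apply hz
    have hne : z - c ≠ 0 := by
      intro h0
      rw [sub_eq_zero] at h0
      rw [h0] at hcon
      exact hcon le_rfl
    have : z • (1 : X →L[ℂ] X) - c • 1 = (z - c) • 1 := by rw [sub_smul]
    rw [this]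
    exact IsUnit.smul (Units.mk0 (z - c) hne) isUnit_one
  · exact le_rr_of_eigen hv rfl

/-- Equivalent norm bound for the spectral radius. -/
lemma rr_le_of_equiv (W : X →L[ℂ] X) {N : X → ℝ} {c C ρ : ℝ} (hc : 0 < c) (hρ : 0 ≤ ρ)
    (h1 : ∀ v, c * ‖v‖ ≤ N v) (h2 : ∀ v, N v ≤ C * ‖v‖) (h3 : ∀ v, N (W v) ≤ ρ * N v) :
    rr W ≤ ρ := by
  have hpow : ∀ (n : ℕ) (v : X), N ((W ^ n) v) ≤ ρ ^ n * N v := by
    intro n
    induction n with
    | zero => intro v; simp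
    | succ n ih =>
      intro v
      have : (W ^ (n + 1)) v = W ((W ^ n) v) := by
        rw [pow_succ']; rfl
      rw [this]
      calc N (W ((W ^ n) v)) ≤ ρ * N ((W ^ n) v) := h3 _
        _ ≤ ρ * (ρ ^ n * N v) := by gcongr; exact ih v
        _ = ρ ^ (n + 1) * N v := by ring
  have hC : 0 ≤ |C| / c := by positivity
  have hnorm : ∀ n : ℕ, ‖W ^ n‖ ≤ (|C| / c) * ρ ^ n := by
    intro n
    apply ContinuousLinearMap.opNorm_le_bound _ (by positivity)
    intro v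
    have e1 := h1 ((W ^ n) v)
    have e2 := hpow n v
    have e3 := h2 v
    have e4 : N v ≤ |C| * ‖v‖ := e3.trans (by gcongr; exact le_abs_self C)
    have e5 : c * ‖(W ^ n) v‖ ≤ ρ ^ n * (|C| * ‖v‖) := by
      refine e1.trans (e2.trans ?_)
      gcongr
    rw [div_mul_eq_mul_div, div_mul_eq_mul_div, le_div_iff₀ hc]
    linarith
  by_contra hcon
  push Not at hcon
  -- use the bound for powers
  obtain ⟨s, hs1, hs2⟩ := exists_between hcon
  have hs0 : 0 < s := hρ.trans_lt hs1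
  have hlim : Tendsto (fun n : ℕ => (|C| / c) * (ρ / s) ^ n) atTop (𝓝 0) := by
    have : Tendsto (fun n : ℕ => (ρ / s) ^ n) atTop (𝓝 0) :=
      tendsto_pow_atTop_nhds_zero_of_lt_one (by positivity) ((div_lt_one hs0).2 hs1)
    simpa using this.const_mul (|C| / c)
  have hev : ∀ᶠ n : ℕ in atTop, (|C| / c) * (ρ / s) ^ n < 1 :=
    hlim.eventually (gt_mem_nhds one_pos)
  obtain ⟨n, hn1, hn2⟩ := (hev.and (eventually_ge_atTop 1)).exists
  have hn0 : n ≠ 0 := by omega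
  -- spectralRadius (W)^n ≤ ‖W^n‖
  have h5 : ‖W ^ n‖ < s ^ n := by
    calc ‖W ^ n‖ ≤ (|C| / c) * ρ ^ n := hnorm n
      _ = ((|C| / c) * (ρ / s) ^ n) * s ^ n := by
          rw [div_pow]; field_simp
      _ < 1 * s ^ n := by gcongr
      _ = s ^ n := one_mul _
  by_cases hX : Nontrivial X
  · obtain ⟨z, hz, hz2⟩ := exists_mem_rr W
    have h6 : z ^ n ∈ spectrum ℂ (W ^ n) := spectrum.pow_mem_pow W n hz
    have h7 : ‖z ^ n‖ ≤ ‖W ^ n‖ := spectrum.norm_le_norm_of_mem h6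
    rw [norm_pow, hz2] at h7
    have h8 : s ^ n ≤ rr W ^ n := by gcongr
    linarith
  · rw [not_nontrivial_iff_subsingleton] at hX
    have h9 : rr W = 0 := by
      unfold rr
      rw [spectrum.SpectralRadius.of_subsingleton]
      rfl
    rw [h9] at hcon
    linarith

/-- Lower bound for the spectral radius from the growth of powers. -/
lemma le_rr_of_growth (W : X →L[ℂ] X) {c ρ : ℝ} (hc : 0 < c) (hρ : 0 ≤ ρ)
    (h : ∀ n : ℕ, c * ρ ^ n ≤ ‖W ^ n‖) : ρ ≤ rr W := by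
  have hG := spectrum.pow_norm_pow_one_div_tendsto_nhds_spectralRadius W
  have hG2 : Tendsto (fun n : ℕ => ‖W ^ n‖ ^ (1 / n : ℝ)) atTop (𝓝 (rr W)) := by
    have := (ENNReal.tendsto_toReal (sr_ne_top W)).comp hG
    refine this.congr (fun n => ?_)
    simp only [Function.comp_apply]
    rw [ENNReal.toReal_ofReal (by positivity)]
  have hL : Tendsto (fun n : ℕ => c ^ (1 / n : ℝ) * ρ) atTop (𝓝 ρ) := by
    have h1 : Tendsto (fun n : ℕ => (1 / n : ℝ)) atTop (𝓝 0) := tendsto_one_div_atTop_nhds_zero_nat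
    have h2 : Tendsto (fun n : ℕ => c ^ (1 / n : ℝ)) atTop (𝓝 (c ^ (0 : ℝ))) :=
      (Real.continuousAt_const_rpow hc.ne').tendsto.comp h1
    rw [Real.rpow_zero] at h2
    simpa using h2.mul_const ρ
  apply le_of_tendsto_of_tendsto hL hG2
  filter_upwards [eventually_ge_atTop 1] with n hn
  have hn0 : (n : ℝ) ≠ 0 := by
    have : (1 : ℝ) ≤ n := by exact_mod_cast hn
    linarith
  calc c ^ (1 / n : ℝ) * ρ = c ^ (1 / n : ℝ) * (ρ ^ n) ^ (1 / n : ℝ) := by
        congr 1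
        rw [← Real.rpow_natCast, ← Real.rpow_mul hρ, mul_one_div_cancel hn0, Real.rpow_one]
    _ = (c * ρ ^ n) ^ (1 / n : ℝ) := by rw [Real.mul_rpow hc.le (by positivity)]
    _ ≤ ‖W ^ n‖ ^ (1 / n : ℝ) := by
        apply Real.rpow_le_rpow (by positivity) (h n) (by positivity)

end Pool.Agent.SpecRad
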