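import Pool.Agent.SpecRad.Perturb

/-!
# Pairs of bijections preserving the spectral radius of differences: first steps
-/

open Filter Topology ContinuousLinearMap
open scoped ComplexConjugate

namespace Pool.Agent.SpecRad

variable {X : Type*} [NormedAddCommGroup X] [NormedSpace ℂ X] [CompleteSpace X]
variable {Y : Type*} [NormedAddCommGroup Y] [NormedSpace ℂ Y] [CompleteSpace Y]

omit [CompleteSpace X] in
lemma exists_pair_of_nonscalar {D : X →L[ℂ] X} (h : ∀ c : ℂ, D ≠ c • 1) :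
    ∃ x, LinearIndependent ℂ ![x, D x] := by
  by_contra hcon
  push Not at hcon
  obtain ⟨a, ha⟩ := LinearMap.exists_eq_smul_id_of_forall_notLinearIndependent
    (f := (D : X →ₗ[ℂ] X)) hcon
  exact h a (by ext v; exact LinearMap.congr_fun ha v)

lemma rr_neg [Nontrivial X] (T : X →L[ℂ] X) : rr (-T) = rr T := by
  have key : ∀ T : X →L[ℂ] X, rr (-T) ≤ rr T := by
    intro T
    rw [rr_le_iff]
    intro z hz
    have : -z ∈ spectrum ℂ T := by
      rw [← spectrum.neg_eq] at hz
      exact hz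
    rw [← norm_neg]
    exact norm_le_rr this
  refine le_antisymm (key T) ?_
  simpa using key (-T)

lemma rr_smul_unimod [Nontrivial X] {c : ℂ} (hc : ‖c‖ = 1) (T : X →L[ℂ] X) :
    rr (c • T) = rr T := by
  have key : ∀ (c : ℂ) (_ : ‖c‖ = 1) (T : X →L[ℂ] X), rr (c • T) ≤ rr T := by
    intro c hc T
    have hc0 : c ≠ 0 := by
      intro h; rw [h, norm_zero] at hc; exact zero_ne_one hc
    rw [rr_le_iff]
    intro z hz
    have h1 : c⁻¹ * z ∈ spectrum ℂ T := by
      rw [mem_spectrum_iff] at hz ⊢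
      intro hu
      apply hz
      have : z • (1 : X →L[ℂ] X) - c • T = c • ((c⁻¹ * z) • 1 - T) := by
        rw [smul_sub, smul_smul, mul_inv_cancel_left₀ hc0]
      rw [this]
      exact IsUnit.smul (Units.mk0 c hc0) hu
    have h2 := norm_le_rr h1
    rwa [norm_mul, norm_inv, hc, inv_one, one_mul] at h2
  refine le_antisymm (key c hc T) ?_
  have hc0 : c ≠ 0 := by
    intro h; rw [h, norm_zero] at hc; exact zero_ne_one hc
  have := key c⁻¹ (by rw [norm_inv, hc, inv_one]) (c • T)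
  rwa [smul_smul, inv_mul_cancel₀ hc0, one_smul] at this

lemma rr_of_sq_zero [Nontrivial X] {N : X →L[ℂ] X} (h : N * N = 0) : rr N = 0 := by
  refine le_antisymm ?_ (rr_nonneg N)
  rw [rr_le_iff]
  intro z hz
  by_contra hcon
  have hz0 : z ≠ 0 := by
    intro h0; rw [h0, norm_zero] at hcon; exact hcon le_rfl
  rw [mem_spectrum_iff] at hz
  apply hz
  have hz2 : z * z ≠ 0 := mul_ne_zero hz0 hz0
  have e1 : (z • (1 : X →L[ℂ] X) - N) * (z • 1 + N) = (z * z) • 1 := by
    rw [sub_mul, mul_add, mul_add, h]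
    simp only [smul_mul_assoc, one_mul, mul_smul_comm, mul_one, smul_smul]
    abel
  have e2 : (z • (1 : X →L[ℂ] X) + N) * (z • 1 - N) = (z * z) • 1 := by
    rw [add_mul, mul_sub, mul_sub, h]
    simp only [smul_mul_assoc, one_mul, mul_smul_comm, mul_one, smul_smul]
    abel
  refine ⟨⟨z • 1 - N, (z * z)⁻¹ • (z • 1 + N), ?_, ?_⟩, rfl⟩
  · rw [mul_smul_comm, e1, smul_smul, inv_mul_cancel₀ hz2, one_smul]
  · rw [smul_mul_assoc, e2, smul_smul, inv_mul_cancel₀ hz2, one_smul]

lemma rr_rk_zero [Nontrivial X] {f : X →L[ℂ] ℂ} {x : X} (h : f x = 0) : rr (rk f x) = 0 := by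
  apply rr_of_sq_zero
  ext v
  change f (f v • x) • x = 0
  rw [map_smul, h, smul_zero, zero_smul]

lemma exists_nilp_add [Nontrivial X] {D : X →L[ℂ] X} (h : ∀ c : ℂ, D ≠ c • 1) (C : ℝ) :
    ∃ N : X →L[ℂ] X, rr N = 0 ∧ C < rr (D + N) := by
  obtain ⟨x, hx⟩ := exists_pair_of_nonscalar h
  set μ : ℂ := ((|C| + 1 : ℝ) : ℂ) with hμ
  obtain ⟨f, hf⟩ := exists_functional hx ![1, μ]
  have hf0 : f x = 1 := by simpa using hf 0
  have hf1 : f (D x) = μ := by simpa using hf 1
  have hx0 : x ≠ 0 := by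
    intro h0
    rw [h0, map_zero] at hf0
    exact zero_ne_one hf0
  refine ⟨rk f (μ • x - D x), rr_rk_zero ?_, ?_⟩
  · rw [map_sub, map_smul, hf0, hf1]; simp
  · have h1 : (D + rk f (μ • x - D x)) x = μ • x := by
      change D x + f x • (μ • x - D x) = μ • x
      rw [hf0, one_smul]; abel
    have h2 := le_rr_of_eigen hx0 h1
    have h3 : ‖μ‖ = |C| + 1 := by
      rw [hμ, Complex.norm_real, Real.norm_eq_abs, abs_of_pos (by positivity)]
    rw [h3] at h2
    linarith [le_abs_self C]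

/-- If the spectral radius is changed by a bounded amount by adding `D`, `D` is scalar. -/
lemma scalar_of_bounded [Nontrivial X] {D : X →L[ℂ] X} {C : ℝ}
    (h : ∀ N : X →L[ℂ] X, rr (D + N) ≤ rr N + C) : ∃ c : ℂ, D = c • 1 := by
  by_contra hcon
  push Not at hcon
  obtain ⟨N, h1, h2⟩ := exists_nilp_add hcon C
  have := h N
  rw [h1] at this
  linarith

lemma eq_zero_of_rr [Nontrivial X] {D : X →L[ℂ] X}
    (h : ∀ N : X →L[ℂ] X, rr (D + N) = rr N) : D = 0 := by
  obtain ⟨c, hc⟩ := scalar_of_bounded (D := D) (C := 0) (fun N => by rw [h N, add_zero])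
  have h1 := h 0
  rw [add_zero, hc, rr_smul_one] at h1
  have h2 : rr (0 : X →L[ℂ] X) = 0 := rr_of_sq_zero (by simp)
  rw [h2, norm_eq_zero] at h1
  rw [hc, h1, zero_smul]

/-- Peripheral spectrum. -/
def per (W : X →L[ℂ] X) (z : ℂ) : Prop := z ∈ spectrum ℂ W ∧ ‖z‖ = rr W

lemma per_iff [Nontrivial X] (W : X →L[ℂ] X) (z : ℂ) :
    per W z ↔ rr W = ‖z‖ ∧ rr (W + z • 1) = 2 * ‖z‖ := by
  constructor
  · rintro ⟨h1, h2⟩
    refine ⟨h2.symm, le_antisymm ?_ ?_⟩
    · have := rr_add_le W z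
      linarith
    · have := norm_le_rr ((mem_spectrum_add W z z).2 h1)
      rw [← two_mul, norm_mul] at this
      simpa using this
  · rintro ⟨h1, h2⟩
    obtain ⟨w, hw, hw2⟩ := exists_mem_rr (W + z • 1)
    have h3 : w - z ∈ spectrum ℂ W := by
      rw [← mem_spectrum_add W (w - z) z, sub_add_cancel]
      exact hw
    have h4 := norm_le_rr h3
    have h5 := parallelogram_law_with_norm ℝ (w - z) z
    rw [sub_add_cancel, hw2, h2] at h5
    rw [h1] at h4
    have h6 : ‖w - z - z‖ * ‖w - z - z‖ ≤ 0 := by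
      have : ‖w - z‖ * ‖w - z‖ ≤ ‖z‖ * ‖z‖ := by gcongr
      linarith
    have h7 : ‖w - z - z‖ = 0 := by
      have := norm_nonneg (w - z - z)
      nlinarith
    rw [norm_eq_zero, sub_eq_zero] at h7
    rw [h7] at h3
    exact ⟨h3, h1.symm⟩

/-- The preserver identity for a pair of bijections. -/
def IsPair (φ ψ : (X →L[ℂ] X) ≃ (Y →L[ℂ] Y)) : Prop :=
  ∀ T S, rr (φ T - ψ S) = rr (T - S)

lemma IsPair.swap [Nontrivial X] [Nontrivial Y] {φ ψ : (X →L[ℂ] X) ≃ (Y →L[ℂ] Y)}
    (h : IsPair φ ψ) : IsPair ψ φ := by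
  intro T S
  rw [← rr_neg, neg_sub, h, ← rr_neg, neg_sub]

lemma IsPair.symm {φ ψ : (X →L[ℂ] X) ≃ (Y →L[ℂ] Y)}
    (h : IsPair φ ψ) : IsPair φ.symm ψ.symm := by
  intro T S
  rw [← h, Equiv.apply_symm_apply, Equiv.apply_symm_apply]

lemma injective_of_pair [Nontrivial X] {φ ψ : (X →L[ℂ] X) → (Y →L[ℂ] Y)}
    (h : ∀ T S, rr (φ T - ψ S) = rr (T - S)) : Function.Injective φ := by
  intro T T' hT
  have h1 : ∀ N, rr ((T - T') + N) = rr N := by
    intro N
    have h2 := h T (T' - N)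
    have h3 := h T' (T' - N)
    rw [hT, h3] at h2
    have e1 : T - (T' - N) = T - T' + N := by abel
    have e2 : T' - (T' - N) = N := by abel
    rw [e1, e2] at h2
    exact h2.symm
  exact sub_eq_zero.1 (eq_zero_of_rr h1)

section

variable [Nontrivial X] [Nontrivial Y] {φ ψ : (X →L[ℂ] X) ≃ (Y →L[ℂ] Y)}

lemma IsPair.scalar (h : IsPair φ ψ) (T : X →L[ℂ] X) (c : ℂ) :
    ∃ g : ℂ, φ (T + c • 1) = φ T + g • 1 ∧ ‖g‖ = ‖c‖ := by
  obtain ⟨g, hg⟩ := scalar_of_bounded (D := φ (T + c • 1) - φ T) (C := ‖c‖) (fun N => by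
    obtain ⟨S, hS⟩ := ψ.surjective (φ T - N)
    have e1 : φ (T + c • 1) - φ T + N = φ (T + c • 1) - ψ S := by rw [hS]; abel
    have e2 : N = φ T - ψ S := by rw [hS]; abel
    rw [e1, h]
    rw [show rr N = rr (φ T - ψ S) by rw [← e2], h]
    have e3 : T + c • 1 - S = (T - S) + c • 1 := by abel
    rw [e3]
    exact rr_add_le _ _)
  refine ⟨g, by rw [← hg]; abel, ?_⟩
  obtain ⟨S, hS⟩ := ψ.surjective (φ T)
  have h1 := h T S
  rw [hS, sub_self, rr_of_sq_zero (by simp)] at h1
  have h2 := h (T + c • 1) S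
  rw [hS, hg, rr_smul_one] at h2
  have e3 : T + c • 1 - S = (T - S) + c • 1 := by abel
  rw [e3] at h2
  have h3 := rr_add_le (T - S) c
  have h4 := rr_add_ge (T - S) c
  rw [← h1] at h3 h4
  rw [h2]
  linarith

omit [Nontrivial X] in
/-- Translations of the spectral radius function of an operator. -/
lemma shift_zero [Nontrivial X] {W : X →L[ℂ] X} {v : ℂ}
    (h : ∀ z : ℂ, rr (W + (z + v) • 1) = rr (W + z • 1)) : v = 0 := by
  have h1 : ∀ n : ℕ, rr (W + ((n : ℂ) * v) • 1) = rr W := by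
    intro n
    induction n with
    | zero => simp
    | succ n ih =>
      rw [Nat.cast_succ, add_mul, one_mul, h, ih]
  by_contra hv
  have hv' : 0 < ‖v‖ := norm_pos_iff.2 hv
  obtain ⟨n, hn⟩ := exists_nat_gt ((rr W + rr W) / ‖v‖)
  have h2 := rr_add_ge W ((n : ℂ) * v)
  rw [h1, norm_mul, Complex.norm_natCast] at h2
  rw [div_lt_iff₀ hv'] at hn
  linarith

lemma IsPair.exists_shift (h : IsPair φ ψ) :
    ∃ g : ℂ → ℂ, Isometry g ∧ g 0 = 0 ∧ (∀ T c, φ (T + c • 1) = φ T + g c • 1) ∧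
      (∀ T c, ψ (T + c • 1) = ψ T + g c • 1) := by
  choose g hg hgn using h.scalar
  choose k hk hkn using h.swap.scalar
  have one_inj : ∀ a b : ℂ, a • (1 : Y →L[ℂ] Y) = b • 1 → a = b := by
    intro a b hab
    obtain ⟨v, hv⟩ := exists_ne (0 : Y)
    have : a • v = b • v := congrArg (fun B : Y →L[ℂ] Y => B v) hab
    exact smul_left_injective ℂ hv this
  have hgadd : ∀ T a b, g T (a + b) = g T a + g (T + a • 1) b := by
    intro T a b
    apply one_inj
    have h1 := hg T (a + b)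
    have h2 := hg (T + a • 1) b
    rw [add_assoc, ← add_smul, h1, hg T a, add_assoc, ← add_smul] at h2
    exact add_left_cancel h2
  have hkadd : ∀ T a b, k T (a + b) = k T a + k (T + a • 1) b := by
    intro T a b
    apply one_inj
    have h1 := hk T (a + b)
    have h2 := hk (T + a • 1) b
    rw [add_assoc, ← add_smul, h1, hk T a, add_assoc, ← add_smul] at h2
    exact add_left_cancel h2
  have hgiso : ∀ T, Isometry (g T) := by
    intro T
    apply Isometry.of_dist_eq
    intro a b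
    rw [dist_eq_norm, dist_eq_norm]
    have := hgadd T b (a - b)
    rw [add_sub_cancel] at this
    rw [this, add_sub_cancel_left, hgn]
  have hkiso : ∀ T, Isometry (k T) := by
    intro T
    apply Isometry.of_dist_eq
    intro a b
    rw [dist_eq_norm, dist_eq_norm]
    have := hkadd T b (a - b)
    rw [add_sub_cancel] at this
    rw [this, add_sub_cancel_left, hkn]
  have hg0 : ∀ T, g T 0 = 0 := fun T => by
    have := hgn T 0
    rwa [norm_zero, norm_eq_zero] at this
  have hk0 : ∀ T, k T 0 = 0 := fun T => by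
    have := hkn T 0
    rwa [norm_zero, norm_eq_zero] at this
  -- real linearity
  have hlin : ∀ T, ∃ L : ℂ →ₗᵢ[ℝ] ℂ, ∀ c, g T c = L c := by
    intro T
    refine ⟨((hgiso T).affineIsometryOfStrictConvexSpace).linearIsometry, fun c => ?_⟩
    have h1 := ((hgiso T).affineIsometryOfStrictConvexSpace).map_vadd 0 c
    simp only [Isometry.affineIsometryOfStrictConvexSpace_apply, vadd_eq_add, add_zero, hg0] at h1
    exact h1
  have hgk : ∀ T S c, g T c = k S c := by
    intro T S c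
    obtain ⟨L, hL⟩ := hlin T
    have hLsurj : Function.Surjective L :=
      (LinearMap.injective_iff_surjective (f := L.toLinearMap)).1 L.injective
    have key : ∀ z : ℂ, rr ((φ T - ψ S) + (z + (g T c - k S c)) • 1)
        = rr ((φ T - ψ S) + z • 1) := by
      intro z
      obtain ⟨μ, hμ⟩ := hLsurj z
      have e1 := h (T + (μ + c) • 1) (S + c • 1)
      have e2 := h (T + μ • 1) S
      have e3 : T + (μ + c) • 1 - (S + c • 1) = T + μ • 1 - S := by
        rw [add_smul]; abel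
      rw [e3, ← e2, hg T (μ + c), hk S c, hg T μ] at e1
      have e4 : g T (μ + c) = z + g T c := by
        rw [hL, map_add, ← hL c, hμ]
      have e5 : g T μ = z := by rw [hL, hμ]
      rw [e4, e5] at e1
      have e6 : φ T + (z + g T c) • 1 - (ψ S + k S c • 1)
          = φ T - ψ S + (z + (g T c - k S c)) • 1 := by
        rw [add_smul, add_smul, sub_smul]; abel
      have e7 : φ T + z • 1 - ψ S = φ T - ψ S + z • 1 := by abel
      rw [e6, e7] at e1
      exact e1
    exact sub_eq_zero.1 (shift_zero key)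
  refine ⟨g 0, hgiso 0, hg0 0, fun T c => ?_, fun T c => ?_⟩
  · rw [hg, hgk T 0, hgk 0 0]
  · rw [hk, hgk 0 T]

end

end Pool.Agent.SpecRad
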