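import Pool.Agent.SpecRad.FinalDefs
import Pool.Agent.SpecRad.Pair

/-!
# The standard forms are preservers
-/

open ContinuousLinearMap
open scoped ComplexConjugate ENNReal NNReal

namespace Pool.Agent.SpecRad

variable {X : Type*} [NormedAddCommGroup X] [NormedSpace ℂ X]
variable {Y : Type*} [NormedAddCommGroup Y] [NormedSpace ℂ Y]
variable {Z : Type*} [NormedAddCommGroup Z] [NormedSpace ℂ Z]

lemma sr_le {V : X →L[ℂ] X} {U : Y →L[ℂ] Y}
    (h : ∀ z ∈ spectrum ℂ V, ∃ w ∈ spectrum ℂ U, ‖w‖ = ‖z‖) :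
    spectralRadius ℂ V ≤ spectralRadius ℂ U := by
  unfold spectralRadius
  refine iSup₂_le (fun z hz => ?_)
  obtain ⟨w, hw, hwz⟩ := h z hz
  have h1 : (‖z‖₊ : ℝ≥0∞) = ‖w‖₊ := by
    rw [ENNReal.coe_inj]; ext; exact hwz.symm
  rw [h1]
  exact le_iSup₂ (f := fun (k : ℂ) (_ : k ∈ spectrum ℂ U) => (‖k‖₊ : ℝ≥0∞)) w hw

lemma adjOp_apply (T : X →L[ℂ] X) (f : X →L[ℂ] ℂ) : adjOp T f = f.comp T := rfl

section
variable {σ : ℂ →+* ℂ} [RingHomInvPair σ σ]

lemma conjBy_apply (A : Z ≃SL[σ] Y) (U : Z →L[ℂ] Z) (y : Y) : conjBy A U y = A (U (A.symm y)) :=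
  rfl

lemma conjBy_symm (A : Z ≃SL[σ] Y) (U : Z →L[ℂ] Z) : conjBy A.symm (conjBy A U) = U := by
  ext z
  rw [conjBy_apply, conjBy_apply]
  simp

lemma conjBy_symm' (A : Z ≃SL[σ] Y) (U : Y →L[ℂ] Y) : conjBy A (conjBy A.symm U) = U := by
  ext z
  rw [conjBy_apply, conjBy_apply]
  simp

lemma conjBy_mul (A : Z ≃SL[σ] Y) (U V : Z →L[ℂ] Z) :
    conjBy A (U * V) = conjBy A U * conjBy A V := by
  ext y
  change A (U (V (A.symm y))) = A (U (A.symm (A (V (A.symm y)))))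
  simp

lemma conjBy_one (A : Z ≃SL[σ] Y) : conjBy A (1 : Z →L[ℂ] Z) = 1 := by
  ext y
  change A (A.symm y) = y
  simp

lemma conjBy_sub (A : Z ≃SL[σ] Y) (U V : Z →L[ℂ] Z) :
    conjBy A (U - V) = conjBy A U - conjBy A V := by
  ext y
  change A (U (A.symm y) - V (A.symm y)) = A (U (A.symm y)) - A (V (A.symm y))
  rw [map_sub]

lemma conjBy_add (A : Z ≃SL[σ] Y) (U V : Z →L[ℂ] Z) :
    conjBy A (U + V) = conjBy A U + conjBy A V := by
  ext y
  change A (U (A.symm y) + V (A.symm y)) = A (U (A.symm y)) + A (V (A.symm y))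
  rw [map_add]

lemma conjBy_smul (A : Z ≃SL[σ] Y) (c : ℂ) (U : Z →L[ℂ] Z) :
    conjBy A (c • U) = σ c • conjBy A U := by
  ext y
  change A (c • U (A.symm y)) = σ c • A (U (A.symm y))
  rw [ContinuousLinearEquiv.map_smulₛₗ]

lemma isUnit_conjBy (A : Z ≃SL[σ] Y) {U : Z →L[ℂ] Z} (h : IsUnit U) :
    IsUnit (conjBy A U) := by
  obtain ⟨u, rfl⟩ := h
  refine ⟨⟨conjBy A u.val, conjBy A (u⁻¹).val, ?_, ?_⟩, rfl⟩
  · rw [← conjBy_mul, Units.mul_inv, conjBy_one]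
  · rw [← conjBy_mul, Units.inv_mul, conjBy_one]

lemma isUnit_conjBy_iff (A : Z ≃SL[σ] Y) {U : Z →L[ℂ] Z} :
    IsUnit (conjBy A U) ↔ IsUnit U := by
  constructor
  · intro h
    have := isUnit_conjBy A.symm h
    rwa [conjBy_symm] at this
  · exact fun h => isUnit_conjBy A h

lemma sr_smul_conjBy [RingHomIsometric σ] (A : Z ≃SL[σ] Y) {α : ℂ} (hα : ‖α‖ = 1)
    (U : Z →L[ℂ] Z) : spectralRadius ℂ (α • conjBy A U) = spectralRadius ℂ U := by
  have hα0 : α ≠ 0 := by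
    intro h; rw [h, norm_zero] at hα; exact zero_ne_one hα
  -- z ∈ σ(α A U A⁻¹) ↔ σ (α⁻¹ z) ∈ σ(U)
  have key : ∀ w : ℂ, α * σ w ∈ spectrum ℂ (α • conjBy A U) ↔ w ∈ spectrum ℂ U := by
    intro w
    rw [mem_spectrum_iff, mem_spectrum_iff, not_iff_not]
    have e1 : (α * σ w) • (1 : Y →L[ℂ] Y) - α • conjBy A U = α • conjBy A (w • 1 - U) := by
      rw [conjBy_sub, conjBy_smul, conjBy_one, smul_sub, smul_smul]
    rw [e1]
    have e2 : IsUnit (α • conjBy A (w • 1 - U)) ↔ IsUnit (conjBy A (w • 1 - U)) :=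
      isUnit_smul_iff (Units.mk0 α hα0) _
    rw [e2, isUnit_conjBy_iff]
  apply le_antisymm
  · apply sr_le
    intro z hz
    refine ⟨σ (α⁻¹ * z), ?_, ?_⟩
    · rw [← key, RingHomInvPair.comp_apply_eq (σ := σ) (σ' := σ), mul_inv_cancel_left₀ hα0]
      exact hz
    · rw [RingHomIsometric.norm_map, norm_mul, norm_inv, hα, inv_one, one_mul]
  · apply sr_le
    intro z hz
    refine ⟨α * σ z, (key z).2 hz, ?_⟩
    rw [norm_mul, hα, one_mul, RingHomIsometric.norm_map]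

end

lemma adjOp_mul (S T : X →L[ℂ] X) : adjOp (S * T) = adjOp T * adjOp S := by
  ext f x
  rfl

lemma adjOp_one : adjOp (1 : X →L[ℂ] X) = 1 := by
  ext f x
  rfl

lemma adjOp_sub (S T : X →L[ℂ] X) : adjOp (S - T) = adjOp S - adjOp T := by
  ext f x
  change f (S x - T x) = f (S x) - f (T x)
  rw [map_sub]

lemma adjOp_add (S T : X →L[ℂ] X) : adjOp (S + T) = adjOp S + adjOp T := by
  ext f x
  change f (S x + T x) = f (S x) + f (T x)
  rw [map_add]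

lemma adjOp_smul (c : ℂ) (T : X →L[ℂ] X) : adjOp (c • T) = c • adjOp T := by
  ext f x
  change f (c • T x) = c • f (T x)
  rw [map_smul]

lemma isUnit_adjOp {T : X →L[ℂ] X} (h : IsUnit T) : IsUnit (adjOp T) := by
  obtain ⟨u, rfl⟩ := h
  refine ⟨⟨adjOp u.val, adjOp (u⁻¹).val, ?_, ?_⟩, rfl⟩
  · rw [← adjOp_mul, Units.inv_mul, adjOp_one]
  · rw [← adjOp_mul, Units.mul_inv, adjOp_one]

/-- The canonical isomorphism with the bidual. -/
noncomputable def bidual (h : Reflex X) : X ≃L[ℂ] ((X →L[ℂ] ℂ) →L[ℂ] ℂ) :=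
  (LinearIsometryEquiv.ofSurjective (NormedSpace.inclusionInDoubleDualLi (E := X) ℂ)
    h).toContinuousLinearEquiv

lemma bidual_apply (h : Reflex X) (x : X) (f : X →L[ℂ] ℂ) : bidual h x f = f x := rfl

lemma conjBy_adjOp_adjOp (h : Reflex X) (T : X →L[ℂ] X) :
    conjBy (bidual h).symm (adjOp (adjOp T)) = T := by
  have e : adjOp (adjOp T) = conjBy (bidual h) T := by
    ext F f
    obtain ⟨x, rfl⟩ := (bidual h).surjective F
    rw [conjBy_apply, ContinuousLinearEquiv.symm_apply_apply]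
    rfl
  rw [e, conjBy_symm]

lemma adjOp_conjBy_adjOp (h : Reflex X) (V : (X →L[ℂ] ℂ) →L[ℂ] (X →L[ℂ] ℂ)) :
    adjOp (conjBy (bidual h).symm (adjOp V)) = V := by
  ext f x
  change f ((bidual h).symm (adjOp V (bidual h x))) = V f x
  rw [← bidual_apply h ((bidual h).symm (adjOp V (bidual h x))) f,
    ContinuousLinearEquiv.apply_symm_apply]
  rfl

lemma isUnit_adjOp_iff (h : Reflex X) {T : X →L[ℂ] X} : IsUnit (adjOp T) ↔ IsUnit T := by
  constructor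
  · intro hu
    have := isUnit_conjBy (bidual h).symm (isUnit_adjOp hu)
    rwa [conjBy_adjOp_adjOp] at this
  · exact isUnit_adjOp

lemma sr_adjOp (h : Reflex X) (T : X →L[ℂ] X) :
    spectralRadius ℂ (adjOp T) = spectralRadius ℂ T := by
  have key : ∀ z : ℂ, z ∈ spectrum ℂ (adjOp T) ↔ z ∈ spectrum ℂ T := by
    intro z
    rw [mem_spectrum_iff, mem_spectrum_iff, not_iff_not]
    have e : z • (1 : (X →L[ℂ] ℂ) →L[ℂ] (X →L[ℂ] ℂ)) - adjOp T = adjOp (z • 1 - T) := by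
      rw [adjOp_sub, adjOp_smul, adjOp_one]
    rw [e, isUnit_adjOp_iff h]
  exact le_antisymm (sr_le fun z hz => ⟨z, (key z).1 hz, rfl⟩)
    (sr_le fun z hz => ⟨z, (key z).2 hz, rfl⟩)

/-- A general form containing the four standard forms. -/
lemma surj_and_id {φ : (X →L[ℂ] X) → (Y →L[ℂ] Y)} {α : ℂ} {B : Y →L[ℂ] Y} (hα : ‖α‖ = 1)
    {L : (X →L[ℂ] X) → (Y →L[ℂ] Y)} (hsurj : Function.Surjective L)
    (hsub : ∀ S T, L (S - T) = L S - L T)
    (hsr : ∀ T, spectralRadius ℂ (α • L T) = spectralRadius ℂ T)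
    (hφ : ∀ T, φ T = α • L T + B) :
    Function.Surjective φ ∧ ∀ T S, spectralRadius ℂ (φ T - φ S) = spectralRadius ℂ (T - S) := by
  have hα0 : α ≠ 0 := by
    intro h; rw [h, norm_zero] at hα; exact zero_ne_one hα
  constructor
  · intro W
    obtain ⟨T, hT⟩ := hsurj (α⁻¹ • (W - B))
    refine ⟨T, ?_⟩
    rw [hφ, hT, smul_smul, mul_inv_cancel₀ hα0, one_smul]; abel
  · intro T S
    rw [hφ, hφ, ← hsr (T - S), hsub, smul_sub]
    congr 1; abel

lemma surj_and_id' {φ : (X →L[ℂ] X) → (Y →L[ℂ] Y)} {α : ℂ} (hα : ‖α‖ = 1)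
    {L : (X →L[ℂ] X) → (Y →L[ℂ] Y)} (hsurj : Function.Surjective L)
    (hadd : ∀ S T, L (S + T) = L S + L T)
    (hsr : ∀ T, spectralRadius ℂ (α • L T) = spectralRadius ℂ T)
    (hφ : ∀ T, φ T = α • L T + 0) :
    Function.Surjective φ ∧ ∀ T S, spectralRadius ℂ (φ T + φ S) = spectralRadius ℂ (T + S) := by
  have hα0 : α ≠ 0 := by
    intro h; rw [h, norm_zero] at hα; exact zero_ne_one hα
  constructor
  · intro W
    obtain ⟨T, hT⟩ := hsurj (α⁻¹ • W)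
    refine ⟨T, ?_⟩
    rw [hφ, hT, smul_smul, mul_inv_cancel₀ hα0, one_smul, add_zero]
  · intro T S
    rw [hφ, hφ, ← hsr (T + S), hadd, smul_add, add_zero, add_zero]

section
variable {σ : ℂ →+* ℂ} [RingHomInvPair σ σ] [RingHomIsometric σ]

omit [RingHomIsometric σ] in
lemma surj_conjBy (A : Z ≃SL[σ] Y) : Function.Surjective (fun T => conjBy A T) :=
  fun W => ⟨conjBy A.symm W, conjBy_symm' A W⟩

omit [RingHomIsometric σ] in
lemma surj_adj (h : Reflex X) (A : (X →L[ℂ] ℂ) ≃SL[σ] Y) :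
    Function.Surjective (fun T : X →L[ℂ] X => conjBy A (adjOp T)) := by
  intro W
  refine ⟨conjBy (bidual h).symm (adjOp (conjBy A.symm W)), ?_⟩
  change conjBy A (adjOp (conjBy (bidual h).symm (adjOp (conjBy A.symm W)))) = W
  rw [adjOp_conjBy_adjOp, conjBy_symm']

lemma sr_adj (h : Reflex X) (A : (X →L[ℂ] ℂ) ≃SL[σ] Y) {α : ℂ} (hα : ‖α‖ = 1) (T : X →L[ℂ] X) :
    spectralRadius ℂ (α • conjBy A (adjOp T)) = spectralRadius ℂ T := by
  rw [sr_smul_conjBy A hα, sr_adjOp h]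

end

/-- The standard forms satisfy the identity with differences. -/
theorem StdForm.sub {φ : (X →L[ℂ] X) → (Y →L[ℂ] Y)} {α : ℂ} {B : Y →L[ℂ] Y} (hα : ‖α‖ = 1)
    (h : StdForm φ α B) :
    Function.Surjective φ ∧ ∀ T S, spectralRadius ℂ (φ T - φ S) = spectralRadius ℂ (T - S) := by
  rcases h with ⟨A, hA⟩ | ⟨A, hA⟩ | ⟨hr, A, hA⟩ | ⟨hr, A, hA⟩
  · exact surj_and_id hα (surj_conjBy A) (conjBy_sub A) (sr_smul_conjBy A hα) hA
  · exact surj_and_id hα (surj_conjBy A) (conjBy_sub A) (sr_smul_conjBy A hα) hA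
  · exact surj_and_id hα (surj_adj hr A)
      (fun S T => by rw [adjOp_sub, conjBy_sub]) (sr_adj hr A hα) hA
  · exact surj_and_id hα (surj_adj hr A)
      (fun S T => by rw [adjOp_sub, conjBy_sub]) (sr_adj hr A hα) hA

/-- The standard forms with `B = 0` satisfy the identity with sums. -/
theorem StdForm.add {φ : (X →L[ℂ] X) → (Y →L[ℂ] Y)} {α : ℂ} (hα : ‖α‖ = 1)
    (h : StdForm φ α 0) :
    Function.Surjective φ ∧ ∀ T S, spectralRadius ℂ (φ T + φ S) = spectralRadius ℂ (T + S) := by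
  rcases h with ⟨A, hA⟩ | ⟨A, hA⟩ | ⟨hr, A, hA⟩ | ⟨hr, A, hA⟩
  · exact surj_and_id' hα (surj_conjBy A) (conjBy_add A) (sr_smul_conjBy A hα) hA
  · exact surj_and_id' hα (surj_conjBy A) (conjBy_add A) (sr_smul_conjBy A hα) hA
  · exact surj_and_id' hα (surj_adj hr A)
      (fun S T => by rw [adjOp_add, conjBy_add]) (sr_adj hr A hα) hA
  · exact surj_and_id' hα (surj_adj hr A)
      (fun S T => by rw [adjOp_add, conjBy_add]) (sr_adj hr A hα) hA

end Pool.Agent.SpecRad
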