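import Pool.Agent.SpecRad.Basic

/-!
# Correspondence of rank-one idempotents
-/

open ContinuousLinearMap

namespace Pool.Agent.SpecRad

/-- `Φ` maps the rank-one idempotent `f ⊗ x` to the rank-one idempotent `h ⊗ y`, compatibly with the
trace forms. -/
structure Corr {X Y : Type*} [NormedAddCommGroup X] [NormedSpace ℂ X] [NormedAddCommGroup Y]
    [NormedSpace ℂ Y] (τ : ℂ →+* ℂ) (Φ : (X →L[ℂ] X) → (Y →L[ℂ] Y)) (x : X) (f : X →L[ℂ] ℂ)
    (y : Y) (h : Y →L[ℂ] ℂ) : Prop where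
  one : h y = 1
  map : Φ (rk f x) = rk h y
  pair : ∀ T, h (Φ T y) = τ (f (T x))

end Pool.Agent.SpecRad
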