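import Pool.Agent.SpecRad.Line
import Pool.Agent.SpecRad.StructureDefs

/-!
# The correspondence of rank-one idempotents
-/

open Filter Topology ContinuousLinearMap
open scoped ComplexConjugate

namespace Pool.Agent.SpecRad

variable {X : Type*} [NormedAddCommGroup X] [NormedSpace ℂ X] [CompleteSpace X]
variable {Y : Type*} [NormedAddCommGroup Y] [NormedSpace ℂ Y] [CompleteSpace Y]

lemma tendsto_norm_add_cobounded (κ : ℂ) :
    Tendsto (fun z : ℂ => ‖z + κ‖) (Bornology.cobounded ℂ) atTop := by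
  have h1 : Tendsto (fun z : ℂ => ‖z‖ - ‖κ‖) (Bornology.cobounded ℂ) atTop :=
    tendsto_atTop_add_const_right _ _ tendsto_norm_cobounded_atTop
  refine tendsto_atTop_mono (fun z => ?_) h1
  have := norm_sub_norm_le z (-κ)
  rwa [norm_neg, sub_neg_eq_add] at this

/-- Asymptotics of the spectral radius along a rank-one line. -/
lemma tendsto_rr_sub {K : X →L[ℂ] X} {f : X →L[ℂ] ℂ} {x : X} (hfx : f x = 1) :
    Tendsto (fun z : ℂ => rr (z • rk f x + K) - ‖z + f (K x)‖) (Bornology.cobounded ℂ)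
      (𝓝 0) := by
  rw [Metric.tendsto_nhds]
  intro ε hε
  set M : ℝ := ‖K‖ * ((1 + ‖f‖) * (1 + ‖x‖) ^ 2) with hM
  have hM0 : 0 ≤ M := by positivity
  set η : ℝ := ε / (2 * (M + 1)) with hη
  have hη0 : 0 < η := by positivity
  have hηM : η * M < ε := by
    have h1 : η * M = ε / 2 * (M / (M + 1)) := by rw [hη]; field_simp
    have h2 : M / (M + 1) ≤ 1 := by rw [div_le_one (by positivity)]; linarith
    rw [h1]
    calc ε / 2 * (M / (M + 1)) ≤ ε / 2 * 1 := by gcongr
      _ < ε := by linarith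
  filter_upwards [(tendsto_norm_add_cobounded (f (K x))).eventually_ge_atTop
    (M * (1 + η) / η + η * M)] with z hz
  have hb : 0 ≤ M * (1 + η) / η := by positivity
  have hb' : 0 ≤ η * M := by positivity
  have h1 : M * (1 + η) / η ≤ ‖z + f (K x)‖ + η * M := by linarith
  have h2 : M * (1 + η) / η ≤ ‖z + f (K x)‖ - η * M := by linarith
  rw [div_le_iff₀ hη0] at h1 h2
  have h3 := rr_le_rank_one (z := z) hfx (hM.symm.le) hη0 h1
  have h4 := le_rr_rank_one (z := z) hfx (hM.symm.le) hη0 (by linarith) (by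
    rw [mul_comm η]; exact h2)
  rw [dist_zero_right, Real.norm_eq_abs, abs_lt]
  constructor <;> linarith

lemma eq_of_tendsto_norm {m m' : ℂ}
    (h : Tendsto (fun z : ℂ => ‖z + m‖ - ‖z + m'‖) (Bornology.cobounded ℂ) (𝓝 0)) :
    m = m' := by
  have key : ∀ ω : ℂ, ‖ω‖ = 1 → (conj ω * m).re = (conj ω * m').re := by
    intro ω hω
    have h1 : Tendsto (fun s : ℝ => (s : ℂ) * ω) atTop (Bornology.cobounded ℂ) := by
      rw [← tendsto_norm_atTop_iff_cobounded]
      refine tendsto_atTop_mono' _ ?_ tendsto_id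
      filter_upwards [eventually_ge_atTop (0 : ℝ)] with s hs
      rw [norm_ofReal_mul hω hs]
      rfl
    have h2 := h.comp h1
    have h3 := (tendsto_norm_add hω m).sub (tendsto_norm_add hω m')
    have h4 : Tendsto (fun s : ℝ => ‖(s : ℂ) * ω + m‖ - s - (‖(s : ℂ) * ω + m'‖ - s)) atTop
        (𝓝 0) := by
      refine h2.congr (fun s => ?_)
      change ‖(s : ℂ) * ω + m‖ - ‖(s : ℂ) * ω + m'‖ = _
      ring
    have := tendsto_nhds_unique h3 h4
    linarith
  have k1 := key 1 norm_one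
  have k2 := key Complex.I Complex.norm_I
  simp only [map_one, one_mul] at k1
  simp only [Complex.conj_I, neg_mul, Complex.neg_re, Complex.mul_re, Complex.I_re, zero_mul,
    Complex.I_im, one_mul, zero_sub, neg_neg] at k2
  exact Complex.ext k1 k2

lemma NPair.corr {τ : ℂ →+* ℂ} [RingHomInvPair τ τ] [RingHomIsometric τ]
    {φ ψ : (X →L[ℂ] X) ≃ (Y →L[ℂ] Y)} (hp : NPair τ φ ψ) (hX : Dim3 X) (hY : Dim3 Y)
    (T₀ : X →L[ℂ] X) {f : X →L[ℂ] ℂ} {x : X} (hfx : f x = 1) :
    ∃ (h : Y →L[ℂ] ℂ) (y : Y), h y = 1 ∧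
      (∀ z : ℂ, ∃ a : ℂ, φ (T₀ + z • rk f x) = φ T₀ + a • rk h y) ∧
      (∀ S S' : X →L[ℂ] X, h ((ψ S' - ψ S) y) = τ (f ((S' - S) x))) := by
  have := hX.nontrivial
  have := hY.nontrivial
  obtain ⟨h, y₀, hline⟩ := hp.line hX hY T₀ hfx
  choose b hb using hline
  set S₂ : X →L[ℂ] X := ψ.symm (φ T₀) with hS₂
  have hψS₂ : ψ S₂ = φ T₀ := by rw [hS₂, Equiv.apply_symm_apply]
  have hrr : ∀ z : ℂ, rr (b z • rk h y₀) = rr (z • rk f x + (T₀ - S₂)) := by
    intro z
    have h1 := hp.eq (T₀ + z • rk f x) S₂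
    rw [hb, hψS₂, add_sub_cancel_left] at h1
    rw [h1]
    congr 1; abel
  have htop : Tendsto (fun z : ℂ => rr (b z • rk h y₀)) (Bornology.cobounded ℂ) atTop := by
    have h1 := (tendsto_rr_sub (K := T₀ - S₂) hfx).add_atTop
      (tendsto_norm_add_cobounded (f ((T₀ - S₂) x)))
    refine h1.congr (fun z => ?_)
    rw [hrr, sub_add_cancel]
  have hne : h y₀ ≠ 0 := by
    intro h0
    obtain ⟨z, hz⟩ := (htop.eventually_gt_atTop 0).exists
    have h1 : rr (b z • rk h y₀) = 0 := by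
      have e : b z • rk h y₀ = rk h (b z • y₀) := by
        ext v
        change b z • (h v • y₀) = h v • (b z • y₀)
        rw [smul_comm]
      rw [e]
      apply rr_rk_zero
      rw [map_smul, h0, smul_zero]
    linarith
  set y : Y := (h y₀)⁻¹ • y₀ with hy
  have hhy : h y = 1 := by
    rw [hy, map_smul, smul_eq_mul, inv_mul_cancel₀ hne]
  set a : ℂ → ℂ := fun z => b z * h y₀ with ha
  have hrk : ∀ z, b z • rk h y₀ = a z • rk h y := by
    intro z
    ext v
    change b z • (h v • y₀) = (b z * h y₀) • (h v • ((h y₀)⁻¹ • y₀))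
    rw [smul_smul, smul_smul, smul_smul]
    congr 1
    field_simp
  have hφ : ∀ z, φ (T₀ + z • rk f x) = φ T₀ + a z • rk h y := fun z => by rw [hb, hrk]
  clear_value y
  refine ⟨h, y, hhy, fun z => ⟨a z, hφ z⟩, ?_⟩
  -- `a z → ∞`
  have hle : ∀ c : ℂ, rr (c • rk h y) ≤ ‖c‖ := by
    intro c
    have h1 := rr_le_rank_one (K := (0 : Y →L[ℂ] Y)) (z := c) (M := 0) (η := 1) hhy
      (by simp) one_pos (by simp)
    simpa using h1
  have hatop : Tendsto a (Bornology.cobounded ℂ) (Bornology.cobounded ℂ) := by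
    rw [← tendsto_norm_atTop_iff_cobounded]
    refine tendsto_atTop_mono (fun z => ?_) htop
    rw [hrk]
    exact hle _
  set k : (X →L[ℂ] X) → ℂ := fun S => h ((φ T₀ - ψ S) y) with hk
  set m : (X →L[ℂ] X) → ℂ := fun S => f ((T₀ - S) x) with hm
  have hasym : ∀ S, Tendsto (fun z : ℂ => ‖a z + k S‖ - ‖z + m S‖) (Bornology.cobounded ℂ)
      (𝓝 0) := by
    intro S
    have h1 := tendsto_rr_sub (K := T₀ - S) hfx
    have h2 := (tendsto_rr_sub (K := φ T₀ - ψ S) hhy).comp hatop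
    have h3 := h1.sub h2
    rw [sub_zero] at h3
    refine h3.congr (fun z => ?_)
    have e1 : rr (a z • rk h y + (φ T₀ - ψ S)) = rr (z • rk f x + (T₀ - S)) := by
      have e2 := hp.eq (T₀ + z • rk f x) S
      rw [hφ] at e2
      have e3 : φ T₀ + a z • rk h y - ψ S = a z • rk h y + (φ T₀ - ψ S) := by abel
      have e4 : T₀ + z • rk f x - S = z • rk f x + (T₀ - S) := by abel
      rw [e3, e4] at e2
      exact e2
    change rr (z • rk f x + (T₀ - S)) - ‖z + m S‖
      - (rr (a z • rk h y + (φ T₀ - ψ S)) - ‖a z + k S‖) = ‖a z + k S‖ - ‖z + m S‖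
    rw [e1]; ring
  intro S S'
  set c : ℂ := τ (k S - k S') with hc
  have hτc : τ c = k S - k S' := RingHomInvPair.comp_apply_eq (σ := τ) (σ' := τ)
  have hkc : k (S + c • 1) = k S' := by
    change h ((φ T₀ - ψ (S + c • 1)) y) = _
    rw [hp.shift₂]
    have e : (φ T₀ - (ψ S + τ c • (1 : Y →L[ℂ] Y))) y = (φ T₀ - ψ S) y - τ c • y := by
      change φ T₀ y - (ψ S y + τ c • y) = φ T₀ y - ψ S y - τ c • y
      abel
    rw [e, map_sub, map_smul, hhy, smul_eq_mul, mul_one, hτc]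
    change k S - (k S - k S') = k S'
    ring
  have hmc : m (S + c • 1) = m S - c := by
    change f (T₀ x - (S x + c • x)) = f (T₀ x - S x) - c
    rw [map_sub, map_add, map_sub, map_smul, hfx, smul_eq_mul, mul_one]
    ring
  have h1 := hasym (S + c • 1)
  rw [hkc, hmc] at h1
  have h2 := (hasym S').sub h1
  rw [sub_zero] at h2
  have h3 : Tendsto (fun z : ℂ => ‖z + (m S - c)‖ - ‖z + m S'‖) (Bornology.cobounded ℂ)
      (𝓝 0) := by
    refine h2.congr (fun z => ?_)
    ring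
  have h4 := eq_of_tendsto_norm h3
  have h5 : c = m S - m S' := by linear_combination -h4
  have h6 : k S - k S' = τ (m S - m S') := by rw [← hτc, h5]
  have e1 : k S - k S' = h ((ψ S' - ψ S) y) := by
    change h (φ T₀ y - ψ S y) - h (φ T₀ y - ψ S' y) = h (ψ S' y - ψ S y)
    rw [map_sub, map_sub, map_sub]; ring
  have e2 : m S - m S' = f ((S' - S) x) := by
    change f (T₀ x - S x) - f (T₀ x - S' x) = f (S' x - S x)
    rw [map_sub, map_sub, map_sub]; ring
  rw [e1, e2] at h6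
  exact h6

/-- The correspondences for the map `φ - φ 0`, when `ψ S = ε φ (ε S)`, `ε = ±1`. -/
lemma NPair.corr_one {τ : ℂ →+* ℂ} [RingHomInvPair τ τ] [RingHomIsometric τ]
    {φ ψ : (X →L[ℂ] X) ≃ (Y →L[ℂ] Y)} (hp : NPair τ φ ψ) {ε : ℂ} (hε : ε = 1 ∨ ε = -1)
    (hψ : ∀ S, ψ S = ε • φ (ε • S)) (hX : Dim3 X) (hY : Dim3 Y) {x : X} {f : X →L[ℂ] ℂ}
    (hfx : f x = 1) : ∃ y h, Corr τ (fun T => φ T - φ 0) x f y h := by
  obtain ⟨h, y, hhy, hline, hpair⟩ := hp.corr hX hY 0 hfx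
  have hεε : ε * ε = 1 := by rcases hε with rfl | rfl <;> norm_num
  have hετ : τ ε = ε := by rcases hε with rfl | rfl <;> simp
  have hε0 : ε ≠ 0 := by rcases hε with rfl | rfl <;> norm_num
  have hpr : ∀ T, h ((φ T - φ 0) y) = τ (f (T x)) := by
    intro T
    have h1 := hpair 0 (ε • T)
    rw [hψ, hψ, smul_zero, smul_smul, hεε, one_smul, sub_zero, ← smul_sub] at h1
    have h2 : h ((ε • (φ T - φ 0)) y) = ε * h ((φ T - φ 0) y) := by
      change h (ε • ((φ T - φ 0) y)) = _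
      rw [map_smul, smul_eq_mul]
    have h3 : f ((ε • T) x) = ε * f (T x) := by
      change f (ε • (T x)) = _
      rw [map_smul, smul_eq_mul]
    rw [h2, h3, map_mul, hετ] at h1
    exact mul_left_cancel₀ hε0 h1
  refine ⟨y, h, hhy, ?_, hpr⟩
  obtain ⟨a, ha⟩ := hline 1
  rw [one_smul, zero_add] at ha
  have h1 := hpr (rk f x)
  rw [ha, add_sub_cancel_left] at h1
  have h2 : h ((a • rk h y) y) = a := by
    change h (a • (h y • y)) = a
    rw [map_smul, map_smul, hhy]; simp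
  have h3 : f ((rk f x) x) = 1 := by
    change f (f x • x) = 1
    rw [map_smul, hfx]; simp
  rw [h2, h3, map_one] at h1
  change φ (rk f x) - φ 0 = rk h y
  rw [ha, h1, one_smul, add_sub_cancel_left]

lemma NPair.corr_two {τ : ℂ →+* ℂ} [RingHomInvPair τ τ] [RingHomIsometric τ]
    {φ ψ : (X →L[ℂ] X) ≃ (Y →L[ℂ] Y)} (hp : NPair τ φ ψ) {ε : ℂ} (hε : ε = 1 ∨ ε = -1)
    (hψ : ∀ S, ψ S = ε • φ (ε • S)) (hX : Dim3 X) (hY : Dim3 Y) {y : Y} {h : Y →L[ℂ] ℂ}
    (hhy : h y = 1) : ∃ x f, f x = 1 ∧ Corr τ (fun T => φ T - φ 0) x f y h := by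
  obtain ⟨f, x, hfx, hline, hpair⟩ := hp.symm.corr hY hX (φ 0) hhy
  have hεε : ε * ε = 1 := by rcases hε with rfl | rfl <;> norm_num
  have hετ : τ ε = ε := by rcases hε with rfl | rfl <;> simp
  have hε0 : ε ≠ 0 := by rcases hε with rfl | rfl <;> norm_num
  have hpair' : ∀ S S' : X →L[ℂ] X, h ((ψ S' - ψ S) y) = τ (f ((S' - S) x)) := by
    intro S S'
    have h1 := hpair (ψ S) (ψ S')
    rw [Equiv.symm_apply_apply, Equiv.symm_apply_apply] at h1
    rw [h1]
    exact (RingHomInvPair.comp_apply_eq (σ := τ) (σ' := τ)).symm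
  have hpr : ∀ T, h ((φ T - φ 0) y) = τ (f (T x)) := by
    intro T
    have h1 := hpair' 0 (ε • T)
    rw [hψ, hψ, smul_zero, smul_smul, hεε, one_smul, sub_zero, ← smul_sub] at h1
    have h2 : h ((ε • (φ T - φ 0)) y) = ε * h ((φ T - φ 0) y) := by
      change h (ε • ((φ T - φ 0) y)) = _
      rw [map_smul, smul_eq_mul]
    have h3 : f ((ε • T) x) = ε * f (T x) := by
      change f (ε • (T x)) = _
      rw [map_smul, smul_eq_mul]
    rw [h2, h3, map_mul, hετ] at h1
    exact mul_left_cancel₀ hε0 h1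
  refine ⟨x, f, hfx, hhy, ?_, hpr⟩
  obtain ⟨a, ha⟩ := hline 1
  rw [one_smul, Equiv.symm_apply_apply, zero_add, Equiv.symm_apply_eq] at ha
  -- φ (a • rk f x) = φ 0 + rk h y
  have h1 := hpr (a • rk f x)
  rw [← ha, add_sub_cancel_left] at h1
  have h2 : h ((rk h y) y) = 1 := by
    change h (h y • y) = 1
    rw [map_smul, hhy]; simp
  have h3 : f ((a • rk f x) x) = a := by
    change f (a • (f x • x)) = a
    rw [map_smul, map_smul, hfx]; simp
  rw [h2, h3] at h1
  have ha1 : a = 1 := by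
    have h4 : τ (τ a) = a := RingHomInvPair.comp_apply_eq (σ := τ) (σ' := τ)
    rw [← h4, ← h1, map_one]
  rw [ha1, one_smul] at ha
  change φ (rk f x) - φ 0 = rk h y
  rw [← ha, add_sub_cancel_left]

end Pool.Agent.SpecRad
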