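import Pool.Agent.SpecRad.CorrStep

/-!
# Dimensions
-/

open Filter Topology ContinuousLinearMap
open scoped ComplexConjugate

namespace Pool.Agent.SpecRad

variable {X : Type*} [NormedAddCommGroup X] [NormedSpace ℂ X] [CompleteSpace X]
variable {Y : Type*} [NormedAddCommGroup Y] [NormedSpace ℂ Y] [CompleteSpace Y]

omit [CompleteSpace X] in
lemma dim3_of_lt_rank (h : (2 : Cardinal) < Module.rank ℂ X) : Dim3 X := by
  obtain ⟨x₁, h1⟩ := exists_linearIndependent_cons_of_lt_rank (R := ℂ) (M := X) (n := 0)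
    (v := Fin.elim0) (linearIndependent_empty_type) (lt_of_le_of_lt (by norm_num) h)
  obtain ⟨x₂, h2⟩ := exists_linearIndependent_cons_of_lt_rank h1
    (lt_of_le_of_lt (by norm_num) h)
  obtain ⟨x₃, h3⟩ := exists_linearIndependent_cons_of_lt_rank h2
    (lt_of_le_of_lt (by norm_num) h)
  exact ⟨_, h3⟩

omit [CompleteSpace X] in
lemma rank_le_of_not_dim3 (h : ¬ Dim3 X) : Module.rank ℂ X ≤ 2 := by
  by_contra hcon
  exact h (dim3_of_lt_rank (not_le.1 hcon))

omit [CompleteSpace X] in
lemma finite_of_not_dim3 (h : ¬ Dim3 X) : FiniteDimensional ℂ X := by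
  have h1 := rank_le_of_not_dim3 h
  rw [FiniteDimensional, ← Module.rank_lt_aleph0_iff]
  exact h1.trans_lt (Cardinal.natCast_lt_aleph0)

omit [CompleteSpace X] in
lemma finrank_eq_two (h : ¬ Dim3 X) {D : X →L[ℂ] X} (hD : ∀ c : ℂ, D ≠ c • 1) :
    Module.finrank ℂ X = 2 := by
  have := finite_of_not_dim3 h
  apply le_antisymm
  · exact Module.finrank_le_of_rank_le (by exact_mod_cast rank_le_of_not_dim3 h)
  · obtain ⟨x, hx⟩ := exists_pair_of_nonscalar hD
    simpa using hx.fintype_card_le_finrank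

/-- An operator with three peripheral points. -/
lemma Dim3.exists_per (h : Dim3 X) : ∃ (W : X →L[ℂ] X) (ω : Fin 3 → ℂ),
    Function.Injective ω ∧ ∀ i, per W (ω i) := by
  have := h.nontrivial
  obtain ⟨v, hv⟩ := h
  choose f hf using fun i : Fin 3 => exists_functional hv (Pi.single i 1)
  set ω : Fin 3 → ℂ := ![1, -1, Complex.I] with hω
  set W : X →L[ℂ] X := ∑ i, ω i • rk (f i) (v i) with hW
  have hfv : ∀ i j, f i (v j) = if j = i then 1 else 0 := by
    intro i j
    rw [hf, Pi.single_apply]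
  have hsum : ∀ (c : Fin 3 → ℂ) (u : X), (∑ i, c i • rk (f i) (v i)) u
      = ∑ i, c i • (f i u • v i) := by
    intro c u
    rw [_root_.sum_apply]; rfl
  have hWpow : ∀ n : ℕ, W ^ (n + 1) = ∑ i, ω i ^ (n + 1) • rk (f i) (v i) := by
    intro n
    induction n with
    | zero => simp [hW]
    | succ n ih =>
      rw [pow_succ, ih]
      ext u
      have h1 : W u = ∑ i, ω i • (f i u • v i) := hsum ω u
      have h2 : ∀ i, f i (W u) = ω i * f i u := by
        intro i
        rw [h1, map_sum]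
        simp only [map_smul, hfv, smul_eq_mul, mul_ite, mul_one, mul_zero, Finset.sum_ite_eq',
          Finset.mem_univ, if_true]
      change (∑ i, ω i ^ (n + 1) • rk (f i) (v i)) (W u)
        = (∑ i, ω i ^ (n + 1 + 1) • rk (f i) (v i)) u
      rw [hsum (fun i => ω i ^ (n + 1)) (W u), hsum (fun i => ω i ^ (n + 1 + 1)) u]
      apply Finset.sum_congr rfl
      intro i _
      rw [h2, smul_smul, smul_smul]
      congr 1; ring
  have hω4 : ∀ i, ω i ^ 4 = 1 := by
    intro i
    fin_cases i
    · simp [hω]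
    · simp [hω]; norm_num
    · simp [hω, Complex.I_pow_four]
  have hW5 : W ^ 5 = W := by
    have h1 := hWpow 4
    have h2 := hWpow 0
    rw [zero_add, pow_one] at h2
    rw [h1, h2]
    apply Finset.sum_congr rfl
    intro i _
    rw [pow_succ, hω4, one_mul, pow_one]
  have hωn : ∀ i, ‖ω i‖ = 1 := by
    intro i
    fin_cases i <;> simp [hω]
  have hle : rr W ≤ 1 := by
    rw [rr_le_iff]
    intro z hz
    have h1 := spectrum.subset_polynomial_aeval W (Polynomial.X ^ 5 - Polynomial.X)
      (Set.mem_image_of_mem _ hz)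
    have h2 : (Polynomial.aeval W) (Polynomial.X ^ 5 - Polynomial.X : Polynomial ℂ) = 0 := by
      simp [hW5]
    rw [h2, spectrum.zero_eq] at h1
    simp only [Polynomial.eval_sub, Polynomial.eval_pow, Polynomial.eval_X,
      Set.mem_singleton_iff] at h1
    have h3 : ‖z‖ ^ 5 = ‖z‖ := by
      rw [← norm_pow, sub_eq_zero.1 h1]
    by_contra hcon
    push Not at hcon
    have h4 : ‖z‖ ^ 1 < ‖z‖ ^ 5 := pow_lt_pow_right₀ hcon (by norm_num)
    rw [pow_one, h3] at h4
    exact lt_irrefl _ h4
  refine ⟨W, ω, ?_, ?_⟩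
  · intro i j hij
    fin_cases i <;> fin_cases j <;> simp [hω, Complex.ext_iff] at hij ⊢ <;> norm_num at hij
  · intro i
    have h1 : W (v i) = ω i • v i := by
      rw [hW, _root_.sum_apply]
      have : ∀ j, (ω j • rk (f j) (v j)) (v i) = if i = j then ω j • v j else 0 := by
        intro j
        change ω j • (f j (v i) • v j) = _
        rw [hfv]
        split_ifs <;> simp
      simp only [this, Finset.sum_ite_eq, Finset.mem_univ, if_true]
    have h2 := le_rr_of_eigen (hv.ne_zero i) h1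
    refine ⟨mem_spectrum_of_eigen (hv.ne_zero i) h1, le_antisymm h2 ?_⟩
    rw [hωn]; exact hle

/-- Three spectral values force dimension at least three. -/
lemma dim3_of_spectrum {W : X →L[ℂ] X} {ω : Fin 3 → ℂ} (hω : Function.Injective ω)
    (h : ∀ i, ω i ∈ spectrum ℂ W) : Dim3 X := by
  by_contra hcon
  have := finite_of_not_dim3 hcon
  apply hcon
  have key : ∀ i, ∃ v : X, v ≠ 0 ∧ W v = ω i • v := by
    intro i
    have h1 := h i
    rw [mem_spectrum_iff] at h1
    by_contra hno
    push Not at hno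
    apply h1
    rw [ContinuousLinearMap.isUnit_iff_bijective]
    have hinj : Function.Injective (ω i • (1 : X →L[ℂ] X) - W) := by
      rw [injective_iff_map_eq_zero]
      intro v hv
      by_contra hv0
      apply hno v hv0
      change ω i • v - W v = 0 at hv
      exact (sub_eq_zero.1 hv).symm
    exact ⟨hinj, (LinearMap.injective_iff_surjective
      (f := ((ω i • (1 : X →L[ℂ] X) - W : X →L[ℂ] X) : X →ₗ[ℂ] X))).1 hinj⟩
  choose v hv0 hv using key
  exact ⟨v, Module.End.eigenvectors_linearIndependent' (W : X →ₗ[ℂ] X) ω hω v (fun i => by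
    rw [Module.End.hasEigenvector_iff, Module.End.mem_eigenspace_iff]
    exact ⟨hv i, hv0 i⟩)⟩

lemma NPair.dim3 [Nontrivial X] [Nontrivial Y] {τ : ℂ →+* ℂ} [RingHomIsometric τ]
    {φ ψ : (X →L[ℂ] X) ≃ (Y →L[ℂ] Y)} (hp : NPair τ φ ψ) (hX : Dim3 X) : Dim3 Y := by
  obtain ⟨W, ω, hω, hper⟩ := hX.exists_per
  apply dim3_of_spectrum (W := φ W - ψ 0) (ω := fun i => τ (ω i))
  · intro i j hij
    exact hω (τ.injective hij)
  · intro i
    have h1 := (hp.per W 0 (ω i)).2 (by rw [sub_zero]; exact hper i)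
    exact h1.1

end Pool.Agent.SpecRad
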