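import Pool.Agent.SpecRad.Basic

/-!
# The standard forms
-/

open ContinuousLinearMap
open scoped ComplexConjugate

namespace Pool.Agent.SpecRad

/-- Reflexivity: the canonical map into the bidual is onto. -/
def Reflex (X : Type*) [NormedAddCommGroup X] [NormedSpace ℂ X] : Prop :=
  Function.Surjective (NormedSpace.inclusionInDoubleDual ℂ X)

/-- The adjoint operator `f ↦ f ∘ T` on the dual space. -/
noncomputable def adjOp {X : Type*} [NormedAddCommGroup X] [NormedSpace ℂ X] (T : X →L[ℂ] X) :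
    (X →L[ℂ] ℂ) →L[ℂ] (X →L[ℂ] ℂ) :=
  (ContinuousLinearMap.compL ℂ X X ℂ).flip T

/-- The operator `A U A⁻¹`, for a homeomorphism `A` which is linear (`σ = id`) or conjugate linear
(`σ` = complex conjugation). -/
noncomputable def conjBy {Z Y : Type*} [NormedAddCommGroup Z] [NormedSpace ℂ Z]
    [NormedAddCommGroup Y] [NormedSpace ℂ Y] {σ : ℂ →+* ℂ} [RingHomInvPair σ σ]
    (A : Z ≃SL[σ] Y) (U : Z →L[ℂ] Z) : Y →L[ℂ] Y :=
  (A : Z →SL[σ] Y).comp (U.comp (A.symm : Y →SL[σ] Z))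

/-- The standard form `φ(T) = α A T A⁻¹ + B` with `A : X → Y` a linear or conjugate linear
homeomorphism, or, when `X` is reflexive, `φ(T) = α A T* A⁻¹ + B` with `A : X* → Y` a linear or
conjugate linear homeomorphism. -/
def StdForm {X Y : Type*} [NormedAddCommGroup X] [NormedSpace ℂ X] [NormedAddCommGroup Y]
    [NormedSpace ℂ Y] (φ : (X →L[ℂ] X) → (Y →L[ℂ] Y)) (α : ℂ) (B : Y →L[ℂ] Y) : Prop :=
  (∃ A : X ≃L[ℂ] Y, ∀ T, φ T = α • conjBy A T + B) ∨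
  (∃ A : X ≃L⋆[ℂ] Y, ∀ T, φ T = α • conjBy A T + B) ∨
  (Reflex X ∧ ∃ A : (X →L[ℂ] ℂ) ≃L[ℂ] Y, ∀ T, φ T = α • conjBy A (adjOp T) + B) ∨
  (Reflex X ∧ ∃ A : (X →L[ℂ] ℂ) ≃L⋆[ℂ] Y, ∀ T, φ T = α • conjBy A (adjOp T) + B)

end Pool.Agent.SpecRad
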