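import Pool.Agent.SpecRad.NPair
import Pool.Agent.SpecRad.StructureDefs

/-!
# The two-dimensional case: correspondence of rank-one idempotents
-/

open ContinuousLinearMap

namespace Pool.Agent.SpecRad

section mat

variable {Z : Type*} [NormedAddCommGroup Z] [NormedSpace ℂ Z] [FiniteDimensional ℂ Z]

/-- Matrix of an operator. -/
noncomputable def mat (b : Module.Basis (Fin 2) ℂ Z) :
    (Z →L[ℂ] Z) ≃ₐ[ℂ] Matrix (Fin 2) (Fin 2) ℂ :=
  (Module.End.toContinuousLinearMap Z).symm.trans (LinearMap.toMatrixAlgEquiv b)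

lemma mat_apply (b : Module.Basis (Fin 2) ℂ Z) (A : Z →L[ℂ] Z) (i j : Fin 2) :
    mat b A i j = b.repr (A (b j)) i := by
  unfold mat
  rw [AlgEquiv.trans_apply, LinearMap.toMatrixAlgEquiv_apply]
  rfl

/-- Trace. -/
noncomputable def tr (b : Module.Basis (Fin 2) ℂ Z) (A : Z →L[ℂ] Z) : ℂ :=
  mat b A 0 0 + mat b A 1 1

/-- Determinant. -/
noncomputable def dt (b : Module.Basis (Fin 2) ℂ Z) (A : Z →L[ℂ] Z) : ℂ :=
  mat b A 0 0 * mat b A 1 1 - mat b A 0 1 * mat b A 1 0

/-- Polar form of the determinant. -/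
noncomputable def bb (b : Module.Basis (Fin 2) ℂ Z) (A B : Z →L[ℂ] Z) : ℂ :=
  tr b A * tr b B - tr b (A * B)

variable (b : Module.Basis (Fin 2) ℂ Z)

lemma mat_mul_apply (A B : Z →L[ℂ] Z) (i j : Fin 2) :
    mat b (A * B) i j = mat b A i 0 * mat b B 0 j + mat b A i 1 * mat b B 1 j := by
  rw [map_mul, Matrix.mul_apply, Fin.sum_univ_two]

lemma mat_sub_apply (A B : Z →L[ℂ] Z) (i j : Fin 2) :
    mat b (A - B) i j = mat b A i j - mat b B i j := by
  rw [map_sub, Matrix.sub_apply]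

lemma mat_add_apply (A B : Z →L[ℂ] Z) (i j : Fin 2) :
    mat b (A + B) i j = mat b A i j + mat b B i j := by
  rw [map_add, Matrix.add_apply]

lemma mat_smul_apply (c : ℂ) (A : Z →L[ℂ] Z) (i j : Fin 2) :
    mat b (c • A) i j = c * mat b A i j := by
  rw [map_smul, Matrix.smul_apply, smul_eq_mul]

lemma mat_zero_apply (i j : Fin 2) : mat b (0 : Z →L[ℂ] Z) i j = 0 := by
  rw [map_zero, Matrix.zero_apply]

lemma tr_sub (A B : Z →L[ℂ] Z) : tr b (A - B) = tr b A - tr b B := by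
  unfold tr
  rw [mat_sub_apply, mat_sub_apply]; ring

lemma tr_zero : tr b (0 : Z →L[ℂ] Z) = 0 := by
  unfold tr
  rw [mat_zero_apply, mat_zero_apply, add_zero]

lemma dt_sub (A B : Z →L[ℂ] Z) : dt b (A - B) = dt b A + dt b B - bb b A B := by
  unfold dt bb tr
  simp only [mat_sub_apply, mat_mul_apply]; ring

lemma bb_self (A : Z →L[ℂ] Z) : bb b A A = 2 * dt b A := by
  unfold dt bb tr
  simp only [mat_mul_apply]; ring

lemma bb_sub_left (A A' B : Z →L[ℂ] Z) : bb b (A - A') B = bb b A B - bb b A' B := by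
  unfold bb tr
  simp only [mat_sub_apply, mat_mul_apply]; ring

lemma bb_sub_right (A B B' : Z →L[ℂ] Z) : bb b A (B - B') = bb b A B - bb b A B' := by
  unfold bb tr
  simp only [mat_sub_apply, mat_mul_apply]; ring

lemma bb_add_left (A A' B : Z →L[ℂ] Z) : bb b (A + A') B = bb b A B + bb b A' B := by
  unfold bb tr
  simp only [mat_add_apply, mat_mul_apply]; ring

lemma bb_smul_left (c : ℂ) (A B : Z →L[ℂ] Z) : bb b (c • A) B = c * bb b A B := by
  unfold bb tr
  simp only [mat_smul_apply, mat_mul_apply]; ring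

lemma bb_nondeg {A : Z →L[ℂ] Z} (h : ∀ B, bb b A B = 0) : A = 0 := by
  have hm : ∀ N : Matrix (Fin 2) (Fin 2) ℂ,
      (mat b A 0 0 + mat b A 1 1) * (N 0 0 + N 1 1)
        - (mat b A 0 0 * N 0 0 + mat b A 0 1 * N 1 0 + (mat b A 1 0 * N 0 1 + mat b A 1 1 * N 1 1))
          = 0 := by
    intro N
    have := h ((mat b).symm N)
    unfold bb tr at this
    simp only [mat_mul_apply, AlgEquiv.apply_symm_apply] at this
    linear_combination this
  have h1 := hm !![1, 0; 0, 0]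
  have h2 := hm !![0, 1; 0, 0]
  have h3 := hm !![0, 0; 1, 0]
  have h4 := hm !![0, 0; 0, 1]
  simp at h1 h2 h3 h4
  apply (mat b).injective
  rw [map_zero]
  ext i j
  fin_cases i <;> fin_cases j
  · simpa using h4
  · simpa using h3
  · simpa using h2
  · simpa using h1

lemma mem_spectrum_mat (A : Z →L[ℂ] Z) (z : ℂ) :
    z ∈ spectrum ℂ A ↔ z ^ 2 - tr b A * z + dt b A = 0 := by
  rw [← AlgEquiv.spectrum_eq (mat b) A, spectrum.mem_iff, Matrix.isUnit_iff_isUnit_det,
    isUnit_iff_ne_zero, not_not, Matrix.det_fin_two]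
  simp only [Matrix.sub_apply, Matrix.algebraMap_matrix_apply]
  unfold tr dt
  simp only [Fin.isValue, if_true, Algebra.algebraMap_self, RingHom.id_apply, zero_ne_one,
    if_false, one_ne_zero]
  constructor <;> intro h <;> linear_combination h

lemma exists_eigen (A : Z →L[ℂ] Z) : ∃ l₁ l₂ : ℂ, tr b A = l₁ + l₂ ∧ dt b A = l₁ * l₂ ∧
    ∀ z, z ∈ spectrum ℂ A ↔ z = l₁ ∨ z = l₂ := by
  obtain ⟨s, hs⟩ := IsAlgClosed.exists_pow_nat_eq (tr b A ^ 2 - 4 * dt b A) (n := 2) (by norm_num)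
  refine ⟨(tr b A + s) / 2, (tr b A - s) / 2, by ring, by linear_combination (1 / 4 : ℂ) * hs, ?_⟩
  intro z
  rw [mem_spectrum_mat b]
  have e : z ^ 2 - tr b A * z + dt b A
      = (z - (tr b A + s) / 2) * (z - (tr b A - s) / 2) := by
    linear_combination (1 / 4 : ℂ) * hs
  rw [e, mul_eq_zero, sub_eq_zero, sub_eq_zero]

lemma tr_rk (A : Z →L[ℂ] Z) (f : Z →L[ℂ] ℂ) (x : Z) : tr b (A * rk f x) = f (A x) := by
  unfold tr
  rw [mat_apply, mat_apply]
  have e : ∀ j, (A * rk f x) (b j) = f (b j) • A x := by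
    intro j
    change A (f (b j) • x) = _
    rw [map_smul]
  rw [e, e, map_smul, map_smul]
  change f (b 0) * b.repr (A x) 0 + f (b 1) * b.repr (A x) 1 = _
  conv_rhs => rw [← b.sum_repr (A x), Fin.sum_univ_two, map_add, map_smul, map_smul]
  simp only [smul_eq_mul]
  ring

lemma tr_rk' (f : Z →L[ℂ] ℂ) (x : Z) : tr b (rk f x) = f x := by
  have := tr_rk b 1 f x
  rwa [one_mul] at this

lemma dt_rk (f : Z →L[ℂ] ℂ) (x : Z) : dt b (rk f x) = 0 := by
  unfold dt
  simp only [mat_apply, rk_apply, map_smul, Finsupp.smul_apply, smul_eq_mul]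
  ring

/-- Operators with trace one and determinant zero are rank-one idempotents. -/
lemma exists_rk {A : Z →L[ℂ] Z} (h1 : tr b A = 1) (h2 : dt b A = 0) :
    ∃ (y : Z) (h : Z →L[ℂ] ℂ), h y = 1 ∧ A = rk h y := by
  -- factorisation of the matrix
  obtain ⟨w, v, hw⟩ : ∃ w v : Fin 2 → ℂ, ∀ i j, mat b A i j = w i * v j := by
    unfold tr at h1
    unfold dt at h2
    by_cases h0 : mat b A 0 0 = 0
    · rw [h0, zero_add] at h1
      rw [h0, zero_mul, zero_sub, neg_eq_zero] at h2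
      refine ⟨![mat b A 0 1, 1], ![mat b A 1 0, 1], ?_⟩
      intro i j
      fin_cases i <;> fin_cases j
      · simp [h0, h2]
      · simp
      · simp
      · simp [h1]
    · refine ⟨![mat b A 0 0, mat b A 1 0], ![1, mat b A 0 1 / mat b A 0 0], ?_⟩
      intro i j
      fin_cases i <;> fin_cases j
      · simp
      · simp only [Fin.zero_eta, Fin.isValue, Fin.mk_one, Matrix.cons_val_zero, Matrix.cons_val_one,
          Matrix.cons_val_fin_one]
        field_simp
      · simp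
      · simp only [Fin.mk_one, Fin.isValue, Matrix.cons_val_one, Matrix.cons_val_fin_one]
        field_simp
        linear_combination h2
  set y : Z := w 0 • b 0 + w 1 • b 1 with hy
  set h : Z →L[ℂ] ℂ := LinearMap.toContinuousLinearMap
    (v 0 • b.coord 0 + v 1 • b.coord 1) with hh
  have hhb : ∀ j, h (b j) = v j := by
    intro j
    rw [hh]
    change v 0 * b.repr (b j) 0 + v 1 * b.repr (b j) 1 = v j
    rw [b.repr_self]
    fin_cases j <;> simp
  have hA : A = rk h y := by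
    apply (mat b).injective
    ext i j
    rw [hw, mat_apply, rk_apply, map_smul, hhb]
    have : b.repr y i = w i := by
      rw [hy, map_add, map_smul, map_smul, b.repr_self, b.repr_self]
      fin_cases i <;> simp
    change w i * v j = v j * b.repr y i
    rw [this, mul_comm]
  refine ⟨y, h, ?_, hA⟩
  rw [← h1, hA, tr_rk']

end mat

section

variable {X : Type*} [NormedAddCommGroup X] [NormedSpace ℂ X] [CompleteSpace X]
variable {Y : Type*} [NormedAddCommGroup Y] [NormedSpace ℂ Y] [CompleteSpace Y]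

lemma per_shift [FiniteDimensional ℂ X] [Nontrivial X] {W : X →L[ℂ] X} {l₁ l₂ : ℂ}
    (h : ∀ z, z ∈ spectrum ℂ W ↔ z = l₁ ∨ z = l₂) : per (W + (-l₂) • 1) (l₁ - l₂) := by
  have hsp : ∀ z, z ∈ spectrum ℂ (W + (-l₂) • (1 : X →L[ℂ] X)) ↔ z = l₁ - l₂ ∨ z = 0 := by
    intro z
    have e : z = (z + l₂) + (-l₂) := by ring
    rw [e, mem_spectrum_add, h]
    constructor
    · rintro (h | h)
      · left; rw [h]; ring
      · right; rw [h]; ring
    · rintro (h | h)
      · left; linear_combination h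
      · right; linear_combination h
  refine ⟨(hsp _).2 (Or.inl rfl), le_antisymm (norm_le_rr ((hsp _).2 (Or.inl rfl))) ?_⟩
  rw [rr_le_iff]
  intro z hz
  rcases (hsp z).1 hz with rfl | rfl
  · exact le_rfl
  · rw [norm_zero]; exact norm_nonneg _

omit [CompleteSpace Y] in
lemma spec_transfer [FiniteDimensional ℂ X] [Nontrivial X] [Nontrivial Y] {τ : ℂ →+* ℂ}
    {W : X →L[ℂ] X} {W' : Y →L[ℂ] Y} (hper : ∀ c z : ℂ, per (W + c • 1) z →
      per (W' + τ c • 1) (τ z)) {l₁ l₂ : ℂ}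
    (h : ∀ z, z ∈ spectrum ℂ W ↔ z = l₁ ∨ z = l₂) : τ l₁ ∈ spectrum ℂ W' := by
  have h1 := (hper _ _ (per_shift h)).1
  have e : τ (l₁ - l₂) = τ l₁ + τ (-l₂) := by rw [map_sub, map_neg]; ring
  rw [e, mem_spectrum_add] at h1
  exact h1

lemma tr_dt_transfer [FiniteDimensional ℂ X] [FiniteDimensional ℂ Y] [Nontrivial X] [Nontrivial Y]
    (bX : Module.Basis (Fin 2) ℂ X) (bY : Module.Basis (Fin 2) ℂ Y)
    {τ : ℂ →+* ℂ} [RingHomInvPair τ τ]
    {W : X →L[ℂ] X} {W' : Y →L[ℂ] Y}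
    (hper : ∀ c z : ℂ, per (W' + τ c • 1) (τ z) ↔ per (W + c • 1) z) :
    tr bY W' = τ (tr bX W) ∧ dt bY W' = τ (dt bX W) := by
  have hττ : ∀ z, τ (τ z) = z := fun z => RingHomInvPair.comp_apply_eq (σ := τ) (σ' := τ)
  obtain ⟨l₁, l₂, h1, h2, h3⟩ := exists_eigen bX W
  obtain ⟨m₁, m₂, k1, k2, k3⟩ := exists_eigen bY W'
  have a1 : τ l₁ ∈ spectrum ℂ W' := spec_transfer (fun c z => (hper c z).2) h3
  have a2 : τ l₂ ∈ spectrum ℂ W' :=
    spec_transfer (fun c z => (hper c z).2) (fun z => by rw [h3, or_comm])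
  have hper' : ∀ c z : ℂ, per (W' + c • 1) z → per (W + τ c • 1) (τ z) := by
    intro c z hz
    rw [← hper, hττ, hττ]
    exact hz
  have c1 : τ m₁ ∈ spectrum ℂ W := spec_transfer hper' k3
  have c2 : τ m₂ ∈ spectrum ℂ W := spec_transfer hper' (fun z => by rw [k3, or_comm])
  rw [h3] at c1 c2
  rw [k3] at a1 a2
  have goal : (m₁ = τ l₁ ∧ m₂ = τ l₂) ∨ (m₁ = τ l₂ ∧ m₂ = τ l₁) := by
    have c1' : m₁ = τ l₁ ∨ m₁ = τ l₂ := by
      rcases c1 with c | c
      · left; rw [← c, hττ]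
      · right; rw [← c, hττ]
    have c2' : m₂ = τ l₁ ∨ m₂ = τ l₂ := by
      rcases c2 with c | c
      · left; rw [← c, hττ]
      · right; rw [← c, hττ]
    rcases c1' with c | c <;> rcases c2' with d | d
    · rcases a2 with a | a
      · left; exact ⟨c, by rw [d, a, c]⟩
      · left; exact ⟨c, a.symm⟩
    · left; exact ⟨c, d⟩
    · right; exact ⟨c, d⟩
    · rcases a1 with a | a
      · right; exact ⟨c, by rw [d, a, c]⟩
      · right; exact ⟨c, a.symm⟩
  rw [h1, h2, k1, k2, map_add, map_mul]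
  rcases goal with ⟨rfl, rfl⟩ | ⟨rfl, rfl⟩
  · exact ⟨rfl, rfl⟩
  · exact ⟨add_comm _ _, mul_comm _ _⟩

/-- The two-dimensional case of the correspondence of rank-one idempotents. -/
theorem two_corr {τ : ℂ →+* ℂ} [RingHomInvPair τ τ] [RingHomIsometric τ]
    {φ ψ : (X →L[ℂ] X) ≃ (Y →L[ℂ] Y)} (hp : NPair τ φ ψ)
    (hX : Module.finrank ℂ X = 2) (hY : Module.finrank ℂ Y = 2)
    {ε : ℂ} (hε : ε = 1 ∨ ε = -1) (hψ : ∀ S, ψ S = ε • φ (ε • S)) :
    (∀ x f, f x = 1 → ∃ y h, Corr τ (fun T => φ T - φ 0) x f y h) ∧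
    (∀ y h, h y = 1 → ∃ x f, f x = 1 ∧ Corr τ (fun T => φ T - φ 0) x f y h) := by
  have : FiniteDimensional ℂ X := Module.finite_of_finrank_pos (by rw [hX]; norm_num)
  have : FiniteDimensional ℂ Y := Module.finite_of_finrank_pos (by rw [hY]; norm_num)
  have : Nontrivial X := Module.nontrivial_of_finrank_pos (R := ℂ) (by rw [hX]; norm_num)
  have : Nontrivial Y := Module.nontrivial_of_finrank_pos (R := ℂ) (by rw [hY]; norm_num)
  have hττ : ∀ z, τ (τ z) = z := fun z => RingHomInvPair.comp_apply_eq (σ := τ) (σ' := τ)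
  have hεε : ε * ε = 1 := by rcases hε with rfl | rfl <;> norm_num
  have hετ : τ ε = ε := by rcases hε with rfl | rfl <;> simp
  set bX : Module.Basis (Fin 2) ℂ X := Module.finBasisOfFinrankEq ℂ X hX with hbX
  set bY : Module.Basis (Fin 2) ℂ Y := Module.finBasisOfFinrankEq ℂ Y hY with hbY
  clear_value bX bY
  have hTS : ∀ T S, tr bY (φ T - ψ S) = τ (tr bX (T - S)) ∧
      dt bY (φ T - ψ S) = τ (dt bX (T - S)) := by
    intro T S
    apply tr_dt_transfer
    intro c z
    have e1 : φ T - ψ S + τ c • 1 = φ (T + c • 1) - ψ S := by rw [hp.shift₁]; abel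
    have e2 : T - S + c • 1 = T + c • 1 - S := by abel
    rw [e1, e2]
    exact hp.per _ _ _
  set Φ : (X →L[ℂ] X) → (Y →L[ℂ] Y) := fun T => φ T - φ 0 with hΦ
  set Ψ : (X →L[ℂ] X) → (Y →L[ℂ] Y) := fun S => ψ S - ψ 0 with hΨ
  have hbb : ∀ T S, bb bY (Φ T) (Ψ S) = τ (bb bX T S) := by
    intro T S
    have a1 := (hTS T S).2
    have a2 := (hTS 0 S).2
    have a3 := (hTS T 0).2
    have a4 := (hTS 0 0).2
    rw [dt_sub, dt_sub, map_sub τ, map_add τ] at a1 a2 a3 a4
    have z1 : bb bX 0 S = 0 := by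
      have := bb_sub_left bX 0 0 S
      rw [sub_self, sub_self] at this
      exact this
    have z2 : bb bX T 0 = 0 := by
      have := bb_sub_right bX T 0 0
      rw [sub_self, sub_self] at this
      exact this
    have z3 : bb bX 0 0 = 0 := by
      have := bb_sub_right bX 0 0 0
      rw [sub_self, sub_self] at this
      exact this
    have z4 : dt bX 0 = 0 := by
      have := bb_self bX 0
      rw [z3] at this
      linear_combination (-1 / 2 : ℂ) * this
    rw [z1, z4, map_zero τ] at a2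
    rw [z2, z4, map_zero τ] at a3
    rw [z3, z4, map_zero τ] at a4
    rw [hΦ, hΨ]
    simp only [bb_sub_left, bb_sub_right]
    linear_combination a2 + a3 - a1 - a4
  have hΨsurj : ∀ B, ∃ S, Ψ S = B := by
    intro B
    exact ⟨ψ.symm (B + ψ 0), by simp [hΨ]⟩
  have hΦadd : ∀ T T', Φ (T + T') = Φ T + Φ T' := by
    intro T T'
    rw [← sub_eq_zero]
    apply bb_nondeg bY
    intro B
    obtain ⟨S, rfl⟩ := hΨsurj B
    rw [bb_sub_left, bb_add_left, hbb, hbb, hbb, bb_add_left, map_add, sub_self]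
  have hΦsmul : ∀ (c : ℂ) T, Φ (c • T) = τ c • Φ T := by
    intro c T
    rw [← sub_eq_zero]
    apply bb_nondeg bY
    intro B
    obtain ⟨S, rfl⟩ := hΨsurj B
    rw [bb_sub_left, bb_smul_left, hbb, hbb, bb_smul_left, map_mul, sub_self]
  have hΨΦ : ∀ S, Ψ S = Φ S := by
    intro S
    have h1 : Ψ S = ε • Φ (ε • S) := by
      simp only [hΨ, hΦ]
      rw [hψ, hψ, smul_zero, smul_sub]
    rw [h1, hΦsmul, hετ, smul_smul, hεε, one_smul]
  have htr : ∀ T, tr bY (Φ T) = τ (tr bX T) := by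
    intro T
    have a1 := (hTS T 0).1
    have a2 := (hTS 0 0).1
    have e : Φ T = (φ T - ψ 0) - (φ 0 - ψ 0) := (sub_sub_sub_cancel_right _ _ _).symm
    rw [e, tr_sub, a1, a2, sub_zero, sub_zero, tr_zero, map_zero, sub_zero]
  have htr2 : ∀ T S, tr bY (Φ T * Φ S) = τ (tr bX (T * S)) := by
    intro T S
    have h1 := hbb T S
    rw [hΨΦ] at h1
    unfold bb at h1
    rw [htr, htr, map_sub, map_mul] at h1
    linear_combination -h1
  have hdt : ∀ T, dt bY (Φ T) = τ (dt bX T) := by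
    intro T
    have h1 := hbb T T
    rw [hΨΦ, bb_self, bb_self, map_mul, map_ofNat] at h1
    exact mul_left_cancel₀ two_ne_zero h1
  constructor
  · intro x f hfx
    obtain ⟨y, h, hhy, hA⟩ := exists_rk bY (A := Φ (rk f x))
      (by rw [htr, tr_rk', hfx, map_one]) (by rw [hdt, dt_rk, map_zero])
    refine ⟨y, h, hhy, hA, fun T => ?_⟩
    rw [← tr_rk bY, ← hA, htr2, tr_rk]
  · intro y h hhy
    obtain ⟨P, hP⟩ : ∃ P, Φ P = rk h y := ⟨φ.symm (rk h y + φ 0), by simp [hΦ]⟩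
    have h1 : tr bX P = 1 := by
      have := htr P
      rw [hP, tr_rk', hhy] at this
      rw [← hττ (tr bX P), ← this, map_one]
    have h2 : dt bX P = 0 := by
      have := hdt P
      rw [hP, dt_rk] at this
      rw [← hττ (dt bX P), ← this, map_zero]
    obtain ⟨x, f, hfx, hA⟩ := exists_rk bX h1 h2
    refine ⟨x, f, hfx, hhy, by rw [← hA]; exact hP, fun T => ?_⟩
    rw [← tr_rk bY, ← hP, htr2, hA, tr_rk]

end

end Pool.Agent.SpecRad
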