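import Pool.Agent.SpecRad.Assembly
import Pool.Agent.SpecRad.Two
import Pool.Agent.SpecRad.Converse

/-!
# Every preserver is of standard form
-/

open Filter Topology ContinuousLinearMap
open scoped ComplexConjugate

namespace Pool.Agent.SpecRad

variable {X : Type*} [NormedAddCommGroup X] [NormedSpace ℂ X] [CompleteSpace X]
variable {Y : Type*} [NormedAddCommGroup Y] [NormedSpace ℂ Y] [CompleteSpace Y]

/-- The structure of normalised pairs. -/
lemma NPair.structure [Nontrivial X] [Nontrivial Y] {τ : ℂ →+* ℂ} [RingHomInvPair τ τ]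
    [RingHomIsometric τ] {φ ψ : (X →L[ℂ] X) ≃ (Y →L[ℂ] Y)} (hp : NPair τ φ ψ) {ε : ℂ}
    (hε : ε = 1 ∨ ε = -1) (hψ : ∀ S, ψ S = ε • φ (ε • S)) :
    ((∃ A : X ≃SL[τ] Y, ∀ T x, (φ T - φ 0) (A x) = A (T x)) ∨
    (∃ A : (X →L[ℂ] ℂ) ≃SL[τ] Y, ∀ T f, (φ T - φ 0) (A f) = A (f.comp T))) ∧
    (ε = -1 → φ 0 = 0) := by
  have hcorr : (∀ x f, f x = 1 → ∃ y h, Corr τ (fun T => φ T - φ 0) x f y h) ∧
      (∀ y h, h y = 1 → ∃ x f, f x = 1 ∧ Corr τ (fun T => φ T - φ 0) x f y h) := by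
    by_cases hX : Dim3 X
    · have hY := hp.dim3 hX
      exact ⟨fun x f hfx => hp.corr_one hε hψ hX hY hfx,
        fun y h hhy => hp.corr_two hε hψ hX hY hhy⟩
    · have hY : ¬ Dim3 Y := fun hY => hX (hp.symm.dim3 hY)
      by_cases hs : ∀ T : X →L[ℂ] X, ∃ c : ℂ, T = c • 1
      · exact corr_of_scalar hp hs
      · push Not at hs
        obtain ⟨D, hD⟩ := hs
        have hYD : ∀ c : ℂ, φ D - φ 0 ≠ c • 1 := by
          intro c hc
          apply hD (τ c)
          apply φ.injective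
          have h1 := hp.shift₁ 0 (τ c)
          rw [zero_add, RingHomInvPair.comp_apply_eq (σ := τ) (σ' := τ)] at h1
          rw [h1, ← hc]; abel
        exact two_corr hp (finrank_eq_two hX hD) (finrank_eq_two hY hYD) hε hψ
  exact structure_of_corr hp hψ hcorr.1 hcorr.2

/-- The adjoint case forces reflexivity. -/
lemma reflex_of_surj [Nontrivial X] {τ : ℂ →+* ℂ} [RingHomInvPair τ τ]
    {L : (X →L[ℂ] X) → (Y →L[ℂ] Y)} (hL : Function.Surjective L)
    (A : (X →L[ℂ] ℂ) ≃SL[τ] Y) (h : ∀ T, L T = conjBy A (adjOp T)) : Reflex X := by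
  intro F
  obtain ⟨x₀, hx₀⟩ := exists_ne (0 : X)
  obtain ⟨f₀, hf₀⟩ := SeparatingDual.exists_eq_one (R := ℂ) hx₀
  obtain ⟨T, hT⟩ := hL (conjBy A (rk F f₀))
  rw [h] at hT
  have h1 : adjOp T = rk F f₀ := by
    rw [← conjBy_symm A (adjOp T), hT, conjBy_symm]
  refine ⟨T x₀, ?_⟩
  ext g
  have h2 : adjOp T g x₀ = rk F f₀ g x₀ := by rw [h1]
  change g (T x₀) = F g • f₀ x₀ at h2
  rw [hf₀, smul_eq_mul, mul_one] at h2
  exact h2

lemma forward_aux [Nontrivial X] [Nontrivial Y] {τ : ℂ →+* ℂ} [RingHomInvPair τ τ]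
    [RingHomIsometric τ] {φ ψ : (X →L[ℂ] X) ≃ (Y →L[ℂ] Y)} (h : IsPair φ ψ) {ε : ℂ}
    (hε : ε = 1 ∨ ε = -1) (hψ : ∀ S, ψ S = ε • φ (ε • S)) {α : ℂ} (hα : ‖α‖ = 1)
    (hs1 : ∀ T (c : ℂ), φ (T + c • 1) = φ T + (α * τ c) • 1)
    (hs2 : ∀ T (c : ℂ), ψ (T + c • 1) = ψ T + (α * τ c) • 1) :
    ((∃ A : X ≃SL[τ] Y, ∀ T, φ T = α • conjBy A T + φ 0) ∨
    (Reflex X ∧ ∃ A : (X →L[ℂ] ℂ) ≃SL[τ] Y, ∀ T, φ T = α • conjBy A (adjOp T) + φ 0)) ∧
    (ε = -1 → φ 0 = 0) := by
  have hα0 : α ≠ 0 := by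
    intro h; rw [h, norm_zero] at hα; exact zero_ne_one hα
  set u : ℂˣ := (Units.mk0 α hα0)⁻¹ with hu
  have huα : ∀ T : Y →L[ℂ] Y, u • T = α⁻¹ • T := fun T => rfl
  set φ' : (X →L[ℂ] X) ≃ (Y →L[ℂ] Y) := φ.trans (MulAction.toPerm u) with hφ'
  set ψ' : (X →L[ℂ] X) ≃ (Y →L[ℂ] Y) := ψ.trans (MulAction.toPerm u) with hψ'
  have e1 : ∀ T, φ' T = α⁻¹ • φ T := fun T => rfl
  have e2 : ∀ T, ψ' T = α⁻¹ • ψ T := fun T => rfl
  have hp : NPair τ φ' ψ' := by
    refine ⟨fun T S => ?_, fun T c => ?_, fun T c => ?_⟩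
    · rw [e1, e2, ← smul_sub, rr_smul_unimod (by rw [norm_inv, hα, inv_one]), h]
    · rw [e1, e1, hs1, smul_add, smul_smul, inv_mul_cancel_left₀ hα0]
    · rw [e2, e2, hs2, smul_add, smul_smul, inv_mul_cancel_left₀ hα0]
  have hψ'' : ∀ S, ψ' S = ε • φ' (ε • S) := by
    intro S
    rw [e1, e2, hψ, smul_comm]
  have hφe : ∀ T, φ T = α • (φ' T - φ' 0) + φ 0 := by
    intro T
    rw [e1, e1, ← smul_sub, smul_smul, mul_inv_cancel₀ hα0, one_smul]; abel
  obtain ⟨hstr, h0⟩ := hp.structure hε hψ''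
  refine ⟨?_, ?_⟩
  · rcases hstr with ⟨A, hA⟩ | ⟨A, hA⟩
    · left
      refine ⟨A, fun T => ?_⟩
      have h1 : φ' T - φ' 0 = conjBy A T := by
        ext y
        obtain ⟨x, rfl⟩ := A.surjective y
        rw [hA, conjBy_apply, ContinuousLinearEquiv.symm_apply_apply]
      rw [← h1]
      exact hφe T
    · right
      have h1 : ∀ T, φ' T - φ' 0 = conjBy A (adjOp T) := by
        intro T
        ext y
        obtain ⟨x, rfl⟩ := A.surjective y
        rw [hA, conjBy_apply, ContinuousLinearEquiv.symm_apply_apply]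
        rfl
      refine ⟨?_, A, fun T => ?_⟩
      · apply reflex_of_surj (L := fun T => φ' T - φ' 0) ?_ A h1
        intro W
        obtain ⟨T, hT⟩ := φ'.surjective (W + φ' 0)
        exact ⟨T, by simp only; rw [hT]; abel⟩
      · rw [← h1]
        exact hφe T
  · intro hε'
    have h2 := h0 hε'
    rw [e1] at h2
    exact (smul_eq_zero.1 h2).resolve_left (inv_ne_zero hα0)

omit [CompleteSpace X] in
lemma rr_of_subsingleton [Subsingleton X] (T : X →L[ℂ] X) : rr T = 0 := by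
  have : spectralRadius ℂ T = 0 := by
    unfold spectralRadius
    have h : spectrum ℂ T = ∅ := spectrum.of_subsingleton T
    rw [h]; simp
  rw [rr, this]; rfl

/-- Every preserver is of standard form. -/
theorem forward {φ : (X →L[ℂ] X) → (Y →L[ℂ] Y)} (hs : Function.Surjective φ) {ε : ℂ}
    (hε : ε = 1 ∨ ε = -1) (h : ∀ T S, rr (φ T - ε • φ (ε • S)) = rr (T - S)) :
    ∃ α : ℂ, ‖α‖ = 1 ∧ StdForm φ α (φ 0) ∧ (ε = -1 → φ 0 = 0) := by
  have hεε : ε * ε = 1 := by rcases hε with rfl | rfl <;> norm_num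
  rcases subsingleton_or_nontrivial X with hX | hX
  · -- trivial X
    have hY : Subsingleton Y := by
      have h1 : ∀ W : Y →L[ℂ] Y, W = φ 0 := by
        intro W
        obtain ⟨T, hT⟩ := hs W
        rw [← hT, Subsingleton.elim T 0]
      have h2 : (1 : Y →L[ℂ] Y) = 0 := (h1 1).trans (h1 0).symm
      refine ⟨fun a b => ?_⟩
      have ha : a = 0 := by
        have := congrArg (fun B : Y →L[ℂ] Y => B a) h2
        exact this
      have hb : b = 0 := by
        have := congrArg (fun B : Y →L[ℂ] Y => B b) h2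
        exact this
      rw [ha, hb]
    refine ⟨1, norm_one, Or.inl ⟨?_, fun T => Subsingleton.elim _ _⟩,
      fun _ => Subsingleton.elim _ _⟩
    exact
      { toFun := fun _ => 0
        invFun := fun _ => 0
        map_add' := fun _ _ => Subsingleton.elim _ _
        map_smul' := fun _ _ => Subsingleton.elim _ _
        left_inv := fun _ => Subsingleton.elim _ _
        right_inv := fun _ => Subsingleton.elim _ _
        continuous_toFun := continuous_const
        continuous_invFun := continuous_const }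
  · have hY : Nontrivial Y := by
      by_contra hcon
      rw [not_nontrivial_iff_subsingleton] at hcon
      have h1 := h 1 0
      rw [rr_of_subsingleton, sub_zero] at h1
      have h2 : rr (1 : X →L[ℂ] X) = 1 := by
        have := rr_smul_one (X := X) 1
        rwa [one_smul, norm_one] at this
      rw [h2] at h1
      exact zero_ne_one h1
    have hφi : Function.Injective φ := injective_of_pair (ψ := fun S => ε • φ (ε • S)) h
    have hψb : Function.Bijective (fun S => ε • φ (ε • S)) := by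
      constructor
      · intro S S' hSS
        simp only at hSS
        have h1 := congrArg (fun W => ε • W) hSS
        simp only [smul_smul, hεε, one_smul] at h1
        have h2 := congrArg (fun W => ε • W) (hφi h1)
        simpa only [smul_smul, hεε, one_smul] using h2
      · intro W
        obtain ⟨T, hT⟩ := hs (ε • W)
        refine ⟨ε • T, ?_⟩
        simp only [smul_smul, hεε, one_smul]
        rw [hT, smul_smul, hεε, one_smul]
    set e₁ : (X →L[ℂ] X) ≃ (Y →L[ℂ] Y) := Equiv.ofBijective φ ⟨hφi, hs⟩ with he₁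
    set e₂ : (X →L[ℂ] X) ≃ (Y →L[ℂ] Y) := Equiv.ofBijective _ hψb with he₂
    have hpair : IsPair e₁ e₂ := h
    have hψ : ∀ S, e₂ S = ε • e₁ (ε • S) := fun S => rfl
    obtain ⟨g, hg, hg0, hs1, hs2⟩ := hpair.exists_shift
    -- `g` is a real linear isometry
    set L : ℂ →ₗᵢ[ℝ] ℂ := (hg.affineIsometryOfStrictConvexSpace).linearIsometry with hL
    have hgL : ∀ c, g c = L c := by
      intro c
      have h1 := (hg.affineIsometryOfStrictConvexSpace).map_vadd 0 c
      simp only [Isometry.affineIsometryOfStrictConvexSpace_apply, vadd_eq_add, add_zero, hg0] at h1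
      exact h1
    set L' : ℂ ≃ₗᵢ[ℝ] ℂ := L.toLinearIsometryEquiv rfl with hL'
    have hgL' : ∀ c, g c = L' c := fun c => by rw [hgL]; rfl
    obtain ⟨a, ha⟩ := linear_isometry_complex L'
    have ha1 : ‖(a : ℂ)‖ = 1 := Circle.norm_coe a
    rcases ha with ha | ha
    · have hgc : ∀ c, g c = (a : ℂ) * (RingHom.id ℂ) c := by
        intro c
        rw [hgL', ha, rotation_apply]; rfl
      obtain ⟨h1, h2⟩ := forward_aux (τ := RingHom.id ℂ) hpair hε hψ ha1
        (fun T c => by rw [hs1, hgc]) (fun T c => by rw [hs2, hgc])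
      refine ⟨a, ha1, ?_, h2⟩
      rcases h1 with ⟨A, hA⟩ | ⟨hr, A, hA⟩
      · exact Or.inl ⟨A, hA⟩
      · exact Or.inr (Or.inr (Or.inl ⟨hr, A, hA⟩))
    · have hgc : ∀ c, g c = (a : ℂ) * (starRingEnd ℂ) c := by
        intro c
        rw [hgL', ha]
        simp [rotation_apply]
      obtain ⟨h1, h2⟩ := forward_aux (τ := starRingEnd ℂ) hpair hε hψ ha1
        (fun T c => by rw [hs1, hgc]) (fun T c => by rw [hs2, hgc])
      refine ⟨a, ha1, ?_, h2⟩
      rcases h1 with ⟨A, hA⟩ | ⟨hr, A, hA⟩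
      · exact Or.inr (Or.inl ⟨A, hA⟩)
      · exact Or.inr (Or.inr (Or.inr ⟨hr, A, hA⟩))

/-- The full answer. -/
theorem main_theorem (φ : (X →L[ℂ] X) → (Y →L[ℂ] Y)) :
    ((Function.Surjective φ ∧
        ∀ T S, spectralRadius ℂ (φ T - φ S) = spectralRadius ℂ (T - S)) ↔
      ∃ (α : ℂ) (B : Y →L[ℂ] Y), ‖α‖ = 1 ∧ StdForm φ α B) ∧
    ((Function.Surjective φ ∧
        ∀ T S, spectralRadius ℂ (φ T + φ S) = spectralRadius ℂ (T + S)) ↔
      ∃ α : ℂ, ‖α‖ = 1 ∧ StdForm φ α 0) := by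
  refine ⟨⟨?_, ?_⟩, ⟨?_, ?_⟩⟩
  · rintro ⟨hs, h⟩
    obtain ⟨α, hα, hstd, -⟩ := forward hs (ε := 1) (Or.inl rfl) (fun T S => by
      rw [one_smul, one_smul, rr_eq_iff]; exact h T S)
    exact ⟨α, φ 0, hα, hstd⟩
  · rintro ⟨α, B, hα, hstd⟩
    exact hstd.sub hα
  · rintro ⟨hs, h⟩
    obtain ⟨α, hα, hstd, h0⟩ := forward hs (ε := -1) (Or.inr rfl) (fun T S => by
      rw [rr_eq_iff]
      have := h T (-S)
      rw [← sub_eq_add_neg] at this
      rw [neg_smul, one_smul, neg_smul, one_smul, sub_neg_eq_add]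
      exact this)
    rw [h0 rfl] at hstd
    exact ⟨α, hα, hstd⟩
  · rintro ⟨α, hα, hstd⟩
    exact hstd.add hα

end Pool.Agent.SpecRad
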