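import Pool.Agent.SpecRad.Rank

/-!
# Images of rank-one lines
-/

open Filter Topology ContinuousLinearMap
open scoped ComplexConjugate

namespace Pool.Agent.SpecRad

variable {X : Type*} [NormedAddCommGroup X] [NormedSpace ℂ X] [CompleteSpace X]
variable {Y : Type*} [NormedAddCommGroup Y] [NormedSpace ℂ Y] [CompleteSpace Y]

/-- Dimension at least three. -/
def Dim3 (X : Type*) [NormedAddCommGroup X] [NormedSpace ℂ X] : Prop :=
  ∃ v : Fin 3 → X, LinearIndependent ℂ v

omit [CompleteSpace X] in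
lemma rk_of_range_line {D : X →L[ℂ] X} {v : X} (hv : v ≠ 0) (h : ∀ u, ∃ β : ℂ, D u = β • v) :
    ∃ f, D = rk f v := by
  obtain ⟨k, hk⟩ := SeparatingDual.exists_eq_one (R := ℂ) hv
  refine ⟨k.comp D, ?_⟩
  ext u
  obtain ⟨β, hβ⟩ := h u
  change D u = k (D u) • v
  rw [hβ, map_smul, hk, smul_eq_mul, mul_one]

omit [CompleteSpace X] in
lemma indep3 {x y w : X} (h : LinearIndependent ℂ ![x, w])
    (hy : y ∉ Submodule.span ℂ {x, w}) : LinearIndependent ℂ ![y, x, w] := by
  have h1 : LinearIndependent ℂ (Fin.cons y ![x, w] : Fin 3 → X) := by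
    rw [linearIndependent_finCons]
    refine ⟨h, ?_⟩
    rw [Matrix.range_cons_cons_empty]
    exact hy
  exact h1

omit [CompleteSpace X] in
lemma Dim3.exists_notMem (h : Dim3 X) (x w : X) : ∃ u, u ∉ Submodule.span ℂ {x, w} := by
  by_contra hcon
  push Not at hcon
  obtain ⟨v, hv⟩ := h
  have htop : Submodule.span ℂ ({x, w} : Set X) = ⊤ := by
    rw [eq_top_iff]; intro u _; exact hcon u
  classical
  have h1 := linearIndependent_le_span_finset v hv {x, w} (by rw [← htop]; simp)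
  have h2 : (({x, w} : Finset X).card : Cardinal) ≤ 2 := by
    exact_mod_cast Finset.card_le_two
  have h3 := h1.trans h2
  rw [Cardinal.mk_fin] at h3
  norm_num at h3

omit [CompleteSpace X] in
lemma exists_xy {D : X →L[ℂ] X} (h3 : Dim3 X) (hD : ∀ c : ℂ, D ≠ c • 1)
    (hr : ∀ h y, D ≠ rk h y) :
    ∃ x y, LinearIndependent ℂ ![y, x, D x] ∧ LinearIndependent ℂ ![D y, x, D x] := by
  -- Claim A
  obtain ⟨x, hx, u, hu⟩ : ∃ x, LinearIndependent ℂ ![x, D x] ∧
      ∃ u, D u ∉ Submodule.span ℂ {x, D x} := by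
    obtain ⟨x₀, hx₀⟩ := exists_pair_of_nonscalar hD
    by_cases hcase : ∃ u, D u ∉ Submodule.span ℂ {x₀, D x₀}
    · exact ⟨x₀, hx₀, hcase⟩
    · push Not at hcase
      obtain ⟨w₀, hw₀⟩ := h3.exists_notMem x₀ (D x₀)
      have hDx0 : D x₀ ≠ 0 := by
        intro h0
        rw [LinearIndependent.pair_iff] at hx₀
        exact one_ne_zero (hx₀ 0 1 (by rw [h0]; simp)).2
      -- choose the sign
      obtain ⟨w, hw, hDw⟩ : ∃ w, w ∉ Submodule.span ℂ {x₀, D x₀} ∧ D (x₀ + w) ≠ 0 := by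
        by_cases hs : D (x₀ + w₀) = 0
        · refine ⟨-w₀, fun h => hw₀ (by simpa using Submodule.neg_mem _ h), ?_⟩
          intro hs'
          rw [map_add] at hs hs'
          rw [map_neg] at hs'
          have h2 : (2 : ℂ) • D x₀ = 0 := by
            calc (2 : ℂ) • D x₀ = (D x₀ + D w₀) + (D x₀ + -D w₀) := by rw [two_smul]; abel
              _ = 0 := by rw [hs, hs', add_zero]
          exact hDx0 ((smul_eq_zero.1 h2).resolve_left two_ne_zero)
        · exact ⟨w₀, hw₀, hs⟩
      have hx0mem : x₀ ∈ Submodule.span ℂ {x₀, D x₀} := Submodule.subset_span (by simp)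
      have hxn : x₀ + w ∉ Submodule.span ℂ {x₀, D x₀} := by
        intro h
        apply hw
        have := Submodule.sub_mem _ h hx0mem
        rwa [add_sub_cancel_left] at this
      have hα : ∀ (α : ℂ) (e : X), e ∈ Submodule.span ℂ {x₀, D x₀} →
          α • (x₀ + w) + e ∈ Submodule.span ℂ {x₀, D x₀} → α = 0 := by
        intro α e he h
        by_contra hα
        apply hxn
        have h2 := Submodule.sub_mem _ h he
        rw [add_sub_cancel_right] at h2
        exact (Submodule.smul_mem_iff _ hα).1 h2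
      refine ⟨x₀ + w, ?_, ?_⟩
      · rw [LinearIndependent.pair_iff]
        intro s t hst
        have hs : s = 0 := hα s (t • D (x₀ + w)) (Submodule.smul_mem _ _ (hcase _))
          (by rw [hst]; exact Submodule.zero_mem _)
        rw [hs, zero_smul, zero_add] at hst
        exact ⟨hs, (smul_eq_zero.1 hst).resolve_right hDw⟩
      · by_contra hcon
        push Not at hcon
        obtain ⟨f, hf⟩ := rk_of_range_line hDw (D := D) (fun u => by
          obtain ⟨α, β, hαβ⟩ := Submodule.mem_span_pair.1 (hcon u)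
          have h0 : α = 0 := hα α (β • D (x₀ + w)) (Submodule.smul_mem _ _ (hcase _))
            (by rw [hαβ]; exact hcase u)
          refine ⟨β, ?_⟩
          rw [← hαβ, h0, zero_smul, zero_add])
        exact hr _ _ hf
  obtain ⟨w, hw⟩ := h3.exists_notMem x (D x)
  obtain ⟨y, hy1, hy2⟩ : ∃ y, y ∉ Submodule.span ℂ {x, D x} ∧
      D y ∉ Submodule.span ℂ {x, D x} := by
    by_cases h1 : u ∈ Submodule.span ℂ {x, D x}
    · by_cases h2 : D w ∈ Submodule.span ℂ {x, D x}
      · refine ⟨u + w, fun h => hw ?_, fun h => hu ?_⟩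
        · have := Submodule.sub_mem _ h h1
          rwa [add_sub_cancel_left] at this
        · rw [map_add] at h
          have := Submodule.sub_mem _ h h2
          rwa [add_sub_cancel_right] at this
      · exact ⟨w, hw, h2⟩
    · exact ⟨u, h1, hu⟩
  exact ⟨x, y, indep3 hx hy1, indep3 hx hy2⟩

/-- The three-point property forces rank one. -/
lemma PP.rank_one {D : X →L[ℂ] X} (h3 : Dim3 X) (hD : ∀ c : ℂ, D ≠ c • 1) {t : ℂ}
    (ht : t ∈ Complex.slitPlane) (ht1 : 1 - t ∈ Complex.slitPlane) (hP : PP 0 D (t • D)) :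
    ∃ h y, D = rk h y := by
  by_contra hcon
  push Not at hcon
  obtain ⟨x, y, h1, h2⟩ := exists_xy h3 hD hcon
  exact hP.rank_two ht ht1 h1 h2

/-- Three collinear points with all three-point properties. -/
lemma rank_one_of_three {D : X →L[ℂ] X} (h3 : Dim3 X) (hD : ∀ c : ℂ, D ≠ c • 1) {t : ℂ}
    (ht0 : t ≠ 0) (ht1 : t ≠ 1) (hP1 : PP 0 D (t • D)) (hP2 : PP 0 (t • D) D)
    (hP3 : PP D (t • D) 0) : ∃ h y, D = rk h y := by
  by_cases h1 : t ∈ Complex.slitPlane
  · by_cases h2 : 1 - t ∈ Complex.slitPlane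
    · exact hP1.rank_one h3 hD h1 h2
    · -- `t` real, `t > 1`
      have hne : 1 - t ≠ 0 := sub_ne_zero.2 (Ne.symm ht1)
      rw [Complex.mem_slitPlane_iff, not_or, not_not, not_lt, Complex.sub_im, Complex.one_im,
        zero_sub, neg_eq_zero, Complex.sub_re, Complex.one_re] at h2
      obtain ⟨h2a, h2b⟩ := h2
      have hre : t.re ≠ 1 := by
        intro h; apply ht1; apply Complex.ext <;> simp [h, h2b]
      have hgt : 1 < t.re := lt_of_le_of_ne (by linarith) (Ne.symm hre)
      have htD : ∀ c : ℂ, t • D ≠ c • 1 := by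
        intro c hc
        apply hD (t⁻¹ * c)
        rw [mul_smul, ← hc, smul_smul, inv_mul_cancel₀ ht0, one_smul]
      have hteq : t = (t.re : ℂ) := by apply Complex.ext <;> simp [h2b]
      have hinv : t⁻¹ = ((t.re)⁻¹ : ℝ) := by
        conv_lhs => rw [hteq]
        push_cast; rfl
      have hpos : 0 < t.re := by linarith
      have hlt : (t.re)⁻¹ < 1 := inv_lt_one_of_one_lt₀ hgt
      have hP2' : PP 0 (t • D) (t⁻¹ • (t • D)) := by
        rw [smul_smul, inv_mul_cancel₀ ht0, one_smul]; exact hP2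
      obtain ⟨h, y, hy⟩ := hP2'.rank_one h3 htD
        (by rw [hinv, Complex.mem_slitPlane_iff, Complex.ofReal_re]; left; positivity)
        (by
          rw [hinv, Complex.mem_slitPlane_iff, Complex.sub_re, Complex.ofReal_re, Complex.one_re]
          left; linarith)
      refine ⟨h, t⁻¹ • y, ?_⟩
      have : D = t⁻¹ • (t • D) := by rw [smul_smul, inv_mul_cancel₀ ht0, one_smul]
      rw [this, hy]
      ext v
      change t⁻¹ • (h v • y) = h v • (t⁻¹ • y)
      rw [smul_comm]
  · -- `t` real negative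
    rw [Complex.mem_slitPlane_iff, not_or, not_not, not_lt] at h1
    obtain ⟨h1a, h1b⟩ := h1
    have hre : t.re ≠ 0 := by
      intro h; apply ht0; apply Complex.ext <;> simp [h, h1b]
    have hneg : t.re < 0 := lt_of_le_of_ne h1a hre
    have hteq : t = (t.re : ℂ) := by apply Complex.ext <;> simp [h1b]
    have ht10 : t - 1 ≠ 0 := sub_ne_zero.2 ht1
    have htD : ∀ c : ℂ, (t - 1) • D ≠ c • 1 := by
      intro c hc
      apply hD ((t - 1)⁻¹ * c)
      rw [mul_smul, ← hc, smul_smul, inv_mul_cancel₀ ht10, one_smul]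
    set r : ℝ := (1 - t.re)⁻¹ with hr
    have hr0 : 0 < r := inv_pos.2 (by linarith)
    have hr1 : r < 1 := inv_lt_one_of_one_lt₀ (by linarith)
    have hrt : (r : ℂ) * (t - 1) = -1 := by
      have h1 : (1 - t.re : ℝ) ≠ 0 := by linarith
      have h2 : r * (t.re - 1) = -1 := by
        rw [hr]
        have : t.re - 1 = -(1 - t.re) := by ring
        rw [this, mul_neg, inv_mul_cancel₀ h1]
      rw [hteq]
      exact_mod_cast h2
    have hP3' : PP 0 ((t - 1) • D) ((r : ℂ) • ((t - 1) • D)) := by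
      have := hP3.translate (-D)
      have e1 : D + -D = 0 := by abel
      have e2 : t • D + -D = (t - 1) • D := by rw [sub_smul, one_smul]; abel
      have e3 : 0 + -D = (r : ℂ) • ((t - 1) • D) := by
        rw [smul_smul, hrt, neg_smul, one_smul, zero_add]
      rwa [e1, e2, e3] at this
    obtain ⟨h, y, hy⟩ := hP3'.rank_one h3 htD
      (by rw [Complex.mem_slitPlane_iff, Complex.ofReal_re]; left; positivity)
      (by
        rw [Complex.mem_slitPlane_iff, Complex.sub_re, Complex.ofReal_re, Complex.one_re]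
        left; linarith)
    refine ⟨h, (t - 1)⁻¹ • y, ?_⟩
    have : D = (t - 1)⁻¹ • ((t - 1) • D) := by
      rw [smul_smul, inv_mul_cancel₀ ht10, one_smul]
    rw [this, hy]
    ext v
    change (t - 1)⁻¹ • (h v • y) = h v • ((t - 1)⁻¹ • y)
    rw [smul_comm]

omit [CompleteSpace X] in
lemma Dim3.nontrivial (h : Dim3 X) : Nontrivial X := by
  obtain ⟨v, hv⟩ := h
  exact ⟨v 0, 0, hv.ne_zero 0⟩

omit [CompleteSpace X] in
/-- A rank-one operator is not scalar in dimension at least two (here three). -/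
lemma rk_ne_scalar (h3 : Dim3 X) {f : X →L[ℂ] ℂ} {x : X} (hfx : f x = 1) (c a : ℂ) (ha : a ≠ 0) :
    a • rk f x ≠ c • 1 := by
  intro h
  have hx : x ≠ 0 := by
    intro h0; rw [h0, map_zero] at hfx; exact zero_ne_one hfx
  obtain ⟨u, hu⟩ := h3.exists_notMem x x
  have hu0 : f (u - f u • x) = 0 := by
    rw [map_sub, map_smul, hfx, smul_eq_mul, mul_one, sub_self]
  have h1 : a • (f x • x) = c • x := congrArg (fun B : X →L[ℂ] X => B x) h
  rw [hfx, one_smul] at h1
  have hac : a = c := smul_left_injective ℂ hx h1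
  have h2 : a • (f (u - f u • x) • x) = c • (u - f u • x) :=
    congrArg (fun B : X →L[ℂ] X => B (u - f u • x)) h
  rw [hu0, zero_smul, smul_zero, ← hac] at h2
  have h3 := (smul_eq_zero.1 h2.symm).resolve_left ha
  apply hu
  rw [sub_eq_zero] at h3
  rw [h3]
  exact Submodule.smul_mem _ _ (Submodule.subset_span (by simp))

/-- The image of a rank-one line through a point. -/
lemma NPair.line {τ : ℂ →+* ℂ} [RingHomInvPair τ τ] [RingHomIsometric τ]
    {φ ψ : (X →L[ℂ] X) ≃ (Y →L[ℂ] Y)} (hp : NPair τ φ ψ) (hX : Dim3 X) (hY : Dim3 Y)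
    (T₀ : X →L[ℂ] X) {f : X →L[ℂ] ℂ} {x : X} (hfx : f x = 1) :
    ∃ (h : Y →L[ℂ] ℂ) (y : Y), ∀ z : ℂ, ∃ b : ℂ, φ (T₀ + z • rk f x) = φ T₀ + b • rk h y := by
  have := hX.nontrivial
  have := hY.nontrivial
  -- nonscalar differences
  have hns : ∀ T S : X →L[ℂ] X, (∀ c : ℂ, T - S ≠ c • 1) → ∀ c : ℂ, φ T - φ S ≠ c • 1 := by
    intro T S h c hc
    apply h (τ c)
    have h1 : φ T = φ (S + τ c • 1) := by
      rw [hp.shift₁, RingHomInvPair.comp_apply_eq (σ := τ) (σ' := τ), ← hc]; abel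
    rw [φ.injective h1]; abel
  have hPP : ∀ a b c : ℂ, a ≠ b → PP (φ (T₀ + a • rk f x)) (φ (T₀ + b • rk f x))
      (φ (T₀ + c • rk f x)) := fun a b c hab => hp.swap.pp (PP_line hab c)
  set D : Y →L[ℂ] Y := φ (T₀ + (1 : ℂ) • rk f x) - φ T₀ with hDdef
  have hT0 : φ (T₀ + (0 : ℂ) • rk f x) = φ T₀ := by rw [zero_smul, add_zero]
  have hD : ∀ c : ℂ, D ≠ c • 1 := by
    apply hns
    intro c
    rw [add_sub_cancel_left]
    exact rk_ne_scalar hX hfx c 1 one_ne_zero
  have hlin : ∀ z : ℂ, ∃ b : ℂ, φ (T₀ + z • rk f x) - φ T₀ = b • D := by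
    intro z
    have h1 := (hPP 0 1 z zero_ne_one).translate (-φ T₀)
    rw [hT0, ← sub_eq_add_neg, ← sub_eq_add_neg, ← sub_eq_add_neg, sub_self] at h1
    exact line_of_test hD (fun v k hk1 hk2 => h1.test hk1 hk2)
  obtain ⟨t, ht⟩ := hlin 2
  have h2ne : (2 : ℂ) ≠ 0 := two_ne_zero
  have inj : ∀ a b : ℂ, a ≠ b → φ (T₀ + a • rk f x) ≠ φ (T₀ + b • rk f x) := by
    intro a b hab h
    have h1 := add_left_cancel (φ.injective h)
    have h2 : (a - b) • rk f x = (0 : ℂ) • 1 := by rw [sub_smul, h1, sub_self, zero_smul]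
    exact rk_ne_scalar hX hfx 0 (a - b) (sub_ne_zero.2 hab) h2
  have ht0 : t ≠ 0 := by
    intro h
    rw [h, zero_smul, sub_eq_zero, ← hT0] at ht
    exact inj 2 0 h2ne ht
  have ht1 : t ≠ 1 := by
    intro h
    rw [h, one_smul, hDdef] at ht
    exact inj 2 1 (by norm_num) (sub_left_injective ht)
  obtain ⟨h, y, hy⟩ := rank_one_of_three hY hD ht0 ht1
    (by
      have h1 := (hPP 0 1 2 zero_ne_one).translate (-φ T₀)
      rwa [hT0, ← sub_eq_add_neg, ← sub_eq_add_neg, ← sub_eq_add_neg, sub_self, ht] at h1)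
    (by
      have h1 := (hPP 0 2 1 (Ne.symm h2ne)).translate (-φ T₀)
      rwa [hT0, ← sub_eq_add_neg, ← sub_eq_add_neg, ← sub_eq_add_neg, sub_self, ht] at h1)
    (by
      have h1 := (hPP 1 2 0 (by norm_num)).translate (-φ T₀)
      rwa [hT0, ← sub_eq_add_neg, ← sub_eq_add_neg, ← sub_eq_add_neg, sub_self, ht] at h1)
  refine ⟨h, y, fun z => ?_⟩
  obtain ⟨b, hb⟩ := hlin z
  exact ⟨b, by rw [← hy, ← hb]; abel⟩

end Pool.Agent.SpecRad
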