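import Pool.Agent.SpecRad.Pair

/-!
# Normalised pairs: peripheral spectrum and the three-point property
-/

open Filter Topology ContinuousLinearMap
open scoped ComplexConjugate

namespace Pool.Agent.SpecRad

variable {X : Type*} [NormedAddCommGroup X] [NormedSpace ℂ X] [CompleteSpace X]
variable {Y : Type*} [NormedAddCommGroup Y] [NormedSpace ℂ Y] [CompleteSpace Y]

/-- Normalised pair. -/
structure NPair (τ : ℂ →+* ℂ) (φ ψ : (X →L[ℂ] X) ≃ (Y →L[ℂ] Y)) : Prop where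
  eq : ∀ T S, rr (φ T - ψ S) = rr (T - S)
  shift₁ : ∀ T (c : ℂ), φ (T + c • 1) = φ T + τ c • 1
  shift₂ : ∀ T (c : ℂ), ψ (T + c • 1) = ψ T + τ c • 1

section

variable {τ : ℂ →+* ℂ} {φ ψ : (X →L[ℂ] X) ≃ (Y →L[ℂ] Y)}

lemma NPair.swap [Nontrivial X] [Nontrivial Y] (h : NPair τ φ ψ) : NPair τ ψ φ :=
  ⟨IsPair.swap h.eq, h.shift₂, h.shift₁⟩

lemma NPair.symm [RingHomInvPair τ τ] (h : NPair τ φ ψ) : NPair τ φ.symm ψ.symm := by
  refine ⟨IsPair.symm h.eq, fun T c => ?_, fun T c => ?_⟩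
  · rw [Equiv.symm_apply_eq, h.shift₁, Equiv.apply_symm_apply, RingHomInvPair.comp_apply_eq]
  · rw [Equiv.symm_apply_eq, h.shift₂, Equiv.apply_symm_apply, RingHomInvPair.comp_apply_eq]

lemma NPair.per [Nontrivial X] [Nontrivial Y] [RingHomIsometric τ] (h : NPair τ φ ψ)
    (T S : X →L[ℂ] X) (z : ℂ) : per (φ T - ψ S) (τ z) ↔ per (T - S) z := by
  rw [per_iff, per_iff]
  have e1 : φ T - ψ S + τ z • 1 = φ (T + z • 1) - ψ S := by
    rw [h.shift₁]; abel
  have e2 : T + z • 1 - S = T - S + z • 1 := by abel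
  rw [e1, h.eq, h.eq, e2, RingHomIsometric.norm_map]

/-- The three-point property. -/
def PP (A B R : X →L[ℂ] X) : Prop :=
  ∀ (T : X →L[ℂ] X) (z : ℂ), per (T - A) z → per (T - B) z → ‖z‖ ≤ rr (T - R)

lemma NPair.pp [Nontrivial X] [Nontrivial Y] [RingHomInvPair τ τ] [RingHomIsometric τ]
    (h : NPair τ φ ψ) {A B R : X →L[ℂ] X} (hP : PP A B R) : PP (ψ A) (ψ B) (ψ R) := by
  intro T' z' h1 h2
  obtain ⟨T, rfl⟩ := φ.surjective T'
  have hz : z' = τ (τ z') := (RingHomInvPair.comp_apply_eq (σ := τ) (σ' := τ)).symm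
  rw [hz, h.per] at h1 h2
  rw [h.eq]
  have := hP T (τ z') h1 h2
  rwa [RingHomIsometric.norm_map] at this

omit [CompleteSpace X] in
lemma PP.translate {A B R : X →L[ℂ] X} (h : PP A B R) (K : X →L[ℂ] X) :
    PP (A + K) (B + K) (R + K) := by
  intro T z h1 h2
  have e : ∀ A : X →L[ℂ] X, T - (A + K) = (T - K) - A := fun A => by abel
  rw [e] at h1 h2 ⊢
  exact h (T - K) z h1 h2

omit [CompleteSpace X] in
lemma PP.comm {A B R : X →L[ℂ] X} (h : PP A B R) : PP B A R :=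
  fun T z h1 h2 => h T z h2 h1

omit [CompleteSpace X] in
/-- Rank-one perturbations: invertibility of `1 + z (rk f x)`. -/
lemma isUnit_one_add_rk {f : X →L[ℂ] ℂ} {x : X} {z : ℂ} (h : 1 + z * f x ≠ 0) :
    IsUnit ((1 : X →L[ℂ] X) + z • rk f x) := by
  set c : ℂ := (1 + z * f x)⁻¹ with hc
  have hc1 : c * (1 + z * f x) = 1 := inv_mul_cancel₀ h
  have hsq : rk f x * rk f x = f x • rk f x := by
    ext v
    change f (f v • x) • x = f x • (f v • x)
    rw [map_smul, smul_eq_mul, mul_comm, mul_smul]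
  have e1 : ((1 : X →L[ℂ] X) + z • rk f x) * (1 - (c * z) • rk f x) = 1 := by
    have : ((1 : X →L[ℂ] X) + z • rk f x) * (1 - (c * z) • rk f x)
        = 1 + (z - c * z - z * (c * z) * f x) • rk f x := by
      rw [add_mul, mul_sub, one_mul, one_mul, smul_mul_assoc, mul_sub, mul_one, mul_smul_comm,
        hsq]
      module
    rw [this]
    have h0 : z - c * z - z * (c * z) * f x = 0 := by
      linear_combination (-z) * hc1
    rw [h0, zero_smul, add_zero]
  have e2 : (1 - (c * z) • rk f x) * ((1 : X →L[ℂ] X) + z • rk f x) = 1 := by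
    have : (1 - (c * z) • rk f x) * ((1 : X →L[ℂ] X) + z • rk f x)
        = 1 + (z - c * z - z * (c * z) * f x) • rk f x := by
      rw [sub_mul, mul_add, one_mul, one_mul, smul_mul_assoc, mul_add, mul_one, mul_smul_comm,
        hsq]
      module
    rw [this]
    have h0 : z - c * z - z * (c * z) * f x = 0 := by
      linear_combination (-z) * hc1
    rw [h0, zero_smul, add_zero]
  exact ⟨⟨_, _, e1, e2⟩, rfl⟩

/-- Points of a rank-one line satisfy the three-point property. -/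
lemma PP_line {T₀ : X →L[ℂ] X} {f : X →L[ℂ] ℂ} {x : X} {a b : ℂ} (hab : a ≠ b) (c : ℂ) :
    PP (T₀ + a • rk f x) (T₀ + b • rk f x) (T₀ + c • rk f x) := by
  intro T z h1 h2
  apply norm_le_rr
  by_contra hcon
  rw [mem_spectrum_iff, not_not] at hcon
  obtain ⟨U, hU⟩ := hcon
  -- `z - (T - T₀ - a P) = U + (a - c) P = U (1 + (a-c) U⁻¹ P)`
  have key : ∀ a : ℂ, 1 + (a - c) * f ((U⁻¹ : (X →L[ℂ] X)ˣ).val x) ≠ 0 →
      z ∉ spectrum ℂ (T - (T₀ + a • rk f x)) := by
    intro a ha hmem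
    rw [mem_spectrum_iff] at hmem
    apply hmem
    have e1 : (U⁻¹ : (X →L[ℂ] X)ˣ).val * rk f x = rk f ((U⁻¹ : (X →L[ℂ] X)ˣ).val x) := by
      ext v
      change (U⁻¹ : (X →L[ℂ] X)ˣ).val (f v • x) = f v • (U⁻¹ : (X →L[ℂ] X)ˣ).val x
      rw [map_smul]
    have e2 : z • (1 : X →L[ℂ] X) - (T - (T₀ + a • rk f x))
        = U.val * (1 + (a - c) • rk f ((U⁻¹ : (X →L[ℂ] X)ˣ).val x)) := by
      rw [mul_add, mul_one, mul_smul_comm, ← e1, ← mul_assoc, Units.mul_inv, one_mul, hU]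
      module
    rw [e2]
    exact U.isUnit.mul (isUnit_one_add_rk ha)
  have ha : 1 + (a - c) * f ((U⁻¹ : (X →L[ℂ] X)ˣ).val x) = 0 := by
    by_contra h
    exact key a h h1.1
  have hb : 1 + (b - c) * f ((U⁻¹ : (X →L[ℂ] X)ˣ).val x) = 0 := by
    by_contra h
    exact key b h h2.1
  have h3 : (a - b) * f ((U⁻¹ : (X →L[ℂ] X)ˣ).val x) = 0 := by linear_combination ha - hb
  rcases mul_eq_zero.1 h3 with h4 | h4
  · exact hab (sub_eq_zero.1 h4)
  · rw [h4, mul_zero, add_zero] at ha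
    exact one_ne_zero ha

end

end Pool.Agent.SpecRad
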