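import Pool.Agent.SpecRad.Basic

/-!
# Perturbation estimates for the spectral radius
-/

open Filter Topology ContinuousLinearMap
open scoped ComplexConjugate

namespace Pool.Agent.SpecRad

variable {X : Type*} [NormedAddCommGroup X] [NormedSpace ℂ X] [CompleteSpace X]

omit [CompleteSpace X] in
/-- Continuous functionals with prescribed values on a finite independent family. -/
lemma exists_functional {n : ℕ} {v : Fin n → X} (hv : LinearIndependent ℂ v) (c : Fin n → ℂ) :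
    ∃ f : X →L[ℂ] ℂ, ∀ i, f (v i) = c i := by
  set p : Submodule ℂ X := Submodule.span ℂ (Set.range v) with hp
  set b := Module.Basis.span hv with hb
  have hfin : FiniteDimensional ℂ p := FiniteDimensional.span_of_finite ℂ (Set.finite_range v)
  set l : p →ₗ[ℂ] ℂ := b.constr ℂ c with hl
  obtain ⟨g, hg, -⟩ := exists_extension_norm_eq p (LinearMap.toContinuousLinearMap l)
  refine ⟨g, fun i => ?_⟩
  have h1 : (b i : X) = v i := congrArg Subtype.val (Module.Basis.span_apply hv i)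
  rw [← h1, hg]
  change l (b i) = c i
  rw [hl, Module.Basis.constr_basis]

lemma aux1 {a b : ℝ} (ha : 0 ≤ a) (hb : 0 ≤ b) : a ≤ (1 + a) * (1 + b) ^ 2 := by
  nlinarith [mul_nonneg ha hb, mul_nonneg hb hb, mul_nonneg ha (mul_nonneg hb hb)]

lemma aux2 {a b : ℝ} (ha : 0 ≤ a) (hb : 0 ≤ b) : 1 + a * b ≤ (1 + a) * (1 + b) ^ 2 := by
  nlinarith [mul_nonneg ha hb, mul_nonneg hb hb, mul_nonneg ha (mul_nonneg hb hb)]

lemma aux3 {a b : ℝ} (ha : 0 ≤ a) (hb : 0 ≤ b) : (1 + a * b) * b ≤ (1 + a) * (1 + b) ^ 2 := by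
  nlinarith [mul_nonneg ha hb, mul_nonneg hb hb, mul_nonneg ha (mul_nonneg hb hb)]

/-- The norm of `s ω + κ` for large `s`. -/
lemma tendsto_norm_add {ω : ℂ} (hω : ‖ω‖ = 1) (κ : ℂ) :
    Tendsto (fun s : ℝ => ‖(s : ℂ) * ω + κ‖ - s) atTop (𝓝 (conj ω * κ).re) := by
  set c : ℂ := conj ω * κ with hc
  have h1 : ∀ s : ℝ, ‖(s : ℂ) * ω + κ‖ = ‖(s : ℂ) + c‖ := by
    intro s
    have e1 : (s : ℂ) + c = conj ω * ((s : ℂ) * ω + κ) := by
      have e2 : conj ω * ω = 1 := by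
        rw [mul_comm, Complex.mul_conj, Complex.normSq_eq_norm_sq, hω]; simp
      rw [hc, mul_add]
      calc (s : ℂ) + conj ω * κ = s * (conj ω * ω) + conj ω * κ := by rw [e2, mul_one]
        _ = _ := by ring
    rw [e1, norm_mul, RCLike.norm_conj, hω, one_mul]
  simp only [h1]
  have hlow : ∀ s : ℝ, c.re ≤ ‖(s : ℂ) + c‖ - s := by
    intro s
    have := Complex.re_le_norm ((s : ℂ) + c)
    rw [Complex.add_re, Complex.ofReal_re] at this
    linarith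
  have hup : ∀ᶠ s : ℝ in atTop, ‖(s : ℂ) + c‖ - s ≤ c.re + c.im ^ 2 / (2 * (s + c.re)) := by
    filter_upwards [eventually_gt_atTop (-c.re)] with s hs
    have hpos : 0 < s + c.re := by linarith
    have h2 : ‖(s : ℂ) + c‖ ≤ s + c.re + c.im ^ 2 / (2 * (s + c.re)) := by
      refine (sq_le_sq₀ (norm_nonneg _) (by positivity)).1 ?_
      rw [← Complex.normSq_eq_norm_sq, Complex.normSq_apply]
      simp only [Complex.add_re, Complex.ofReal_re, Complex.add_im, Complex.ofReal_im, zero_add]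
      have h3 : (s + c.re + c.im ^ 2 / (2 * (s + c.re))) ^ 2
          = (s + c.re) ^ 2 + c.im ^ 2 + (c.im ^ 2 / (2 * (s + c.re))) ^ 2 := by
        field_simp
        ring
      rw [h3]
      have := sq_nonneg (c.im ^ 2 / (2 * (s + c.re)))
      nlinarith
    linarith
  have hlim : Tendsto (fun s : ℝ => c.re + c.im ^ 2 / (2 * (s + c.re))) atTop (𝓝 c.re) := by
    have h3 : Tendsto (fun s : ℝ => 2 * (s + c.re)) atTop atTop :=
      (tendsto_atTop_add_const_right _ _ tendsto_id).const_mul_atTop two_pos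
    have h4 : Tendsto (fun s : ℝ => c.im ^ 2 / (2 * (s + c.re))) atTop (𝓝 0) :=
      h3.const_div_atTop _
    simpa using h4.const_add c.re
  exact tendsto_of_tendsto_of_tendsto_of_le_of_le' tendsto_const_nhds hlim
    (Filter.Eventually.of_forall hlow) hup

lemma eventually_norm_add {ω κ : ℂ} (hω : ‖ω‖ = 1) (hκ : (conj ω * κ).re < 0) :
    ∃ δ : ℝ, 0 < δ ∧ ∀ᶠ s : ℝ in atTop, ‖(s : ℂ) * ω + κ‖ ≤ s - 2 * δ := by
  refine ⟨-(conj ω * κ).re / 4, by linarith, ?_⟩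
  have h := (tendsto_norm_add hω κ).eventually (gt_mem_nhds
    (show (conj ω * κ).re < (conj ω * κ).re / 2 by linarith))
  filter_upwards [h] with s hs
  linarith

/-- Exact eigenvector: if `W u = z u`, and `W` is bounded by a constant on `ker f`, `f u = 1`, then
`rr W ≤ ‖z‖` as soon as `‖z‖` is large. -/
lemma rr_le_exact {W : X →L[ℂ] X} {f : X →L[ℂ] ℂ} {u : X} {z : ℂ} {C : ℝ} (hfu : f u = 1)
    (hWu : W u = z • u) (_hC : 0 ≤ C) (hW : ∀ v, f v = 0 → ‖W v‖ ≤ C * ‖v‖)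
    (hz : C * (1 + ‖f‖ + ‖f‖ * ‖u‖) ≤ ‖z‖) : rr W ≤ ‖z‖ := by
  apply rr_le_of_equiv (N := fun v => ‖f v‖ + ‖v - f v • u‖) (c := (1 + ‖u‖)⁻¹)
    (C := ‖f‖ + 1 + ‖f‖ * ‖u‖) W (by positivity) (norm_nonneg _)
  · intro v
    rw [inv_mul_le_iff₀ (by positivity)]
    have h1 : ‖v‖ ≤ ‖f v‖ * ‖u‖ + ‖v - f v • u‖ := by
      calc ‖v‖ = ‖f v • u + (v - f v • u)‖ := by congr 1; abel
        _ ≤ ‖f v • u‖ + ‖v - f v • u‖ := norm_add_le _ _
        _ = _ := by rw [norm_smul]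
    nlinarith [norm_nonneg (f v), norm_nonneg u, norm_nonneg (v - f v • u)]
  · intro v
    have h1 := f.le_opNorm v
    have h2 : ‖v - f v • u‖ ≤ ‖v‖ + ‖f v‖ * ‖u‖ := by
      refine (norm_sub_le _ _).trans ?_
      rw [norm_smul]
    nlinarith [norm_nonneg (f v), norm_nonneg u, norm_nonneg v]
  · intro v
    set w : X := v - f v • u with hw
    have hfw : f w = 0 := by
      rw [hw, map_sub, map_smul, smul_eq_mul, hfu, mul_one, sub_self]
    have hv : v = f v • u + w := by rw [hw]; abel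
    have hWv : W v = (f v * z) • u + W w := by
      conv_lhs => rw [hv]
      rw [map_add, map_smul, hWu, smul_smul]
    have h1 : f (W v) = f v * z + f (W w) := by
      rw [hWv, map_add, map_smul, smul_eq_mul, hfu, mul_one]
    have h2 : W v - f (W v) • u = W w - f (W w) • u := by
      rw [h1, hWv, add_smul]; abel
    have h3 := hW w hfw
    have h4 := f.le_opNorm (W w)
    change ‖f (W v)‖ + ‖W v - f (W v) • u‖ ≤ ‖z‖ * (‖f v‖ + ‖w‖)
    rw [h2, h1]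
    have h5 : ‖f v * z + f (W w)‖ ≤ ‖f v‖ * ‖z‖ + ‖f‖ * (C * ‖w‖) := by
      refine (norm_add_le _ _).trans ?_
      rw [norm_mul]
      have : ‖f‖ * ‖W w‖ ≤ ‖f‖ * (C * ‖w‖) := by gcongr
      linarith
    have h6 : ‖W w - f (W w) • u‖ ≤ C * ‖w‖ + ‖f‖ * (C * ‖w‖) * ‖u‖ := by
      refine (norm_sub_le _ _).trans ?_
      rw [norm_smul]
      have h7 : ‖f (W w)‖ ≤ ‖f‖ * (C * ‖w‖) := h4.trans (by gcongr)
      have h8 : ‖f (W w)‖ * ‖u‖ ≤ ‖f‖ * (C * ‖w‖) * ‖u‖ := by gcongr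
      linarith
    have h9 : C * (1 + ‖f‖ + ‖f‖ * ‖u‖) * ‖w‖ ≤ ‖z‖ * ‖w‖ := by gcongr
    nlinarith

/-- A weighted norm adapted to a rank-one idempotent. -/
lemma rr_le_rank_one {K : X →L[ℂ] X} {f : X →L[ℂ] ℂ} {x : X} (hfx : f x = 1) {z : ℂ} {M η : ℝ}
    (hM : ‖K‖ * ((1 + ‖f‖) * (1 + ‖x‖) ^ 2) ≤ M) (hη : 0 < η)
    (h : M * (1 + η) ≤ (‖z + f (K x)‖ + η * M) * η) :
    rr (z • rk f x + K) ≤ ‖z + f (K x)‖ + η * M := by
  have hK0 := norm_nonneg K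
  have hf0 := norm_nonneg f
  have hx0 := norm_nonneg x
  have hM0 : 0 ≤ M := le_trans (by positivity) hM
  apply rr_le_of_equiv (N := fun v => ‖f v‖ + η * ‖v - f v • x‖)
    (c := (η⁻¹ + ‖x‖ )⁻¹) (C := ‖f‖ + η * (1 + ‖f‖ * ‖x‖)) _ (by positivity) (by positivity)
  · intro v
    rw [inv_mul_le_iff₀ (by positivity)]
    have h1 : ‖v‖ ≤ ‖f v‖ * ‖x‖ + ‖v - f v • x‖ := by
      calc ‖v‖ = ‖f v • x + (v - f v • x)‖ := by congr 1; abel
        _ ≤ ‖f v • x‖ + ‖v - f v • x‖ := norm_add_le _ _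
        _ = _ := by rw [norm_smul]
    have h2 : (η⁻¹ + ‖x‖) * (‖f v‖ + η * ‖v - f v • x‖)
        = η⁻¹ * ‖f v‖ + ‖v - f v • x‖ + ‖f v‖ * ‖x‖ + ‖x‖ * (η * ‖v - f v • x‖) := by
      field_simp
      ring
    rw [h2]
    have h3 : 0 ≤ η⁻¹ * ‖f v‖ := by positivity
    have h4 : 0 ≤ ‖x‖ * (η * ‖v - f v • x‖) := by positivity
    linarith
  · intro v
    have h1 := f.le_opNorm v
    have h2 : ‖v - f v • x‖ ≤ ‖v‖ + ‖f v‖ * ‖x‖ := by
      refine (norm_sub_le _ _).trans ?_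
      rw [norm_smul]
    have h3 : ‖f v‖ * ‖x‖ ≤ ‖f‖ * ‖v‖ * ‖x‖ := by gcongr
    have h4 : η * ‖v - f v • x‖ ≤ η * (‖v‖ + ‖f‖ * ‖v‖ * ‖x‖) := by gcongr; linarith
    calc ‖f v‖ + η * ‖v - f v • x‖ ≤ ‖f‖ * ‖v‖ + η * (‖v‖ + ‖f‖ * ‖v‖ * ‖x‖) := by linarith
      _ = _ := by ring
  · intro v
    set w : X := v - f v • x with hw
    have hfw : f w = 0 := by
      rw [hw, map_sub, map_smul, smul_eq_mul, hfx, mul_one, sub_self]
    have hv : v = f v • x + w := by rw [hw]; abel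
    set κ : ℂ := f (K x) with hκ
    have hKv : K v = f v • K x + K w := by
      conv_lhs => rw [hv]
      rw [map_add, map_smul]
    have hWv : (z • rk f x + K) v = (z * f v) • x + K v := by
      change z • (f v • x) + K v = _
      rw [smul_smul]
    have h1 : f ((z • rk f x + K) v) = f v * (z + κ) + f (K w) := by
      rw [hWv, hKv, map_add, map_add, map_smul, map_smul, smul_eq_mul, smul_eq_mul, hfx, ← hκ]
      ring
    have h2 : (z • rk f x + K) v - f ((z • rk f x + K) v) • x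
        = f v • (K x - κ • x) + (K w - f (K w) • x) := by
      rw [h1, hWv, hKv]
      module
    have hx1 : 1 ≤ (1 + ‖x‖) ^ 2 := by nlinarith
    have b1 : ‖f (K w)‖ ≤ M * ‖w‖ := by
      have e1 := f.le_opNorm (K w)
      have e2 := K.le_opNorm w
      calc ‖f (K w)‖ ≤ ‖f‖ * ‖K w‖ := e1
        _ ≤ ‖f‖ * (‖K‖ * ‖w‖) := by gcongr
        _ = ‖K‖ * ‖f‖ * ‖w‖ := by ring
        _ ≤ ‖K‖ * ((1 + ‖f‖) * (1 + ‖x‖) ^ 2) * ‖w‖ := by
            gcongr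
            exact aux1 hf0 hx0
        _ ≤ M * ‖w‖ := by gcongr
    have b2 : ‖K w - f (K w) • x‖ ≤ M * ‖w‖ := by
      have e1 := f.le_opNorm (K w)
      have e2 := K.le_opNorm w
      calc ‖K w - f (K w) • x‖ ≤ ‖K w‖ + ‖f (K w)‖ * ‖x‖ := by
            refine (norm_sub_le _ _).trans ?_
            rw [norm_smul]
        _ ≤ ‖K‖ * ‖w‖ + ‖f‖ * (‖K‖ * ‖w‖) * ‖x‖ := by
            have e3 : ‖f (K w)‖ ≤ ‖f‖ * (‖K‖ * ‖w‖) := e1.trans (by gcongr)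
            gcongr
        _ = ‖K‖ * (1 + ‖f‖ * ‖x‖) * ‖w‖ := by ring
        _ ≤ ‖K‖ * ((1 + ‖f‖) * (1 + ‖x‖) ^ 2) * ‖w‖ := by
            gcongr
            exact aux2 hf0 hx0
        _ ≤ M * ‖w‖ := by gcongr
    have b3 : ‖K x - κ • x‖ ≤ M := by
      have e1 := f.le_opNorm (K x)
      have e2 := K.le_opNorm x
      calc ‖K x - κ • x‖ ≤ ‖K x‖ + ‖f (K x)‖ * ‖x‖ := by
            refine (norm_sub_le _ _).trans ?_
            rw [norm_smul, ← hκ]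
        _ ≤ ‖K‖ * ‖x‖ + ‖f‖ * (‖K‖ * ‖x‖) * ‖x‖ := by
            have e3 : ‖f (K x)‖ ≤ ‖f‖ * (‖K‖ * ‖x‖) := e1.trans (by gcongr)
            gcongr
        _ = ‖K‖ * ((1 + ‖f‖ * ‖x‖) * ‖x‖) := by ring
        _ ≤ ‖K‖ * ((1 + ‖f‖) * (1 + ‖x‖) ^ 2) := by
            exact mul_le_mul_of_nonneg_left (aux3 hf0 hx0) hK0
        _ ≤ M := hM
    change ‖f ((z • rk f x + K) v)‖ + η * ‖(z • rk f x + K) v - f ((z • rk f x + K) v) • x‖
      ≤ (‖z + κ‖ + η * M) * (‖f v‖ + η * ‖w‖)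
    rw [h2, h1]
    have c1 : ‖f v * (z + κ) + f (K w)‖ ≤ ‖f v‖ * ‖z + κ‖ + M * ‖w‖ := by
      refine (norm_add_le _ _).trans ?_
      rw [norm_mul]
      gcongr
    have c2 : ‖f v • (K x - κ • x) + (K w - f (K w) • x)‖ ≤ ‖f v‖ * M + M * ‖w‖ := by
      refine (norm_add_le _ _).trans ?_
      rw [norm_smul]
      gcongr
    have c3 : η * ‖f v • (K x - κ • x) + (K w - f (K w) • x)‖ ≤ η * (‖f v‖ * M + M * ‖w‖) := by
      gcongr
    have c4 : M * (1 + η) * ‖w‖ ≤ (‖z + κ‖ + η * M) * η * ‖w‖ := by gcongr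
    calc ‖f v * (z + κ) + f (K w)‖ + η * ‖f v • (K x - κ • x) + (K w - f (K w) • x)‖
        ≤ ‖f v‖ * ‖z + κ‖ + M * ‖w‖ + η * (‖f v‖ * M + M * ‖w‖) := by linarith
      _ = (‖z + κ‖ + η * M) * ‖f v‖ + M * (1 + η) * ‖w‖ := by ring
      _ ≤ (‖z + κ‖ + η * M) * ‖f v‖ + (‖z + κ‖ + η * M) * η * ‖w‖ := by linarith
      _ = (‖z + κ‖ + η * M) * (‖f v‖ + η * ‖w‖) := by ring

/-- Lower bound by an invariant cone. -/
lemma le_rr_rank_one {K : X →L[ℂ] X} {f : X →L[ℂ] ℂ} {x : X} (hfx : f x = 1) {z : ℂ} {M θ : ℝ}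
    (hM : ‖K‖ * ((1 + ‖f‖) * (1 + ‖x‖) ^ 2) ≤ M) (hθ : 0 < θ)
    (h0 : 0 ≤ ‖z + f (K x)‖ - θ * M)
    (h : M * (1 + θ) ≤ θ * (‖z + f (K x)‖ - θ * M)) :
    ‖z + f (K x)‖ - θ * M ≤ rr (z • rk f x + K) := by
  have hK0 := norm_nonneg K
  have hf0 := norm_nonneg f
  have hx0 := norm_nonneg x
  have hM0 : 0 ≤ M := le_trans (by positivity) hM
  set κ : ℂ := f (K x) with hκ
  set W : X →L[ℂ] X := z • rk f x + K with hW
  set ρ : ℝ := ‖z + κ‖ - θ * M with hρ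
  have hx1 : 1 ≤ (1 + ‖x‖) ^ 2 := by nlinarith
  -- invariance of the cone
  have hcone : ∀ v : X, ‖v - f v • x‖ ≤ θ * ‖f v‖ →
      ρ * ‖f v‖ ≤ ‖f (W v)‖ ∧ ‖W v - f (W v) • x‖ ≤ θ * ‖f (W v)‖ := by
    intro v hv0
    set w : X := v - f v • x with hw
    have hv : v = f v • x + w := by rw [hw]; abel
    have hKv : K v = f v • K x + K w := by
      conv_lhs => rw [hv]
      rw [map_add, map_smul]
    have hWv : W v = (z * f v) • x + K v := by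
      change z • (f v • x) + K v = _
      rw [smul_smul]
    have h1 : f (W v) = f v * (z + κ) + f (K w) := by
      rw [hWv, hKv, map_add, map_add, map_smul, map_smul, smul_eq_mul, smul_eq_mul, hfx, ← hκ]
      ring
    have h2 : W v - f (W v) • x = f v • (K x - κ • x) + (K w - f (K w) • x) := by
      rw [h1, hWv, hKv]
      module
    have b1 : ‖f (K w)‖ ≤ M * ‖w‖ := by
      have e1 := f.le_opNorm (K w)
      have e2 := K.le_opNorm w
      calc ‖f (K w)‖ ≤ ‖f‖ * ‖K w‖ := e1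
        _ ≤ ‖f‖ * (‖K‖ * ‖w‖) := by gcongr
        _ = ‖K‖ * ‖f‖ * ‖w‖ := by ring
        _ ≤ ‖K‖ * ((1 + ‖f‖) * (1 + ‖x‖) ^ 2) * ‖w‖ := by
            gcongr
            exact aux1 hf0 hx0
        _ ≤ M * ‖w‖ := by gcongr
    have b2 : ‖K w - f (K w) • x‖ ≤ M * ‖w‖ := by
      have e1 := f.le_opNorm (K w)
      have e2 := K.le_opNorm w
      calc ‖K w - f (K w) • x‖ ≤ ‖K w‖ + ‖f (K w)‖ * ‖x‖ := by
            refine (norm_sub_le _ _).trans ?_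
            rw [norm_smul]
        _ ≤ ‖K‖ * ‖w‖ + ‖f‖ * (‖K‖ * ‖w‖) * ‖x‖ := by
            have e3 : ‖f (K w)‖ ≤ ‖f‖ * (‖K‖ * ‖w‖) := e1.trans (by gcongr)
            gcongr
        _ = ‖K‖ * (1 + ‖f‖ * ‖x‖) * ‖w‖ := by ring
        _ ≤ ‖K‖ * ((1 + ‖f‖) * (1 + ‖x‖) ^ 2) * ‖w‖ := by
            gcongr
            exact aux2 hf0 hx0
        _ ≤ M * ‖w‖ := by gcongr
    have b3 : ‖K x - κ • x‖ ≤ M := by
      have e1 := f.le_opNorm (K x)
      have e2 := K.le_opNorm x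
      calc ‖K x - κ • x‖ ≤ ‖K x‖ + ‖f (K x)‖ * ‖x‖ := by
            refine (norm_sub_le _ _).trans ?_
            rw [norm_smul, ← hκ]
        _ ≤ ‖K‖ * ‖x‖ + ‖f‖ * (‖K‖ * ‖x‖) * ‖x‖ := by
            have e3 : ‖f (K x)‖ ≤ ‖f‖ * (‖K‖ * ‖x‖) := e1.trans (by gcongr)
            gcongr
        _ = ‖K‖ * ((1 + ‖f‖ * ‖x‖) * ‖x‖) := by ring
        _ ≤ ‖K‖ * ((1 + ‖f‖) * (1 + ‖x‖) ^ 2) := by
            exact mul_le_mul_of_nonneg_left (aux3 hf0 hx0) hK0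
        _ ≤ M := hM
    have c1 : ‖f v‖ * ‖z + κ‖ - M * ‖w‖ ≤ ‖f v * (z + κ) + f (K w)‖ := by
      have := norm_sub_norm_le (f v * (z + κ)) (-(f (K w)))
      rw [norm_neg, sub_neg_eq_add, norm_mul] at this
      linarith
    have c2 : ‖f v • (K x - κ • x) + (K w - f (K w) • x)‖ ≤ ‖f v‖ * M + M * ‖w‖ := by
      refine (norm_add_le _ _).trans ?_
      rw [norm_smul]
      gcongr
    have c3 : M * ‖w‖ ≤ M * (θ * ‖f v‖) := by gcongr
    have c4 : ρ * ‖f v‖ ≤ ‖f (W v)‖ := by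
      rw [h1]
      refine le_trans (le_of_eq ?_) (le_trans (sub_le_sub_left c3 _) c1)
      rw [hρ]; ring
    refine ⟨c4, ?_⟩
    rw [h2]
    calc ‖f v • (K x - κ • x) + (K w - f (K w) • x)‖ ≤ ‖f v‖ * M + M * (θ * ‖f v‖) := by linarith
      _ = M * (1 + θ) * ‖f v‖ := by ring
      _ ≤ θ * ρ * ‖f v‖ := by gcongr
      _ = θ * (ρ * ‖f v‖) := by ring
      _ ≤ θ * ‖f (W v)‖ := by gcongr
  have hiter : ∀ n : ℕ, ρ ^ n ≤ ‖f ((W ^ n) x)‖ ∧
      ‖(W ^ n) x - f ((W ^ n) x) • x‖ ≤ θ * ‖f ((W ^ n) x)‖ := by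
    intro n
    induction n with
    | zero =>
      have e1 : (W ^ 0) x = x := by rw [pow_zero]; rfl
      rw [e1, hfx, one_smul, sub_self, norm_zero, norm_one, mul_one, pow_zero]
      exact ⟨le_rfl, hθ.le⟩
    | succ n ih =>
      have e : (W ^ (n + 1)) x = W ((W ^ n) x) := by
        rw [pow_succ']; rfl
      obtain ⟨h1, h2⟩ := hcone _ ih.2
      rw [e]
      refine ⟨?_, h2⟩
      calc ρ ^ (n + 1) = ρ * ρ ^ n := by ring
        _ ≤ ρ * ‖f ((W ^ n) x)‖ := by gcongr; exact ih.1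
        _ ≤ _ := h1
  have hf1 : 0 < ‖f‖ * ‖x‖ + 1 := by positivity
  apply le_rr_of_growth W (c := (‖f‖ * ‖x‖ + 1)⁻¹) (by positivity) h0
  intro n
  rw [inv_mul_le_iff₀ hf1]
  have e1 := (hiter n).1
  have e2 := f.le_opNorm ((W ^ n) x)
  have e3 := (W ^ n).le_opNorm x
  calc ρ ^ n ≤ ‖f ((W ^ n) x)‖ := e1
    _ ≤ ‖f‖ * ‖(W ^ n) x‖ := e2
    _ ≤ ‖f‖ * (‖W ^ n‖ * ‖x‖) := by gcongr
    _ = (‖f‖ * ‖x‖) * ‖W ^ n‖ := by ring
    _ ≤ (‖f‖ * ‖x‖ + 1) * ‖W ^ n‖ := by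
        gcongr
        linarith

end Pool.Agent.SpecRad
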