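import Pool.Agent.SpecRad.Test

/-!
# The three-point property forces rank one (dimension at least three)
-/

open Filter Topology ContinuousLinearMap
open scoped ComplexConjugate

namespace Pool.Agent.SpecRad

variable {X : Type*} [NormedAddCommGroup X] [NormedSpace ℂ X] [CompleteSpace X]

/-- Weighted norm on a two-dimensional coordinate block. -/
lemma rr_le_two {W : X →L[ℂ] X} {f h : X →L[ℂ] ℂ} {x y : X}
    {a b η ρ : ℝ} (ha : 0 < a) (hb : 0 < b) (hη : 0 < η) (hρ : 0 ≤ ρ)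
    (hfx : f x = 1) (hfy : f y = 0) (hhx : h x = 0) (hhy : h y = 1)
    (hx : a * ‖f (W x)‖ + b * ‖h (W x)‖ + η * ‖W x - f (W x) • x - h (W x) • y‖ ≤ ρ * a)
    (hy : a * ‖f (W y)‖ + b * ‖h (W y)‖ + η * ‖W y - f (W y) • x - h (W y) • y‖ ≤ ρ * b)
    (hv : ∀ v, f v = 0 → h v = 0 →
      a * ‖f (W v)‖ + b * ‖h (W v)‖ + η * ‖W v - f (W v) • x - h (W v) • y‖ ≤ ρ * (η * ‖v‖)) :
    rr W ≤ ρ := by
  set N : X → ℝ := fun v => a * ‖f v‖ + b * ‖h v‖ + η * ‖v - f v • x - h v • y‖ with hN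
  have hN0 : ∀ v, 0 ≤ N v := fun v => by
    simp only [hN]; positivity
  have hadd : ∀ u v, N (u + v) ≤ N u + N v := by
    intro u v
    simp only [hN]
    have e1 : ‖f (u + v)‖ ≤ ‖f u‖ + ‖f v‖ := by rw [map_add]; exact norm_add_le _ _
    have e2 : ‖h (u + v)‖ ≤ ‖h u‖ + ‖h v‖ := by rw [map_add]; exact norm_add_le _ _
    have e3 : ‖u + v - f (u + v) • x - h (u + v) • y‖
        ≤ ‖u - f u • x - h u • y‖ + ‖v - f v • x - h v • y‖ := by
      have : u + v - f (u + v) • x - h (u + v) • y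
          = (u - f u • x - h u • y) + (v - f v • x - h v • y) := by
        rw [map_add, map_add]; module
      rw [this]
      exact norm_add_le _ _
    have e1' := mul_le_mul_of_nonneg_left e1 ha.le
    have e2' := mul_le_mul_of_nonneg_left e2 hb.le
    have e3' := mul_le_mul_of_nonneg_left e3 hη.le
    linarith
  have hsmul : ∀ (c : ℂ) v, N (c • v) = ‖c‖ * N v := by
    intro c v
    simp only [hN]
    have e3 : c • v - f (c • v) • x - h (c • v) • y = c • (v - f v • x - h v • y) := by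
      rw [map_smul, map_smul, smul_eq_mul, smul_eq_mul]; module
    rw [e3, map_smul, map_smul, norm_smul, norm_smul, norm_smul]
    ring
  have hker : ∀ v, f v = 0 → h v = 0 → N (W v) ≤ ρ * (η * ‖v‖) := hv
  have hNx : N (W x) ≤ ρ * a := hx
  have hNy : N (W y) ≤ ρ * b := hy
  apply rr_le_of_equiv (N := N) (c := (‖x‖ / a + ‖y‖ / b + 1 / η)⁻¹)
    (C := a * ‖f‖ + b * ‖h‖ + η * (1 + ‖f‖ * ‖x‖ + ‖h‖ * ‖y‖)) W (by positivity) hρ
  · intro v
    rw [inv_mul_le_iff₀ (by positivity)]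
    have h1 : ‖v‖ ≤ ‖f v‖ * ‖x‖ + ‖h v‖ * ‖y‖ + ‖v - f v • x - h v • y‖ := by
      calc ‖v‖ = ‖f v • x + h v • y + (v - f v • x - h v • y)‖ := by congr 1; abel
        _ ≤ ‖f v • x + h v • y‖ + ‖v - f v • x - h v • y‖ := norm_add_le _ _
        _ ≤ ‖f v • x‖ + ‖h v • y‖ + ‖v - f v • x - h v • y‖ := by gcongr; exact norm_add_le _ _
        _ = _ := by rw [norm_smul, norm_smul]
    have g1 : ‖f v‖ * ‖x‖ ≤ ‖x‖ / a * N v := by
      have : a * ‖f v‖ ≤ N v := by
        simp only [hN]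
        have : 0 ≤ b * ‖h v‖ + η * ‖v - f v • x - h v • y‖ := by positivity
        linarith
      calc ‖f v‖ * ‖x‖ = ‖x‖ / a * (a * ‖f v‖) := by field_simp
        _ ≤ _ := by gcongr
    have g2 : ‖h v‖ * ‖y‖ ≤ ‖y‖ / b * N v := by
      have : b * ‖h v‖ ≤ N v := by
        simp only [hN]
        have : 0 ≤ a * ‖f v‖ + η * ‖v - f v • x - h v • y‖ := by positivity
        linarith
      calc ‖h v‖ * ‖y‖ = ‖y‖ / b * (b * ‖h v‖) := by field_simp
        _ ≤ _ := by gcongr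
    have g3 : ‖v - f v • x - h v • y‖ ≤ 1 / η * N v := by
      have : η * ‖v - f v • x - h v • y‖ ≤ N v := by
        simp only [hN]
        have : 0 ≤ a * ‖f v‖ + b * ‖h v‖ := by positivity
        linarith
      calc ‖v - f v • x - h v • y‖ = 1 / η * (η * ‖v - f v • x - h v • y‖) := by field_simp
        _ ≤ _ := by gcongr
    calc ‖v‖ ≤ _ := h1
      _ ≤ ‖x‖ / a * N v + ‖y‖ / b * N v + 1 / η * N v := by linarith
      _ = _ := by ring
  · intro v
    have h1 := f.le_opNorm v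
    have h2 := h.le_opNorm v
    have h3 : ‖v - f v • x - h v • y‖ ≤ ‖v‖ + ‖f v‖ * ‖x‖ + ‖h v‖ * ‖y‖ := by
      refine (norm_sub_le _ _).trans ?_
      rw [norm_smul]
      have := norm_sub_le v (f v • x)
      rw [norm_smul] at this
      linarith
    have h4 : ‖f v‖ * ‖x‖ ≤ ‖f‖ * ‖v‖ * ‖x‖ := by gcongr
    have h5 : ‖h v‖ * ‖y‖ ≤ ‖h‖ * ‖v‖ * ‖y‖ := by gcongr
    have h6 : ‖v - f v • x - h v • y‖ ≤ ‖v‖ + ‖f‖ * ‖v‖ * ‖x‖ + ‖h‖ * ‖v‖ * ‖y‖ := by linarith
    calc N v = a * ‖f v‖ + b * ‖h v‖ + η * ‖v - f v • x - h v • y‖ := rfl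
      _ ≤ a * (‖f‖ * ‖v‖) + b * (‖h‖ * ‖v‖)
          + η * (‖v‖ + ‖f‖ * ‖v‖ * ‖x‖ + ‖h‖ * ‖v‖ * ‖y‖) := by gcongr
      _ = _ := by ring
  · intro v
    set w : X := v - f v • x - h v • y with hw
    have hfw : f w = 0 := by
      rw [hw, map_sub, map_sub, map_smul, map_smul, hfx, hfy]; simp
    have hhw : h w = 0 := by
      rw [hw, map_sub, map_sub, map_smul, map_smul, hhx, hhy]; simp
    have hvw : W v = f v • W x + h v • W y + W w := by
      have : v = f v • x + h v • y + w := by rw [hw]; abel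
      conv_lhs => rw [this]
      rw [map_add, map_add, map_smul, map_smul]
    rw [hvw]
    calc N (f v • W x + h v • W y + W w) ≤ N (f v • W x + h v • W y) + N (W w) := hadd _ _
      _ ≤ N (f v • W x) + N (h v • W y) + N (W w) := by gcongr; exact hadd _ _
      _ = ‖f v‖ * N (W x) + ‖h v‖ * N (W y) + N (W w) := by rw [hsmul, hsmul]
      _ ≤ ‖f v‖ * (ρ * a) + ‖h v‖ * (ρ * b) + ρ * (η * ‖w‖) := by
          gcongr
          exact hker w hfw hhw
      _ = ρ * N v := by simp only [hN]; rw [← hw]; ring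

lemma real_aux1 {a b c d : ℝ} (ha : 0 ≤ a) (hb : 0 ≤ b) (hc : 0 ≤ c) (hd : 0 ≤ d) :
    c ≤ (1 + a + b) * (c + d) := by
  have := mul_nonneg ha hc
  have := mul_nonneg ha hd
  have := mul_nonneg hb hc
  have := mul_nonneg hb hd
  nlinarith

lemma real_aux2 {a b c d : ℝ} (ha : 0 ≤ a) (hb : 0 ≤ b) (hc : 0 ≤ c) (hd : 0 ≤ d) :
    d ≤ (1 + a + b) * (c + d) := by
  have := mul_nonneg ha hc
  have := mul_nonneg ha hd
  have := mul_nonneg hb hc
  have := mul_nonneg hb hd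
  nlinarith

lemma real_aux3 {a b c d : ℝ} (ha : 0 ≤ a) (hb : 0 ≤ b) (hc : 0 ≤ c) (hd : 0 ≤ d) :
    a * c ≤ (1 + a + b) * (c + d) := by
  have := mul_nonneg ha hc
  have := mul_nonneg ha hd
  have := mul_nonneg hb hc
  have := mul_nonneg hb hd
  nlinarith

lemma real_aux4 {a b c d : ℝ} (ha : 0 ≤ a) (hb : 0 ≤ b) (hc : 0 ≤ c) (hd : 0 ≤ d) :
    b * d ≤ (1 + a + b) * (c + d) := by
  have := mul_nonneg ha hc
  have := mul_nonneg ha hd
  have := mul_nonneg hb hc
  have := mul_nonneg hb hd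
  nlinarith

/-- A direction making two numbers have positive real part. -/
lemma exists_angle {w : ℂ} (hw : w ∈ Complex.slitPlane) :
    ∃ ζ : ℂ, 0 < ζ.re ∧ 0 < (ζ * w).re := by
  have hw0 : w ≠ 0 := Complex.slitPlane_ne_zero hw
  have hn : 0 < ‖w‖ := norm_pos_iff.2 hw0
  have hlt : 0 < w.re + ‖w‖ := by
    rcases hw with h | h
    · positivity
    · have h1 : |w.re| < ‖w‖ := by
        rw [Complex.abs_re_lt_norm]; exact h
      have := neg_abs_le w.re
      linarith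
  refine ⟨1 + conj w / ‖w‖, ?_, ?_⟩
  · have e1 : (1 + conj w / (‖w‖ : ℂ)).re = 1 + w.re / ‖w‖ := by
      rw [Complex.add_re, Complex.div_ofReal_re, Complex.conj_re, Complex.one_re]
    rw [e1]
    have : 1 + w.re / ‖w‖ = (w.re + ‖w‖) / ‖w‖ := by field_simp; ring
    rw [this]
    positivity
  · have e1 : (1 + conj w / (‖w‖ : ℂ)) * w = w + ‖w‖ := by
      have hn' : (‖w‖ : ℂ) ≠ 0 := by exact_mod_cast hn.ne'
      rw [add_mul, one_mul, div_mul_eq_mul_div, mul_comm (conj w) w, Complex.mul_conj,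
        Complex.normSq_eq_norm_sq]
      push_cast
      rw [pow_two, mul_div_assoc, div_self hn', mul_one]
    rw [e1, Complex.add_re, Complex.ofReal_re]
    exact hlt

/-- The test by an operator of rank two. -/
lemma PP.rank_two {D : X →L[ℂ] X} {t : ℂ} (hP : PP 0 D (t • D)) (ht : t ∈ Complex.slitPlane)
    (ht1 : 1 - t ∈ Complex.slitPlane) {x y : X} (h3 : LinearIndependent ℂ ![y, x, D x])
    (h3' : LinearIndependent ℂ ![D y, x, D x]) : False := by
  -- the functional h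
  obtain ⟨h, hhx, hhDx, hhy, hs'⟩ : ∃ h : X →L[ℂ] ℂ, h x = 0 ∧ h (D x) = 0 ∧ h y = 1 ∧
      h (D y) ≠ 0 := by
    obtain ⟨h₁, hh₁⟩ := exists_functional h3 ![1, 0, 0]
    obtain ⟨h₂, hh₂⟩ := exists_functional h3' ![1, 0, 0]
    have a0 : h₁ x = 0 := by simpa using hh₁ 1
    have a1 : h₁ (D x) = 0 := by simpa using hh₁ 2
    have a2 : h₁ y = 1 := by simpa using hh₁ 0
    have b0 : h₂ x = 0 := by simpa using hh₂ 1
    have b1 : h₂ (D x) = 0 := by simpa using hh₂ 2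
    have b2 : h₂ (D y) = 1 := by simpa using hh₂ 0
    by_cases ha : h₁ (D y) = 0
    · by_cases hb : h₂ y = 0
      · refine ⟨h₁ + h₂, ?_, ?_, ?_, ?_⟩
        · change h₁ x + h₂ x = 0
          rw [a0, b0, add_zero]
        · change h₁ (D x) + h₂ (D x) = 0
          rw [a1, b1, add_zero]
        · change h₁ y + h₂ y = 1
          rw [a2, hb, add_zero]
        · change h₁ (D y) + h₂ (D y) ≠ 0
          rw [ha, b2, zero_add]
          exact one_ne_zero
      · refine ⟨(h₂ y)⁻¹ • h₂, ?_, ?_, ?_, ?_⟩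
        · change (h₂ y)⁻¹ * h₂ x = 0
          rw [b0, mul_zero]
        · change (h₂ y)⁻¹ * h₂ (D x) = 0
          rw [b1, mul_zero]
        · change (h₂ y)⁻¹ * h₂ y = 1
          exact inv_mul_cancel₀ hb
        · change (h₂ y)⁻¹ * h₂ (D y) ≠ 0
          rw [b2, mul_one]
          exact inv_ne_zero hb
    · exact ⟨h₁, a0, a1, a2, ha⟩
  set s' : ℂ := h (D y) with hs'def
  -- directions
  obtain ⟨ζ, hζ1, hζ2⟩ := exists_angle ht1
  obtain ⟨ξ, hξ1, hξ2⟩ := exists_angle ht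
  have hζ0 : ζ ≠ 0 := by
    intro h0; rw [h0, Complex.zero_re] at hζ1; exact lt_irrefl _ hζ1
  set r : ℝ := ‖s'‖ / ‖ζ‖ with hr
  have hr0 : 0 < r := div_pos (norm_pos_iff.2 hs') (norm_pos_iff.2 hζ0)
  set ω : ℂ := conj (-(r : ℂ) * ζ / s') with hω
  have hω1 : ‖ω‖ = 1 := by
    rw [hω, RCLike.norm_conj, norm_div, norm_mul, norm_neg, Complex.norm_real,
      Real.norm_of_nonneg hr0.le, hr, div_mul_cancel₀ _ (norm_ne_zero_iff.2 hζ0),
      div_self (norm_ne_zero_iff.2 hs')]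
  have hωc : conj ω * s' = -(r : ℂ) * ζ := by
    rw [hω, Complex.conj_conj, div_mul_cancel₀ _ hs']
  have hωω : conj ω * ω = 1 := by
    rw [mul_comm, Complex.mul_conj, Complex.normSq_eq_norm_sq, hω1]; simp
  set p : ℂ := ω * ξ with hp
  -- the functional f
  obtain ⟨f, hf⟩ := exists_functional h3 ![0, 1, p]
  have hfx : f x = 1 := by simpa using hf 1
  have hfDx : f (D x) = p := by simpa using hf 2
  have hfy : f y = 0 := by simpa using hf 0
  have hx0 : x ≠ 0 := by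
    intro h0; rw [h0, map_zero] at hfx; exact zero_ne_one hfx
  have hy0 : y ≠ 0 := by
    intro h0; rw [h0, map_zero] at hhy; exact zero_ne_one hhy
  -- four conditions
  have c1 : (conj ω * s').re < 0 := by
    rw [hωc, neg_mul, Complex.neg_re, Complex.re_ofReal_mul]
    have : 0 < r * ζ.re := by positivity
    linarith
  have c2 : (conj ω * ((1 - t) * s')).re < 0 := by
    have e : conj ω * ((1 - t) * s') = -((r : ℂ) * (ζ * (1 - t))) := by
      calc conj ω * ((1 - t) * s') = (1 - t) * (conj ω * s') := by ring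
        _ = _ := by rw [hωc]; ring
    rw [e, Complex.neg_re, Complex.re_ofReal_mul]
    have : 0 < r * (ζ * (1 - t)).re := by positivity
    linarith
  have c3 : (conj ω * (-p)).re < 0 := by
    have e : conj ω * (-p) = -ξ := by
      calc conj ω * (-p) = -((conj ω * ω) * ξ) := by rw [hp]; ring
        _ = _ := by rw [hωω, one_mul]
    rw [e, Complex.neg_re]
    linarith
  have c4 : (conj ω * (-(t * p))).re < 0 := by
    have e : conj ω * (-(t * p)) = -(ξ * t) := by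
      calc conj ω * (-(t * p)) = -((conj ω * ω) * (ξ * t)) := by rw [hp]; ring
        _ = _ := by rw [hωω, one_mul]
    rw [e, Complex.neg_re]
    linarith
  obtain ⟨δ₁, hδ₁, ev1⟩ := eventually_norm_add hω1 c1
  obtain ⟨δ₂, hδ₂, ev2⟩ := eventually_norm_add hω1 c2
  obtain ⟨δ₃, hδ₃, ev3⟩ := eventually_norm_add hω1 c3
  obtain ⟨δ₄, hδ₄, ev4⟩ := eventually_norm_add hω1 c4
  set δ : ℝ := min (min δ₁ δ₂) (min δ₃ δ₄) with hδ
  have hδ0 : 0 < δ := lt_min (lt_min hδ₁ hδ₂) (lt_min hδ₃ hδ₄)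
  have hd1 : δ ≤ δ₁ := (min_le_left _ _).trans (min_le_left _ _)
  have hd2 : δ ≤ δ₂ := (min_le_left _ _).trans (min_le_right _ _)
  have hd3 : δ ≤ δ₃ := (min_le_right _ _).trans (min_le_left _ _)
  have hd4 : δ ≤ δ₄ := (min_le_right _ _).trans (min_le_right _ _)
  -- constants
  set A : ℝ := (1 + ‖1 - t‖) * ‖f (D y)‖ with hA
  have hA0 : 0 ≤ A := by positivity
  set a : ℝ := min 1 (δ / (2 * (A + 1))) with ha
  have ha0 : 0 < a := lt_min one_pos (by positivity)
  have ha1 : a ≤ 1 := min_le_left _ _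
  have haA : a * A ≤ δ / 2 := by
    have : a ≤ δ / (2 * (A + 1)) := min_le_right _ _
    calc a * A ≤ δ / (2 * (A + 1)) * A := by gcongr
      _ = (δ / 2) * (A / (A + 1)) := by field_simp
      _ ≤ (δ / 2) * 1 := by
          gcongr
          rw [div_le_one (by positivity)]; linarith
      _ = _ := by ring
  set C₁ : ℝ := ‖D x - p • x‖ with hC₁
  set C₂ : ℝ := ‖D y - f (D y) • x - s' • y‖ with hC₂
  set E : ℝ := (1 + ‖t‖ + ‖1 - t‖) * (C₁ + C₂) with hE
  have hE0 : 0 ≤ E := by positivity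
  set η : ℝ := min 1 (a * δ / (2 * (E + 1))) with hη
  have hη0 : 0 < η := lt_min one_pos (by positivity)
  have hη1 : η ≤ 1 := min_le_left _ _
  have hηE : η * E ≤ a * δ / 2 := by
    have : η ≤ a * δ / (2 * (E + 1)) := min_le_right _ _
    calc η * E ≤ a * δ / (2 * (E + 1)) * E := by gcongr
      _ = (a * δ / 2) * (E / (E + 1)) := by field_simp
      _ ≤ (a * δ / 2) * 1 := by
          gcongr
          rw [div_le_one (by positivity)]; linarith
      _ = _ := by ring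
  set C₃ : ℝ := ‖D‖ * (‖f‖ + ‖h‖ + (1 + ‖f‖ * ‖x‖ + ‖h‖ * ‖y‖)) with hC₃
  have hC₃0 : 0 ≤ C₃ := by positivity
  have ev5 : ∀ᶠ s : ℝ in atTop, (1 + ‖t‖) * C₃ / η + δ + 1 ≤ s := eventually_ge_atTop _
  obtain ⟨s, ⟨⟨g1, g2⟩, ⟨g3, g4⟩⟩, g5⟩ :=
    (((ev1.and ev2).and (ev3.and ev4)).and ev5).exists
  have hb1 : 0 ≤ (1 + ‖t‖) * C₃ / η := by positivity
  have hs1 : 1 ≤ s := by linarith
  have hs0 : 0 ≤ s := by linarith
  have hsδ : 0 ≤ s - δ := by linarith
  have g6 : (1 + ‖t‖) * C₃ ≤ (s - δ) * η := by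
    have : (1 + ‖t‖) * C₃ / η ≤ s - δ := by linarith
    rwa [div_le_iff₀ hη0] at this
  set z : ℂ := (s : ℂ) * ω with hz
  have hzn : ‖z‖ = s := norm_ofReal_mul hω1 hs0
  -- the operator
  set T : X →L[ℂ] X := z • rk f x + rk h (z • y + D y) with hT
  have hTv : ∀ v, T v = (z * f v) • x + h v • (z • y + D y) := by
    intro v
    change z • (f v • x) + h v • (z • y + D y) = _
    rw [smul_smul]
  have hbound : ∀ (c : ℂ) (ρ : ℝ), 0 ≤ ρ → a * ‖z - c * p‖ + η * (‖c‖ * C₁) ≤ ρ * a →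
      a * (‖1 - c‖ * ‖f (D y)‖) + ‖z + (1 - c) * s'‖ + η * (‖1 - c‖ * C₂) ≤ ρ →
      ‖c‖ * C₃ ≤ ρ * η → rr (T - c • D) ≤ ρ := by
    intro c ρ hρ k1 k2 k3
    have hWx : (T - c • D) x = z • x - c • D x := by
      change T x - c • D x = _
      rw [hTv, hfx, hhx, mul_one, zero_smul, add_zero]
    have hWy : (T - c • D) y = z • y + (1 - c) • D y := by
      change T y - c • D y = _
      rw [hTv, hfy, hhy, mul_zero, zero_smul, zero_add, one_smul]
      module
    have f1 : f ((T - c • D) x) = z - c * p := by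
      rw [hWx, map_sub, map_smul, map_smul, hfx, hfDx, smul_eq_mul, smul_eq_mul, mul_one]
    have f2 : h ((T - c • D) x) = 0 := by
      rw [hWx, map_sub, map_smul, map_smul, hhx, hhDx, smul_zero, smul_zero, sub_zero]
    have f3 : f ((T - c • D) y) = (1 - c) * f (D y) := by
      rw [hWy, map_add, map_smul, map_smul, hfy, smul_zero, zero_add, smul_eq_mul]
    have f4 : h ((T - c • D) y) = z + (1 - c) * s' := by
      rw [hWy, map_add, map_smul, map_smul, hhy, smul_eq_mul, smul_eq_mul, mul_one]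
    apply rr_le_two ha0 one_pos hη0 hρ hfx hfy hhx hhy
    · rw [f1, f2, norm_zero, mul_zero, add_zero, zero_smul, sub_zero, hWx]
      have e : z • x - c • D x - (z - c * p) • x = -(c • (D x - p • x)) := by module
      rw [e, norm_neg, norm_smul]
      exact k1
    · rw [f3, f4, hWy]
      have e : z • y + (1 - c) • D y - ((1 - c) * f (D y)) • x - (z + (1 - c) * s') • y
          = (1 - c) • (D y - f (D y) • x - s' • y) := by module
      rw [e, norm_smul, norm_mul, one_mul, mul_one]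
      exact k2
    · intro v hv1 hv2
      have hWv : (T - c • D) v = -(c • D v) := by
        change T v - c • D v = _
        rw [hTv, hv1, hv2]; simp
      rw [hWv]
      set q : X := -(c • D v) with hq
      have hqn : ‖q‖ ≤ ‖c‖ * (‖D‖ * ‖v‖) := by
        rw [hq, norm_neg, norm_smul]
        gcongr
        exact D.le_opNorm v
      have q1 := f.le_opNorm q
      have q2 := h.le_opNorm q
      have q3 : ‖q - f q • x - h q • y‖ ≤ ‖q‖ + ‖f q‖ * ‖x‖ + ‖h q‖ * ‖y‖ := by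
        refine (norm_sub_le _ _).trans ?_
        rw [norm_smul]
        have := norm_sub_le q (f q • x)
        rw [norm_smul] at this
        linarith
      have q4 : ‖f q‖ * ‖x‖ ≤ ‖f‖ * ‖q‖ * ‖x‖ := by gcongr
      have q5 : ‖h q‖ * ‖y‖ ≤ ‖h‖ * ‖q‖ * ‖y‖ := by gcongr
      calc a * ‖f q‖ + 1 * ‖h q‖ + η * ‖q - f q • x - h q • y‖
          ≤ 1 * (‖f‖ * ‖q‖) + 1 * (‖h‖ * ‖q‖) + 1 * (‖q‖ + ‖f‖ * ‖q‖ * ‖x‖ + ‖h‖ * ‖q‖ * ‖y‖) := by
            gcongr
            linarith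
        _ = (‖f‖ + ‖h‖ + (1 + ‖f‖ * ‖x‖ + ‖h‖ * ‖y‖)) * ‖q‖ := by ring
        _ ≤ (‖f‖ + ‖h‖ + (1 + ‖f‖ * ‖x‖ + ‖h‖ * ‖y‖)) * (‖c‖ * (‖D‖ * ‖v‖)) := by gcongr
        _ = (‖c‖ * C₃) * ‖v‖ := by rw [hC₃]; ring
        _ ≤ (ρ * η) * ‖v‖ := by gcongr
        _ = _ := by ring
  -- T
  have hTx : T x = z • x := by
    rw [hTv, hfx, hhx, mul_one, zero_smul, add_zero]
  have hTy : (T - D) y = z • y := by
    change T y - D y = _
    rw [hTv, hfy, hhy, mul_zero, zero_smul, zero_add, one_smul]; abel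
  have hC₁0 : 0 ≤ C₁ := norm_nonneg _
  have hC₂0 : 0 ≤ C₂ := norm_nonneg _
  have hE1 : η * C₂ ≤ a * δ / 2 :=
    (mul_le_mul_of_nonneg_left (real_aux2 (norm_nonneg t) (norm_nonneg (1 - t)) hC₁0 hC₂0)
      hη0.le).trans hηE
  have hE2 : η * C₁ ≤ a * δ / 2 :=
    (mul_le_mul_of_nonneg_left (real_aux1 (norm_nonneg t) (norm_nonneg (1 - t)) hC₁0 hC₂0)
      hη0.le).trans hηE
  have hE3 : η * (‖t‖ * C₁) ≤ a * δ / 2 :=
    (mul_le_mul_of_nonneg_left (real_aux3 (norm_nonneg t) (norm_nonneg (1 - t)) hC₁0 hC₂0)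
      hη0.le).trans hηE
  have hE4 : η * (‖1 - t‖ * C₂) ≤ a * δ / 2 :=
    (mul_le_mul_of_nonneg_left (real_aux4 (norm_nonneg t) (norm_nonneg (1 - t)) hC₁0 hC₂0)
      hη0.le).trans hηE
  have haδ : a * δ / 2 ≤ δ / 2 := by
    have : a * δ ≤ 1 * δ := mul_le_mul_of_nonneg_right ha1 hδ0.le
    linarith
  have hA1 : a * ‖f (D y)‖ ≤ δ / 2 := by
    refine le_trans (mul_le_mul_of_nonneg_left ?_ ha0.le) haA
    have := mul_nonneg (norm_nonneg (1 - t)) (norm_nonneg (f (D y)))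
    rw [hA, add_mul, one_mul]
    linarith
  have hA2 : a * (‖1 - t‖ * ‖f (D y)‖) ≤ δ / 2 := by
    refine le_trans (mul_le_mul_of_nonneg_left ?_ ha0.le) haA
    rw [hA, add_mul, one_mul]
    linarith [norm_nonneg (f (D y))]
  have hp1 : per (T - 0) z := by
    rw [sub_zero]
    refine ⟨mem_spectrum_of_eigen hx0 hTx, le_antisymm (le_rr_of_eigen hx0 hTx) ?_⟩
    have := hbound 0 s hs0 (by simp [hzn, mul_comm]) (by
      rw [sub_zero, norm_one, one_mul, one_mul, one_mul]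
      linarith) (by rw [norm_zero, zero_mul]; exact mul_nonneg hs0 hη0.le)
    rwa [zero_smul, sub_zero, ← hzn] at this
  have hp2 : per (T - D) z := by
    refine ⟨mem_spectrum_of_eigen hy0 hTy, le_antisymm (le_rr_of_eigen hy0 hTy) ?_⟩
    have := hbound 1 s hs0 (by
      rw [one_mul, norm_one, one_mul, sub_eq_add_neg]
      have k1 : a * ‖z + -p‖ ≤ a * (s - 2 * δ₃) := mul_le_mul_of_nonneg_left g3 ha0.le
      have k2 : a * δ ≤ a * δ₃ := mul_le_mul_of_nonneg_left hd3 ha0.le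
      have k3 : 0 ≤ a * δ := mul_nonneg ha0.le hδ0.le
      calc a * ‖z + -p‖ + η * C₁ ≤ a * (s - 2 * δ₃) + a * δ / 2 := add_le_add k1 hE2
        _ = s * a - 2 * (a * δ₃) + a * δ / 2 := by ring
        _ ≤ s * a := by linarith) (by
      simp [hzn]) (by
      rw [norm_one, one_mul]
      have k1 : 0 ≤ ‖t‖ * C₃ := mul_nonneg (norm_nonneg t) hC₃0
      have k2 : 0 ≤ δ * η := mul_nonneg hδ0.le hη0.le
      rw [add_mul, one_mul, sub_mul] at g6
      linarith)
    rwa [one_smul, ← hzn] at this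
  have h4 := hP T z hp1 hp2
  have h5 := hbound t (s - δ) hsδ (by
      rw [sub_eq_add_neg z (t * p)]
      have k1 : a * ‖z + -(t * p)‖ ≤ a * (s - 2 * δ₄) := mul_le_mul_of_nonneg_left g4 ha0.le
      have k2 : a * δ ≤ a * δ₄ := mul_le_mul_of_nonneg_left hd4 ha0.le
      have k3 : 0 ≤ a * δ := mul_nonneg ha0.le hδ0.le
      calc a * ‖z + -(t * p)‖ + η * (‖t‖ * C₁) ≤ a * (s - 2 * δ₄) + a * δ / 2 :=
            add_le_add k1 hE3
        _ = (s - δ) * a + a * δ - 2 * (a * δ₄) + a * δ / 2 := by ring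
        _ ≤ (s - δ) * a := by linarith) (by
      linarith) (by
      rw [add_mul, one_mul] at g6
      linarith)
  rw [hzn] at h4
  linarith

end Pool.Agent.SpecRad
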