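import Pool.Agent.SpecRad.NPair

/-!
# The three-point property: tests by operators of rank at most two
-/

open Filter Topology ContinuousLinearMap
open scoped ComplexConjugate

namespace Pool.Agent.SpecRad

variable {X : Type*} [NormedAddCommGroup X] [NormedSpace ℂ X] [CompleteSpace X]

lemma norm_ofReal_mul {ω : ℂ} (hω : ‖ω‖ = 1) {s : ℝ} (hs : 0 ≤ s) : ‖(s : ℂ) * ω‖ = s := by
  rw [norm_mul, hω, mul_one, Complex.norm_real, Real.norm_of_nonneg hs]

/-- Strict inequality for rank-one perturbations in a good direction. -/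
lemma eventually_rr_lt {K : X →L[ℂ] X} {f : X →L[ℂ] ℂ} {x : X} (hfx : f x = 1) {ω : ℂ}
    (hω : ‖ω‖ = 1) (h : (conj ω * f (K x)).re < 0) :
    ∀ᶠ s : ℝ in atTop, rr (((s : ℂ) * ω) • rk f x + K) < s := by
  obtain ⟨δ, hδ, hev⟩ := eventually_norm_add hω h
  set M : ℝ := ‖K‖ * ((1 + ‖f‖) * (1 + ‖x‖) ^ 2) with hM
  have hM0 : 0 ≤ M := by positivity
  set η : ℝ := δ / (M + 1) with hη
  have hη0 : 0 < η := by positivity
  have hηM : η * M ≤ δ := by
    rw [hη, div_mul_eq_mul_div, div_le_iff₀ (by positivity)]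
    nlinarith
  have h2 : ∀ᶠ s : ℝ in atTop, M * (1 + η) / η + ‖f (K x)‖ ≤ s := eventually_ge_atTop _
  filter_upwards [hev, h2, eventually_ge_atTop (0 : ℝ)] with s h1 h2 hs
  have h3 : s - ‖f (K x)‖ ≤ ‖(s : ℂ) * ω + f (K x)‖ := by
    have := norm_sub_norm_le ((s : ℂ) * ω) (-(f (K x)))
    rwa [norm_neg, sub_neg_eq_add, norm_ofReal_mul hω hs] at this
  have h4 : M * (1 + η) ≤ (‖(s : ℂ) * ω + f (K x)‖ + η * M) * η := by
    have h5 : M * (1 + η) / η ≤ ‖(s : ℂ) * ω + f (K x)‖ + η * M := by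
      have : 0 ≤ η * M := by positivity
      linarith
    rwa [div_le_iff₀ hη0] at h5
  have := rr_le_rank_one hfx (hM.symm.le) hη0 h4
  linarith

lemma PP.test {D R : X →L[ℂ] X} (h : PP 0 D R) {x : X} {f : X →L[ℂ] ℂ} (hfx : f x = 1)
    (hfD : f (D x) = 0) : f (R x) = 0 := by
  by_contra hκ
  have hx0 : x ≠ 0 := by
    intro h0
    rw [h0, map_zero] at hfx
    exact zero_ne_one hfx
  obtain ⟨g, hg1, hg2⟩ : ∃ g : X →L[ℂ] ℂ, g x = 0 ∧ g (D x) • D (D x) = D (D x) := by
    by_cases hD : D x = 0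
    · exact ⟨0, by simp, by rw [hD]; simp⟩
    · have hind : LinearIndependent ℂ ![x, D x] := by
        rw [LinearIndependent.pair_iff]
        intro s t hst
        have h1 := congrArg f hst
        rw [map_add, map_smul, map_smul, hfx, hfD, map_zero, smul_zero, add_zero, smul_eq_mul,
          mul_one] at h1
        rw [h1, zero_smul, zero_add] at hst
        exact ⟨h1, (smul_eq_zero.1 hst).resolve_right hD⟩
      obtain ⟨g, hg⟩ := exists_functional hind ![0, 1]
      have hg0 : g x = 0 := by simpa using hg 0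
      have hg1 : g (D x) = 1 := by simpa using hg 1
      exact ⟨g, hg0, by rw [hg1, one_smul]⟩
  set K₀ : X →L[ℂ] X := rk g (D (D x)) with hK₀
  set ω : ℂ := f (R x) / ‖f (R x)‖ with hω
  have hn : (‖f (R x)‖ : ℂ) ≠ 0 := by
    rw [Complex.ofReal_ne_zero]; exact norm_ne_zero_iff.2 hκ
  have hω1 : ‖ω‖ = 1 := by
    rw [hω, norm_div, Complex.norm_real, norm_norm, div_self (norm_ne_zero_iff.2 hκ)]
  have hK0x : K₀ x = 0 := by
    change g x • D (D x) = 0
    rw [hg1, zero_smul]
  have hlt : (conj ω * f ((K₀ - R) x)).re < 0 := by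
    have e1 : f ((K₀ - R) x) = - f (R x) := by
      change f (K₀ x - R x) = _
      rw [hK0x, zero_sub, map_neg]
    have e2 : conj ω * f ((K₀ - R) x) = -(‖f (R x)‖ : ℂ) := by
      rw [e1, hω, map_div₀, Complex.conj_ofReal, mul_neg, div_mul_eq_mul_div, mul_comm (conj _) _,
        Complex.mul_conj, Complex.normSq_eq_norm_sq]
      push_cast
      rw [pow_two, mul_div_assoc, div_self hn, mul_one]
    rw [e2, Complex.neg_re, Complex.ofReal_re]
    exact neg_neg_of_pos (norm_pos_iff.2 hκ)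
  have hev := eventually_rr_lt hfx hω1 hlt
  set C : ℝ := ‖K₀‖ + ‖D‖ with hC
  have hC0 : 0 ≤ C := by positivity
  obtain ⟨s, h1, h2, h3⟩ := (hev.and ((eventually_ge_atTop (1 : ℝ)).and
    (eventually_ge_atTop (C * (1 + ‖f‖ + ‖f‖ * (‖x‖ + ‖D x‖)))))).exists
  have hs0 : (0 : ℝ) ≤ s := by linarith
  set z : ℂ := (s : ℂ) * ω with hz
  have hzn : ‖z‖ = s := norm_ofReal_mul hω1 hs0
  have hz0 : z ≠ 0 := by
    rw [← norm_pos_iff, hzn]; linarith
  set T : X →L[ℂ] X := z • rk f x + K₀ with hT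
  have hTx : T x = z • x := by
    change z • (f x • x) + K₀ x = z • x
    rw [hK0x, hfx, one_smul, add_zero]
  have hTker : ∀ v, f v = 0 → T v = K₀ v := by
    intro v hv
    change z • (f v • x) + K₀ v = K₀ v
    rw [hv, zero_smul, smul_zero, zero_add]
  -- T
  have hp1 : per (T - 0) z := by
    rw [sub_zero]
    refine ⟨mem_spectrum_of_eigen hx0 hTx, le_antisymm (le_rr_of_eigen hx0 hTx) ?_⟩
    apply rr_le_exact hfx hTx hC0
    · intro v hv
      rw [hTker v hv]
      refine (K₀.le_opNorm v).trans ?_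
      gcongr
      rw [hC]; linarith [norm_nonneg D]
    · rw [hzn]
      refine le_trans ?_ h3
      gcongr
      linarith [norm_nonneg (D x)]
  -- T - D
  set u : X := x - z⁻¹ • D x with hu
  have hfu : f u = 1 := by
    rw [hu, map_sub, map_smul, hfD, smul_zero, sub_zero, hfx]
  have hu0 : u ≠ 0 := by
    intro h0
    rw [h0, map_zero] at hfu
    exact zero_ne_one hfu
  have hTD : (T - D) u = z • u := by
    have e1 : T (D x) = D (D x) := by
      change z • (f (D x) • x) + g (D x) • D (D x) = D (D x)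
      rw [hfD, hg2, zero_smul, smul_zero, zero_add]
    change T u - D u = z • u
    rw [hu, map_sub, map_sub, map_smul, map_smul, hTx, e1, smul_sub, smul_smul,
      mul_inv_cancel₀ hz0, one_smul]
    abel
  have hun : ‖u‖ ≤ ‖x‖ + ‖D x‖ := by
    rw [hu]
    refine (norm_sub_le _ _).trans ?_
    rw [norm_smul, norm_inv, hzn]
    have : s⁻¹ * ‖D x‖ ≤ 1 * ‖D x‖ := by
      gcongr
      exact inv_le_one_of_one_le₀ h2
    linarith
  have hp2 : per (T - D) z := by
    refine ⟨mem_spectrum_of_eigen hu0 hTD, le_antisymm (le_rr_of_eigen hu0 hTD) ?_⟩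
    apply rr_le_exact hfu hTD hC0
    · intro v hv
      change ‖T v - D v‖ ≤ _
      rw [hTker v hv]
      refine (norm_sub_le _ _).trans ?_
      have e1 := K₀.le_opNorm v
      have e2 := D.le_opNorm v
      rw [hC, add_mul]
      linarith
    · rw [hzn]
      refine le_trans ?_ h3
      gcongr
  have h4 := h T z hp1 hp2
  have e3 : T - R = z • rk f x + (K₀ - R) := by rw [hT]; abel
  rw [e3, hzn] at h4
  linarith

omit [CompleteSpace X] in
lemma exists_sep_of_not_mem_line {x y : X} (h : ∀ c : ℂ, x ≠ c • y) :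
    ∃ f : X →L[ℂ] ℂ, f x = 1 ∧ f y = 0 := by
  have hx0 : x ≠ 0 := by
    have := h 0
    rwa [zero_smul] at this
  by_cases hy : y = 0
  · obtain ⟨f, hf⟩ := SeparatingDual.exists_eq_one (R := ℂ) hx0
    exact ⟨f, hf, by rw [hy, map_zero]⟩
  · have hind : LinearIndependent ℂ ![x, y] := by
      rw [LinearIndependent.pair_iff]
      intro s t hst
      have hs : s = 0 := by
        by_contra hs
        apply h (-(s⁻¹ * t))
        have : s • x = -(t • y) := by rw [← sub_eq_zero, sub_neg_eq_add]; exact hst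
        calc x = s⁻¹ • (s • x) := by rw [smul_smul, inv_mul_cancel₀ hs, one_smul]
          _ = _ := by rw [this]; module
      rw [hs, zero_smul, zero_add] at hst
      exact ⟨hs, (smul_eq_zero.1 hst).resolve_right hy⟩
    obtain ⟨f, hf⟩ := exists_functional hind ![1, 0]
    exact ⟨f, by simpa using hf 0, by simpa using hf 1⟩

omit [CompleteSpace X] in
/-- The algebraic consequence of the tests. -/
lemma line_of_test {D R : X →L[ℂ] X} (hD : ∀ c : ℂ, D ≠ c • 1)
    (h : ∀ (x : X) (f : X →L[ℂ] ℂ), f x = 1 → f (D x) = 0 → f (R x) = 0) :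
    ∃ b : ℂ, R = b • D := by
  -- Claim 1
  have claim : ∀ R : X →L[ℂ] X, (∀ (x : X) (f : X →L[ℂ] ℂ), f x = 1 → f (D x) = 0 → f (R x) = 0) →
      ∀ x, (∀ c : ℂ, x ≠ c • D x) → ∃ b : ℂ, R x = b • D x := by
    intro R h x hx
    by_contra hcon
    push Not at hcon
    obtain ⟨f₁, h1, h2⟩ := exists_sep_of_not_mem_line hcon
    obtain ⟨f₀, h3, h4⟩ := exists_sep_of_not_mem_line hx
    have h5 := h x f₀ h3 h4
    -- choose s ≠ 0 with 1 + s f₁ x ≠ 0
    obtain ⟨s, hs0, hs1⟩ : ∃ s : ℂ, s ≠ 0 ∧ 1 + s * f₁ x ≠ 0 := by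
      by_cases hf : 1 + 1 * f₁ x = 0
      · refine ⟨2, two_ne_zero, ?_⟩
        have : f₁ x = -1 := by linear_combination hf
        rw [this]; norm_num
      · exact ⟨1, one_ne_zero, hf⟩
    have h6 := h x ((1 + s * f₁ x)⁻¹ • (f₀ + s • f₁)) (by
      change (1 + s * f₁ x)⁻¹ * (f₀ x + s * f₁ x) = 1
      rw [h3, inv_mul_cancel₀ hs1]) (by
      change (1 + s * f₁ x)⁻¹ * (f₀ (D x) + s * f₁ (D x)) = 0
      rw [h4, h2]; simp)
    change (1 + s * f₁ x)⁻¹ * (f₀ (R x) + s * f₁ (R x)) = 0 at h6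
    rw [h5, h1, mul_one, zero_add] at h6
    exact mul_ne_zero (inv_ne_zero hs1) hs0 h6
  obtain ⟨x₀, hx₀⟩ := exists_pair_of_nonscalar hD
  have hx₀' : ∀ c : ℂ, x₀ ≠ c • D x₀ := by
    intro c hc
    rw [LinearIndependent.pair_iff] at hx₀
    have := hx₀ 1 (-c) (by rw [one_smul, neg_smul, ← hc]; abel)
    exact one_ne_zero this.1
  obtain ⟨b₀, hb₀⟩ := claim R h x₀ hx₀'
  refine ⟨b₀, ?_⟩
  set R' : X →L[ℂ] X := R - b₀ • D with hR'
  have hR'0 : R' x₀ = 0 := by
    change R x₀ - b₀ • D x₀ = 0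
    rw [hb₀, sub_self]
  have h' : ∀ (x : X) (f : X →L[ℂ] ℂ), f x = 1 → f (D x) = 0 → f (R' x) = 0 := by
    intro x f h1 h2
    change f (R x - b₀ • D x) = 0
    rw [map_sub, map_smul, h x f h1 h2, h2, smul_zero, sub_zero]
  have hclaim := claim R' h'
  have hzero : ∀ v, R' v = 0 := by
    intro v
    by_cases hv : ∃ κ : ℂ, D v = κ • D x₀
    · obtain ⟨κ, hκ⟩ := hv
      by_cases hw0 : v - κ • x₀ = 0
      · rw [sub_eq_zero] at hw0
        rw [hw0, map_smul, hR'0, smul_zero]
      · have hDw : D (v - κ • x₀) = 0 := by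
          rw [map_sub, map_smul, hκ, sub_self]
        obtain ⟨b, hb⟩ := hclaim (v - κ • x₀) (by
          intro c; rw [hDw, smul_zero]; exact hw0)
        rw [hDw, smul_zero, map_sub, map_smul, hR'0, smul_zero, sub_zero] at hb
        exact hb
    · push Not at hv
      -- small t
      have hopen : IsOpen {p : Fin 2 → X | LinearIndependent ℂ p} :=
        isOpen_setOfPred_linearIndependent
      have hcont : Continuous (fun t : ℝ => ![x₀ + (t : ℂ) • v, D (x₀ + (t : ℂ) • v)]) := by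
        apply continuous_pi
        intro i
        fin_cases i
        · simp only [Fin.zero_eta, Matrix.cons_val_zero]
          fun_prop
        · simp only [Fin.mk_one, Matrix.cons_val_one, Matrix.cons_val_fin_one]
          fun_prop
      have hev : ∀ᶠ t : ℝ in 𝓝 0, LinearIndependent ℂ ![x₀ + (t : ℂ) • v, D (x₀ + (t : ℂ) • v)] := by
        have h0 : {p : Fin 2 → X | LinearIndependent ℂ p} ∈
            𝓝 ((fun t : ℝ => ![x₀ + (t : ℂ) • v, D (x₀ + (t : ℂ) • v)]) 0) := by
          apply hopen.mem_nhds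
          simp only [Complex.ofReal_zero, zero_smul, add_zero]
          exact hx₀
        exact hcont.continuousAt.preimage_mem_nhds h0
      obtain ⟨ε, hε, hball⟩ := Metric.eventually_nhds_iff.1 hev
      have key : ∀ t : ℝ, 0 < t → t < ε → ∃ b : ℂ, R' v = b • (D x₀ + (t : ℂ) • D v) := by
        intro t ht0 ht1
        have hi := hball (y := t) (by rw [dist_zero_right, Real.norm_eq_abs, abs_of_pos ht0]; exact ht1)
        obtain ⟨b, hb⟩ := hclaim (x₀ + (t : ℂ) • v) (by
          intro c hc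
          rw [LinearIndependent.pair_iff] at hi
          have := hi 1 (-c) (by rw [one_smul, neg_smul, ← hc]; abel)
          exact one_ne_zero this.1)
        rw [map_add, map_smul, hR'0, zero_add, map_add, map_smul] at hb
        have ht0' : (t : ℂ) ≠ 0 := by exact_mod_cast ht0.ne'
        refine ⟨(t : ℂ)⁻¹ * b, ?_⟩
        rw [mul_smul, ← hb, smul_smul, inv_mul_cancel₀ ht0', one_smul]
      obtain ⟨b₁, h1⟩ := key (ε / 2) (by positivity) (by linarith)
      obtain ⟨b₂, h2⟩ := key (ε / 4) (by positivity) (by linarith)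
      -- Dx₀, Dv independent
      have hDx0 : D x₀ ≠ 0 := by
        intro h0
        rw [LinearIndependent.pair_iff] at hx₀
        have := hx₀ 0 1 (by rw [h0]; simp)
        exact one_ne_zero this.2
      obtain ⟨k, hk1, hk2⟩ := exists_sep_of_not_mem_line (x := D v) (y := D x₀) hv
      obtain ⟨l, hl1⟩ := SeparatingDual.exists_eq_one (R := ℂ) hDx0
      -- apply functionals
      have e1 := congrArg k h1
      have e2 := congrArg k h2
      rw [map_smul, map_add, map_smul, hk2, hk1, zero_add, smul_eq_mul, smul_eq_mul, mul_one] at e1 e2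
      have e3 : b₁ • (D x₀ + ((ε / 2 : ℝ) : ℂ) • D v) = b₂ • (D x₀ + ((ε / 4 : ℝ) : ℂ) • D v) := by
        rw [← h1, ← h2]
      have e4 := congrArg (fun u => l u - l (D v) * k u) e3
      simp only [map_smul, map_add, hk2, hk1, hl1, smul_eq_mul] at e4
      have e5 : b₁ = b₂ := by linear_combination e4
      rw [e1, e5] at e2
      have hε' : (ε : ℂ) ≠ 0 := by exact_mod_cast hε.ne'
      push_cast at e2
      have e6 : b₂ * (ε : ℂ) = 0 := by linear_combination 4 * e2
      have e7 : b₂ = 0 := (mul_eq_zero.1 e6).resolve_right hε'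
      rw [h2, e7, zero_smul]
  ext v
  have := hzero v
  change R v - b₀ • D v = 0 at this
  exact sub_eq_zero.1 this

end Pool.Agent.SpecRad
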